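import Mathlib

/-! Definitions used in the statements for MP_76d3fb_an. -/

namespace BGC.Stmt

open Filter Topology Set

/-- A semitopological semigroup: Hausdorff, with separately continuous multiplication. -/
structure Semitopological (S : Type*) [Semigroup S] [TopologicalSpace S] : Prop where
  t2 : T2Space S
  left : ∀ a : S, Continuous (fun s : S => a * s)
  right : ∀ a : S, Continuous (fun s : S => s * a)

/-- Left reversible: the closures of `a S` and `b S` meet for all `a`, `b`. -/
def LeftReversible (S : Type*) [Semigroup S] [TopologicalSpace S] : Prop :=
  ∀ a b : S, (closure (range (fun s : S => a * s)) ∩ closure (range (fun s : S => b * s))).Nonempty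

/-- `E` has weak fpp for `S`: every separately continuous action (for the norm topology) of `S` by
nonexpansive maps on a nonempty weakly compact convex set has a common fixed point. -/
def WeakFPPFor (E : Type*) [NormedAddCommGroup E] [NormedSpace ℂ E] (S : Type*) [Semigroup S]
    [TopologicalSpace S] : Prop :=
  ∀ K : Set E, K.Nonempty → Convex ℝ K → IsCompact (toWeakSpace ℂ E '' K) →
    ∀ act : S → K → K, (∀ s t x, act (s * t) x = act s (act t x)) →
      (∀ s, Continuous (act s)) → (∀ x, Continuous fun s => act s x) →
      (∀ s x y, dist (act s x) (act s y) ≤ dist x y) → ∃ x, ∀ s, act s x = x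

/-- `E` has weak fpp for every left reversible semitopological semigroup. -/
def WeakFPPLeftReversible.{v, u} (E : Type u) [NormedAddCommGroup E] [NormedSpace ℂ E] : Prop :=
  ∀ (S : Type v) [Semigroup S] [TopologicalSpace S], Semitopological S → LeftReversible S →
    WeakFPPFor E S

/-- The Cantor-Bendixson derivative of a subset: its points which are accumulation points of it. -/
def cbDeriv {Ω : Type*} [TopologicalSpace Ω] (A : Set Ω) : Set Ω := {t | t ∈ A ∧ AccPt t (𝓟 A)}

end BGC.Stmt
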