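import Pool.Agent.Work.MP_76d3fb_an.Defs

/-! A block norm inequality.

For `ξ` put `x1 = ‖P ξ‖`, `x2 = ‖ξ - P ξ‖`, `x1² + x2² = ‖ξ‖²` (`P` is a selfadjoint idempotent).
`⟪(P a P + (w - P w P)) ξ, η⟫ = ⟪a P ξ, P η⟫ + ⟪w P ξ, η - P η⟫ + ⟪w (ξ - P ξ), P η⟫
+ ⟪w (ξ - P ξ), η - P η⟫`, so its modulus is at most
`α x1 y1 + β (x1 y2 + x2 y1 + x2 y2)
≤ (α x1² + α y1²)/2 + (β x2² + β y2²)/2 + β x1 y2 + β x2 y1 ≤ c (x1² + x2² + y1² + y2²)/2` because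
`(c - α) s² - 2 β s t + (c - β) t² ≥ 0` (`0 ≤ c - α`, `0 ≤ c - β`, `β² ≤ (c - α)(c - β)`).
For unit vectors this is `≤ c`; so `‖T‖ ≤ c` (scale: `ContinuousLinearMap.opNorm_le_bound`, with
`η = T ξ`; for `‖ξ‖ = 1`, `‖T ξ‖ = |⟪T ξ, η⟫|` with `η = T ξ / ‖T ξ‖`.  Or keep `ξ, η` arbitrary:
replace `ξ` by `s ξ`, `η` by `s⁻¹ η`). -/

namespace BGC

open Filter Topology Set

private theorem block_aux {α β c x1 x2 y1 y2 : ℝ} (hβ : 0 ≤ β)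
    (hαc : α ≤ c) (hβc : β ≤ c) (hc : β ^ 2 ≤ (c - α) * (c - β)) (hα : 0 ≤ α) :
    α * (x1 * y1) + β * (x1 * y2) + β * (x2 * y1) + β * (x2 * y2) ≤
      c * ((x1 ^ 2 + x2 ^ 2) + (y1 ^ 2 + y2 ^ 2)) / 2 := by
  have key : ∀ s t : ℝ, 0 ≤ (c - α) * s ^ 2 - 2 * β * s * t + (c - β) * t ^ 2 := by
    intro s t
    have h1 : 0 ≤ c - α := by linarith
    have h2 : 0 ≤ c - β := by linarith
    have h3 : β * (s * t) ≤ Real.sqrt ((c - α) * (c - β)) * |s * t| := by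
      calc β * (s * t) ≤ β * |s * t| := mul_le_mul_of_nonneg_left (le_abs_self _) hβ
        _ ≤ _ := mul_le_mul_of_nonneg_right (Real.le_sqrt_of_sq_le hc) (abs_nonneg _)
    have h4 : 0 ≤ (Real.sqrt (c - α) * |s| - Real.sqrt (c - β) * |t|) ^ 2 := sq_nonneg _
    have h5 : (Real.sqrt (c - α) * |s| - Real.sqrt (c - β) * |t|) ^ 2 =
        (c - α) * s ^ 2 - 2 * (Real.sqrt ((c - α) * (c - β)) * |s * t|) + (c - β) * t ^ 2 := by
      rw [sub_sq, mul_pow, mul_pow, Real.sq_sqrt h1, Real.sq_sqrt h2, sq_abs, sq_abs,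
        Real.sqrt_mul h1, abs_mul]
      ring
    rw [h5] at h4
    nlinarith
  have k1 := key x1 y2
  have k2 := key y1 x2
  have k3 : 0 ≤ α * (x1 - y1) ^ 2 := mul_nonneg hα (sq_nonneg _)
  have k4 : 0 ≤ β * (x2 - y2) ^ 2 := mul_nonneg hβ (sq_nonneg _)
  nlinarith

theorem block_norm {H : Type*} [NormedAddCommGroup H] [InnerProductSpace ℂ H] [CompleteSpace H]
    (P : H →L[ℂ] H) (hP : IsStarProjection P) (a w : H →L[ℂ] H) (α β c : ℝ) (hβ : 0 ≤ β)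
    (hαc : α ≤ c) (hβc : β ≤ c) (ha : ‖a‖ ≤ α) (hw : ‖w‖ ≤ β)
    (hc : β ^ 2 ≤ (c - α) * (c - β)) : ‖P * a * P + (w - P * w * P)‖ ≤ c := by
  have hα : 0 ≤ α := (norm_nonneg a).trans ha
  have hc0 : 0 ≤ c := hα.trans hαc
  have hsym : ∀ u v : H, inner ℂ (P u) v = inner ℂ u (P v) := hP.isSelfAdjoint.isSymmetric
  have hid : ∀ u : H, P (P u) = P u := by
    intro u
    have := hP.isIdempotentElem
    have h2 : (P * P) u = P u := by rw [this.eq]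
    simpa using h2
  have hpyth : ∀ u : H, ‖P u‖ ^ 2 + ‖u - P u‖ ^ 2 = ‖u‖ ^ 2 := by
    intro u
    have h0 : inner ℂ (P u) (u - P u) = 0 := by
      rw [inner_sub_right, hsym u u, hsym u (P u), hid, sub_self]
    have h1 := norm_add_sq (𝕜 := ℂ) (P u) (u - P u)
    rw [h0, add_sub_cancel] at h1
    simp at h1
    linarith
  have hbound : ∀ (b : H →L[ℂ] H) (γ : ℝ), ‖b‖ ≤ γ → ∀ u v : H,
      ‖inner ℂ u (b v)‖ ≤ γ * (‖v‖ * ‖u‖) := by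
    intro b γ hb u v
    calc ‖inner ℂ u (b v)‖ ≤ ‖u‖ * ‖b v‖ := norm_inner_le_norm _ _
      _ ≤ ‖u‖ * (γ * ‖v‖) := by
        refine mul_le_mul_of_nonneg_left ?_ (norm_nonneg _)
        exact (b.le_opNorm v).trans (mul_le_mul_of_nonneg_right hb (norm_nonneg _))
      _ = γ * (‖v‖ * ‖u‖) := by ring
  set T := P * a * P + (w - P * w * P) with hT
  have hform : ∀ ξ η : H, inner ℂ η (T ξ) = inner ℂ (P η) (a (P ξ)) +
      inner ℂ (η - P η) (w (P ξ)) + inner ℂ (P η) (w (ξ - P ξ)) +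
      inner ℂ (η - P η) (w (ξ - P ξ)) := by
    intro ξ η
    have e1 : T ξ = P (a (P ξ)) + (w ξ - P (w (P ξ))) := by simp [hT]
    rw [e1, inner_add_right, inner_sub_right, ← hsym η (a (P ξ)), ← hsym η (w (P ξ)), map_sub,
      inner_sub_left, inner_sub_left, inner_sub_right, inner_sub_right]
    ring
  have hmain : ∀ ξ η : H, ‖inner ℂ η (T ξ)‖ ≤ c * (‖ξ‖ ^ 2 + ‖η‖ ^ 2) / 2 := by
    intro ξ η
    rw [hform, ← hpyth ξ, ← hpyth η]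
    refine le_trans ?_ (block_aux (x1 := ‖P ξ‖) (x2 := ‖ξ - P ξ‖) (y1 := ‖P η‖)
      (y2 := ‖η - P η‖) hβ hαc hβc hc hα)
    refine (norm_add_le _ _).trans (add_le_add ((norm_add_le _ _).trans (add_le_add
      ((norm_add_le _ _).trans (add_le_add ?_ ?_)) ?_)) ?_)
    · exact hbound a α ha _ _
    · exact hbound w β hw _ _
    · exact hbound w β hw _ _
    · exact hbound w β hw _ _
  refine ContinuousLinearMap.opNorm_le_bound _ hc0 fun ξ => ?_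
  by_cases h0 : T ξ = 0
  · rw [h0, norm_zero]
    exact mul_nonneg hc0 (norm_nonneg _)
  by_cases hξ : ξ = 0
  · exact (h0 (by rw [hξ, map_zero])).elim
  have hTpos : 0 < ‖T ξ‖ := norm_pos_iff.2 h0
  have hξpos : 0 < ‖ξ‖ := norm_pos_iff.2 hξ
  have h1 := hmain ξ (((‖ξ‖ / ‖T ξ‖ : ℝ) : ℂ) • T ξ)
  rw [inner_smul_left, norm_mul, norm_smul] at h1
  simp only [Complex.conj_ofReal, Complex.norm_real, Real.norm_eq_abs,
    abs_of_pos (div_pos hξpos hTpos)] at h1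
  rw [inner_self_eq_norm_sq_to_K] at h1
  simp only [norm_pow, RCLike.norm_ofReal, abs_norm] at h1
  have h2 : ‖ξ‖ / ‖T ξ‖ * ‖T ξ‖ = ‖ξ‖ := div_mul_cancel₀ _ hTpos.ne'
  rw [h2] at h1
  have h3 : ‖ξ‖ / ‖T ξ‖ * ‖T ξ‖ ^ 2 = ‖ξ‖ * ‖T ξ‖ := by
    rw [pow_two, ← mul_assoc, h2]
  rw [h3] at h1
  have h4 : ‖ξ‖ * ‖T ξ‖ ≤ ‖ξ‖ * (c * ‖ξ‖) := by nlinarith
  exact le_of_mul_le_mul_left h4 hξpos

end BGC
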