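import Pool.Agent.Work.MP_76d3fb_an.WLim

/-! Weakly compact sets are norm fragmented.

Suppose `Frg T z` fails for `ε > 0`: for every open `O` meeting `T` and every `y : K` there is
`l ∈ O ∩ T` with `dist (z l) y > ε`.
Step 1 (`shrink`): for every open `O` meeting `T` and every finite `F ⊆ K` there is an open
`O' ⊆ O` meeting `T` with `dist (z l) y > ε` for all `l ∈ O' ∩ T`, `y ∈ F`.  Induction on `F`: for
one `y` take `l₀ ∈ O ∩ T` with `dist (z l₀) y > ε`, a functional `f`, `‖f‖ ≤ 1`, with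
`(f (z l₀ - y)).re > ε` (`exists_dual_vector''`), and `O' = O ∩ {l | l (re f) > ε + (f y).re}` (open:
evaluation at the function `x ↦ (f x).re`); `IsWL` gives `l (re f) = (f (z l)).re`.
Step 2: for every open `O` meeting `T` and every finite nonempty `F ⊆ K` there are an open
`O' ⊆ O`, `l' ∈ O' ∩ T`, a functional `f` and `u : ℝ` with `l (re f) > u` for `l ∈ O'` and
`(f y).re ≤ u` for all `y : E` with `infDist y (convexHull F) ≤ ε / 4` (cthickening): let `F'` be a
finite `ε/4`-net of the compact convex hull (points of `K`, as `K` is convex), `O''` from Step 1,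
`l' ∈ O'' ∩ T`; then `infDist (z l') (convexHull F) > ε / 2`; separate `z l'` from the closed convex
set `cthickening (ε/4) (convexHull F)` (`geometric_hahn_banach_closed_point`, complex version
`RCLike.geometric_hahn_banach_closed_point`), `O' = O'' ∩ {l | l (re f) > u}`.
Step 3: recursion with states `(O, F)` (`F` finite, start `F = {z l₀}`): sequences
`O n, l n ∈ O (n+1) ∩ T, f n, u n`, `q 0 = z l₀`, `q (n+1) = z (l n)`, `F n = q '' {k | k ≤ n}`.
For `m ≥ n`: `(f n (q (m+1))).re > u n`.  Take `p, V` of `exists_cluster` for `q`: `(f n p).re ≥ u n`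
... and by `cluster_hull` there are `n`, `y ∈ cvK K (F n)` with `dist p y < ε / 8`; to get a strict
contradiction use that `p + (small ball)` is still in the thickening: for all `x` with
`dist x p < ε / 8`, `infDist x (convexHull F n) < ε / 4` so `(f n x).re ≤ u n`; but `(f n p).re ≥ u n`
makes `p` a local maximum of the linear function `re (f n)`, so `f n = 0`, contradicting
`(f n (q (n+1))).re > u n ≥ (f n y).re`.  (Or get from Hahn-Banach a strict gap:
`(f y).re < u < (f (z l')).re`, so that `(f n p).re ≥ u n > (f n p).re`.) -/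

namespace BGC

open Filter Topology Set

variable {E : Type*} [NormedAddCommGroup E] [NormedSpace ℂ E]

private theorem open_gt {K : Set E} (f : StrongDual ℂ E) (c : ℝ) :
    IsOpen {l : (K → ℝ) → ℝ | c < l (fun x : K => (f x).re)} :=
  isOpen_lt continuous_const (continuous_apply _)

private theorem shrink {K : Set E} {T : Set ((K → ℝ) → ℝ)} {z : ((K → ℝ) → ℝ) → K}
    (hz : ∀ l ∈ T, IsWL K l (z l)) {ε : ℝ}
    (hneg : ∀ O : Set ((K → ℝ) → ℝ), IsOpen O → (O ∩ T).Nonempty → ∀ y : K,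
      ∃ l ∈ O ∩ T, ε < dist (z l) y) (O : Set ((K → ℝ) → ℝ)) (hO : IsOpen O)
    (hOT : (O ∩ T).Nonempty) (F : Set K) (hF : F.Finite) :
    ∃ O' ⊆ O, IsOpen O' ∧ (O' ∩ T).Nonempty ∧ ∀ l ∈ O' ∩ T, ∀ y ∈ F, ε < dist (z l) y := by
  induction F, hF using Set.Finite.induction_on with
  | empty => exact ⟨O, Subset.rfl, hO, hOT, by simp⟩
  | @insert y F _ _ ih =>
    obtain ⟨O', hsub, hop, hne, hd⟩ := ih
    obtain ⟨l₀, hl₀, hlt⟩ := hneg O' hop hne y
    obtain ⟨f, hf1, hf2⟩ := exists_dual_vector'' ℂ ((z l₀ : E) - y)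
    have h1 : ε + (f y).re < (f (z l₀)).re := by
      have h2 : (f ((z l₀ : E) - y)).re = dist (z l₀) y := by
        rw [hf2, Subtype.dist_eq, dist_eq_norm]
        simp
      rw [map_sub, Complex.sub_re] at h2
      linarith
    refine ⟨O' ∩ {l | ε + (f y).re < l (fun x : K => (f x).re)}, inter_subset_left.trans hsub,
      hop.inter (open_gt f _), ⟨l₀, ⟨hl₀.1, ?_⟩, hl₀.2⟩, ?_⟩
    · show ε + (f y).re < l₀ (fun x : K => (f x).re)
      rw [← hz l₀ hl₀.2 f]
      exact h1
    · rintro l ⟨⟨hl1, hl2⟩, hlT⟩ y' hy'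
      rcases hy' with rfl | hy'
      · have h3 : ε + (f y').re < l (fun x : K => (f x).re) := hl2
        rw [← hz l hlT f] at h3
        have h4 : (f ((z l : E) - y')).re ≤ dist (z l) y' := by
          rw [Subtype.dist_eq, dist_eq_norm]
          calc (f ((z l : E) - y')).re ≤ ‖f ((z l : E) - y')‖ := Complex.re_le_norm _
            _ ≤ ‖f‖ * ‖(z l : E) - y'‖ := f.le_opNorm _
            _ ≤ 1 * ‖(z l : E) - y'‖ := by gcongr
            _ = _ := one_mul _
        rw [map_sub, Complex.sub_re] at h4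
        linarith
      · exact hd l ⟨hl1, hlT⟩ y' hy'

private theorem step {K : Set E} (hc : Convex ℝ K) {T : Set ((K → ℝ) → ℝ)}
    {z : ((K → ℝ) → ℝ) → K}
    (hz : ∀ l ∈ T, IsWL K l (z l)) {ε : ℝ} (hε : 0 < ε)
    (hneg : ∀ O : Set ((K → ℝ) → ℝ), IsOpen O → (O ∩ T).Nonempty → ∀ y : K,
      ∃ l ∈ O ∩ T, ε < dist (z l) y) (O : Set ((K → ℝ) → ℝ)) (hO : IsOpen O)
    (hOT : (O ∩ T).Nonempty) (F : Set K) (hF : F.Finite) :
    ∃ O' ⊆ O, IsOpen O' ∧ ∃ l' ∈ O' ∩ T, ∃ (f : StrongDual ℂ E) (u : ℝ),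
      (∀ l ∈ O', u < l (fun x : K => (f x).re)) ∧
      ∀ a ∈ Metric.cthickening (ε / 4) (convexHull ℝ (Subtype.val '' F)), (f a).re < u := by
  have hcomp : IsCompact (convexHull ℝ (Subtype.val '' F)) := (hF.image _).isCompact_convexHull ℝ
  have hsubK : convexHull ℝ (Subtype.val '' F) ⊆ K := by
    refine convexHull_min ?_ hc
    rintro _ ⟨x, -, rfl⟩
    exact x.2
  obtain ⟨t, hts, htf, hcov⟩ := hcomp.finite_cover_balls (by positivity : 0 < ε / 4)
  obtain ⟨O'', hsub, hop, ⟨l', hl'⟩, hd⟩ := shrink hz hneg O hO hOT (Subtype.val ⁻¹' t)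
    (htf.preimage Subtype.val_injective.injOn)
  have hnot : (z l' : E) ∉ Metric.cthickening (ε / 4) (convexHull ℝ (Subtype.val '' F)) := by
    rw [hcomp.cthickening_eq_biUnion_closedBall (by positivity)]
    intro hmem
    obtain ⟨x, hx, hxd⟩ := mem_iUnion₂.1 hmem
    obtain ⟨y, hy, hyd⟩ := mem_iUnion₂.1 (hcov hx)
    have h1 := hd l' hl' ⟨y, hsubK (hts hy)⟩ hy
    rw [Subtype.dist_eq] at h1
    rw [Metric.mem_closedBall] at hxd
    rw [Metric.mem_ball] at hyd
    have h2 : dist (z l' : E) y ≤ dist (z l' : E) x + dist x y := dist_triangle _ _ _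
    have h3 : dist (z l' : E) ((⟨y, hsubK (hts hy)⟩ : K) : E) = dist (z l' : E) y := rfl
    rw [h3] at h1
    linarith
  obtain ⟨f, u, hfu, hup⟩ := RCLike.geometric_hahn_banach_closed_point (𝕜 := ℂ)
    ((convex_convexHull ℝ _).cthickening (ε / 4)) Metric.isClosed_cthickening hnot
  refine ⟨O'' ∩ {l | u < l (fun x : K => (f x).re)}, inter_subset_left.trans hsub,
    hop.inter (open_gt f _), l', ⟨⟨hl'.1, ?_⟩, hl'.2⟩, f, u, fun l hl => hl.2, hfu⟩
  show u < l' (fun x : K => (f x).re)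
  rw [← hz l' hl'.2 f]
  exact hup

theorem frg_K {K : Set E} (hc : Convex ℝ K) (hK : IsCompact (toWeakSpace ℂ E '' K))
    (T : Set ((K → ℝ) → ℝ)) (hne : T.Nonempty) (z : ((K → ℝ) → ℝ) → K)
    (hz : ∀ l ∈ T, IsWL K l (z l)) : Frg T z := by
  intro ε hε
  by_contra hcon
  push Not at hcon
  have hneg : ∀ O : Set ((K → ℝ) → ℝ), IsOpen O → (O ∩ T).Nonempty → ∀ y : K,
      ∃ l ∈ O ∩ T, ε < dist (z l) y := hcon
  let St := {s : Set ((K → ℝ) → ℝ) × Set K // IsOpen s.1 ∧ (s.1 ∩ T).Nonempty ∧ s.2.Finite}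
  have hst := fun s : St => step hc hz hε hneg s.1.1 s.2.1 s.2.2.1 s.1.2 s.2.2.2
  choose O' hsub hop l' hl' f u hfu hhull using hst
  let nx : St → St := fun s => ⟨(O' s, insert (z (l' s)) s.1.2), hop s, ⟨l' s, hl' s⟩,
    s.2.2.2.insert _⟩
  let s0 : St := ⟨(univ, ∅), isOpen_univ, by simpa using hne, finite_empty⟩
  let s : ℕ → St := fun n => nx^[n] s0
  have hs : ∀ n, s (n + 1) = nx (s n) := fun n => Function.iterate_succ_apply' nx n s0
  let q : ℕ → K := fun n => z (l' (s n))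
  have hO : ∀ n, (s (n + 1)).1.1 = O' (s n) := fun n => by rw [hs]
  have hOanti : Antitone fun n => (s n).1.1 := by
    refine antitone_nat_of_succ_le fun n => ?_
    rw [hO]
    exact hsub _
  have hF : ∀ n, q '' {k | k < n} ⊆ (s n).1.2 := by
    intro n
    induction n with
    | zero => simp
    | succ n ih =>
      rintro _ ⟨k, hk, rfl⟩
      rw [hs]
      rcases Nat.lt_succ_iff_lt_or_eq.1 hk with h | rfl
      · exact Or.inr (ih ⟨k, h, rfl⟩)
      · exact Or.inl rfl
  have hbig : ∀ n m, n ≤ m → u (s n) < (f (s n) (q m)).re := by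
    intro n m hnm
    have h1 : l' (s m) ∈ O' (s n) := by
      have h2 : l' (s m) ∈ (s (m + 1)).1.1 := by
        rw [hO]; exact (hl' (s m)).1
      have h3 := hOanti (Nat.succ_le_succ hnm) h2
      have h4 : l' (s m) ∈ (s (n + 1)).1.1 := h3
      rwa [hO] at h4
    have h5 := hfu (s n) _ h1
    rwa [← hz _ (hl' (s m)).2 (f (s n))] at h5
  obtain ⟨p, V, hV, hp⟩ := exists_cluster hK q
  have hge : ∀ n, u (s n) ≤ (f (s n) p).re := by
    intro n
    refine ge_of_tendsto ((Complex.continuous_re.tendsto _).comp (hp (f (s n)))) ?_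
    filter_upwards [hV (eventually_ge_atTop n)] with m hm
    exact (hbig n m hm).le
  obtain ⟨n, y, hy, hpy⟩ := cluster_hull hc q p V hp (by positivity : 0 < ε / 4)
  have h1 : (y : E) ∈ convexHull ℝ (Subtype.val '' (s (n + 1)).1.2) := by
    refine convexHull_mono (image_mono ?_) hy
    refine Subset.trans (image_mono ?_) (hF (n + 1))
    intro k hk
    exact Nat.lt_succ_of_le hk
  have h2 : (p : E) ∈ Metric.cthickening (ε / 4)
      (convexHull ℝ (Subtype.val '' (s (n + 1)).1.2)) :=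
    Metric.mem_cthickening_of_dist_le _ _ _ _ h1 hpy.le
  exact absurd (hhull (s (n + 1)) _ h2) (not_lt.2 (hge (n + 1)))

end BGC
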