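import Pool.Agent.Work.MP_76d3fb_an.LimFun

/-! Minimal weakly compact convex invariant sets and the system of maps on them.

`bdd_of_wc`: for every functional `f` the set `f '' K` is bounded (continuous image of a weakly
compact set); uniform boundedness (`banach_steinhaus`) for the family
`NormedSpace.inclusionInDoubleDual ℂ E x`, `x ∈ K`, on the complete space `StrongDual ℂ E`.

`isClosed_of_wc`: a weakly compact set is weakly closed, hence norm closed (the identity
`toWeakSpace` is continuous: `toWeakSpaceCLM`).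
`wc_of_closed`: a norm closed convex subset of a weakly compact set is weakly closed by
`Convex.toWeakSpace_closure`, hence weakly compact.

`exists_minK`: Zorn (`zorn_superset`) on the sets `K ⊆ K₀` nonempty, norm closed, convex, invariant;
a chain has nonempty intersection by weak compactness (the sets are weakly closed by
`Convex.toWeakSpace_closure`).

`exists_sys`: `A.S` = the maps `x ↦ act s x` on `K` (`s : S`).
`avg n p = (n+1)⁻¹ • ∑ p i`. `dir`: `c ∈ closure (range (a * ·)) ∩ closure (range (b * ·))`: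
`act c x` is in the closure of `{act (a * s) x} = {act a (act s x)}` by continuity of
`s ↦ act s x`.  `const`: let `f` be Lipschitz, convex for averages and `f (a x) ≤ f x`.
For `t : ℝ` the set `C = {x ∈ K | f x ≤ t}` is norm closed, invariant, and convex: for `x, y ∈ C`
and `0 ≤ s ≤ 1` the averages of `⌊s (n+1)⌋` copies of `y` and `n + 1 - ⌊s (n+1)⌋` copies of `x` are in
`C` and converge to `x + s (y - x)`.  So if `C` is nonempty then `C = K`.  Take `t = f x`, then
`t = f y`. -/

namespace BGC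

open Filter Topology Set

variable {E : Type*} [NormedAddCommGroup E] [NormedSpace ℂ E]

private theorem weak_eval_cont (f : StrongDual ℂ E) :
    Continuous fun w : WeakSpace ℂ E => f ((toWeakSpace ℂ E).symm w) :=
  WeakBilin.eval_continuous (topDualPairing ℂ E).flip f

theorem bdd_of_wc {K : Set E} (hK : IsCompact (toWeakSpace ℂ E '' K)) :
    ∃ D : ℝ, ∀ x ∈ K, ∀ y ∈ K, dist x y ≤ D := by
  have h1 : ∀ f : StrongDual ℂ E, ∃ C, ∀ x : K,
      ‖NormedSpace.inclusionInDoubleDual ℂ E (x : E) f‖ ≤ C := by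
    intro f
    have hc := hK.image (weak_eval_cont f)
    obtain ⟨C, hC⟩ := hc.isBounded.exists_norm_le
    refine ⟨C, fun x => ?_⟩
    rw [NormedSpace.dual_def]
    refine hC _ ⟨toWeakSpace ℂ E (x : E), ⟨_, x.2, rfl⟩, ?_⟩
    simp
  obtain ⟨C, hC⟩ := banach_steinhaus h1
  refine ⟨C + C, fun x hx y hy => ?_⟩
  have hn : ∀ x ∈ K, ‖x‖ ≤ C := by
    intro x hx
    have h2 := hC ⟨x, hx⟩
    have h3 : ‖NormedSpace.inclusionInDoubleDual ℂ E x‖ = ‖x‖ :=
      (NormedSpace.inclusionInDoubleDualLi (𝕜 := ℂ) (E := E)).norm_map x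
    rw [← h3]
    exact h2
  rw [dist_eq_norm]
  exact (norm_sub_le _ _).trans (add_le_add (hn x hx) (hn y hy))

private theorem weak_t2 : T2Space (WeakSpace ℂ E) :=
  (NormedSpace.isEmbedding_inclusionInDoubleDualWeak ℂ E).t2Space

theorem isClosed_of_wc {K : Set E} (hK : IsCompact (toWeakSpace ℂ E '' K)) : IsClosed K := by
  have : T2Space (WeakSpace ℂ E) := weak_t2
  have h1 := hK.isClosed.preimage (toWeakSpaceCLM ℂ E).cont
  have h2 : (toWeakSpaceCLM ℂ E).toFun ⁻¹' (toWeakSpace ℂ E '' K) = K := by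
    ext x
    constructor
    · rintro ⟨y, hy, hyx⟩
      have : y = x := (toWeakSpace ℂ E).injective hyx
      rwa [← this]
    · intro hx
      exact ⟨x, hx, rfl⟩
  rwa [h2] at h1

private theorem wclosed_of_closed {K' : Set E} (hcl : IsClosed K') (hc : Convex ℝ K') :
    IsClosed (toWeakSpace ℂ E '' K') := by
  have h := hc.toWeakSpace_closure ℂ
  rw [hcl.closure_eq] at h
  rw [h]
  exact isClosed_closure

theorem wc_of_closed {K K' : Set E} (hK : IsCompact (toWeakSpace ℂ E '' K)) (hsub : K' ⊆ K)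
    (hcl : IsClosed K') (hc : Convex ℝ K') : IsCompact (toWeakSpace ℂ E '' K') :=
  hK.of_isClosed_subset (wclosed_of_closed hcl hc) (image_mono hsub)

/-- Minimal invariant sets. -/
structure MinK (K₀ : Set E) {S : Type*} (act : S → K₀ → K₀) (K : Set E) : Prop where
  sub : K ⊆ K₀
  ne : K.Nonempty
  conv : Convex ℝ K
  wc : IsCompact (toWeakSpace ℂ E '' K)
  inv : ∀ s, ∀ x (hx : x ∈ K₀), x ∈ K → (act s ⟨x, hx⟩ : E) ∈ K
  min : ∀ K' ⊆ K, K'.Nonempty → Convex ℝ K' → IsClosed K' →
    (∀ s, ∀ x (hx : x ∈ K₀), x ∈ K' → (act s ⟨x, hx⟩ : E) ∈ K') → K' = K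

theorem exists_minK {K₀ : Set E} (hne : K₀.Nonempty) (hc : Convex ℝ K₀)
    (hw : IsCompact (toWeakSpace ℂ E '' K₀)) {S : Type*} (act : S → K₀ → K₀) :
    ∃ K, MinK K₀ act K := by
  let F : Set (Set E) := {K | K ⊆ K₀ ∧ K.Nonempty ∧ Convex ℝ K ∧ IsClosed K ∧
    ∀ s, ∀ x (hx : x ∈ K₀), x ∈ K → (act s ⟨x, hx⟩ : E) ∈ K}
  have hK0 : K₀ ∈ F := ⟨Subset.rfl, hne, hc, isClosed_of_wc hw, fun s x hx _ => Subtype.coe_prop _⟩
  have hz : ∃ m, Minimal (· ∈ F) m := by
    refine zorn_superset F fun c hcF hchain => ?_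
    rcases c.eq_empty_or_nonempty with rfl | hcne
    · exact ⟨K₀, hK0, by simp⟩
    · refine ⟨⋂₀ c, ⟨?_, ?_, ?_, ?_, ?_⟩, fun s hs => sInter_subset_of_mem hs⟩
      · obtain ⟨k, hk⟩ := hcne
        exact (sInter_subset_of_mem hk).trans (hcF hk).1
      · have hne' : Nonempty c := hcne.to_subtype
        have h1 : (⋂ i : c, toWeakSpace ℂ E '' (i : Set E)).Nonempty := by
          refine IsCompact.nonempty_iInter_of_directed_nonempty_isCompact_isClosed _ ?_ ?_ ?_ ?_
          · intro i j
            rcases hchain.total i.2 j.2 with h | h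
            · exact ⟨i, Subset.rfl, image_mono h⟩
            · exact ⟨j, image_mono h, Subset.rfl⟩
          · exact fun i => (hcF i.2).2.1.image _
          · exact fun i => wc_of_closed hw (hcF i.2).1 (hcF i.2).2.2.2.1 (hcF i.2).2.2.1
          · exact fun i => wclosed_of_closed (hcF i.2).2.2.2.1 (hcF i.2).2.2.1
        obtain ⟨w, hw'⟩ := h1
        refine ⟨(toWeakSpace ℂ E).symm w, fun s hs => ?_⟩
        obtain ⟨y, hy, hyw⟩ := mem_iInter.1 hw' ⟨s, hs⟩
        rw [← hyw]
        simpa using hy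
      · exact convex_sInter fun s hs => (hcF hs).2.2.1
      · exact isClosed_sInter fun s hs => (hcF hs).2.2.2.1
      · exact fun s x hx hxc k hk => (hcF hk).2.2.2.2 s x hx (hxc k hk)
  obtain ⟨K, hKF, hmin⟩ := hz
  refine ⟨K, hKF.1, hKF.2.1, hKF.2.2.1, wc_of_closed hw hKF.1 hKF.2.2.2.1 hKF.2.2.1,
    hKF.2.2.2.2, fun K' hsub h1 h2 h3 h4 => ?_⟩
  exact Subset.antisymm hsub (hmin ⟨hsub.trans hKF.1, h1, h2, h3, h4⟩ hsub)

private theorem avg_mem {K : Set E} (hc : Convex ℝ K) (n : ℕ) (p : Fin (n + 1) → K) :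
    ((n : ℝ) + 1)⁻¹ • ∑ i, (p i : E) ∈ K := by
  rw [Finset.smul_sum]
  refine hc.sum_mem (fun i _ => by positivity) ?_ (fun i _ => (p i).2)
  rw [Finset.sum_const, Finset.card_univ, Fintype.card_fin, nsmul_eq_mul]
  push_cast
  field_simp

private theorem sum_ite_fin (n k : ℕ) (hk : k ≤ n + 1) (a b : E) :
    ∑ i : Fin (n + 1), (if (i : ℕ) < k then b else a) = ((n : ℝ) + 1) • a + (k : ℝ) • (b - a) := by
  have h1 : ∀ i : ℕ, (if i < k then b else a) = a + (if i < k then b - a else 0) := by
    intro i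
    split_ifs <;> simp
  rw [Fin.sum_univ_eq_sum_range (fun i => if i < k then b else a) (n + 1)]
  simp_rw [h1]
  rw [Finset.sum_add_distrib, ← Finset.sum_filter]
  have h2 : (Finset.range (n + 1)).filter (fun i => i < k) = Finset.range k := by
    ext i
    simp only [Finset.mem_filter, Finset.mem_range]
    omega
  rw [h2, Finset.sum_const, Finset.sum_const, Finset.card_range, Finset.card_range,
    ← Nat.cast_smul_eq_nsmul ℝ, ← Nat.cast_smul_eq_nsmul ℝ]
  push_cast
  rfl

theorem exists_sys {K₀ : Set E} {S : Type*} [Semigroup S] [TopologicalSpace S] [Nonempty S]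
    (hrev : ∀ a b : S, (closure (range (a * ·)) ∩ closure (range (b * ·))).Nonempty)
    (act : S → K₀ → K₀) (hmul : ∀ s t x, act (s * t) x = act s (act t x))
    (hne : ∀ s x y, dist (act s x) (act s y) ≤ dist x y)
    (hcont : ∀ x, Continuous fun s => act s x) {K : Set E} (hK : MinK K₀ act K) :
    ∃ A : Sys K, ∀ (n : ℕ) (p : Fin (n + 1) → K),
      (A.avg n p : E) = ((n : ℝ) + 1)⁻¹ • ∑ i, (p i : E) := by
  obtain ⟨D, hD⟩ := bdd_of_wc hK.wc
  let mp : S → K → K := fun s x => ⟨act s ⟨x, hK.sub x.2⟩, hK.inv s x _ x.2⟩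
  let av : (n : ℕ) → (Fin (n + 1) → K) → K := fun n p => ⟨_, avg_mem hK.conv n p⟩
  have hcl : IsClosed K := isClosed_of_wc hK.wc
  have hdir : ∀ a b c : S, c ∈ closure (range (a * ·)) → range (mp c) ⊆ closure (range (mp a)) := by
    rintro a b c hc _ ⟨x, rfl⟩
    have hmc : Continuous fun s => mp s x :=
      (continuous_subtype_val.comp (hcont ⟨x, hK.sub x.2⟩)).subtype_mk _
    have h1 := image_closure_subset_closure_image hmc (mem_image_of_mem _ hc)
    refine closure_mono ?_ h1
    rintro _ ⟨_, ⟨s, rfl⟩, rfl⟩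
    refine ⟨mp s x, ?_⟩
    apply Subtype.ext
    show (act a ⟨act s ⟨x, _⟩, _⟩ : E) = act (a * s) ⟨x, _⟩
    rw [hmul]
  have hconst : ∀ f : K → ℝ, Lp f → (∀ n p, f (av n p) ≤ (∑ i, f (p i)) / (n + 1)) →
      (∀ a ∈ range mp, ∀ x, f (a x) ≤ f x) → ∀ x y, f y ≤ f x := by
    intro f hf hav hinv x y
    have hC : Subtype.val '' {y : K | f y ≤ f x} = K := by
      refine hK.min _ ?_ ⟨x, x, le_refl (f x), rfl⟩ ?_ ?_ ?_
      · rintro _ ⟨y, -, rfl⟩
        exact y.2
      · rintro _ ⟨a, ha, rfl⟩ _ ⟨b, hb, rfl⟩ α β hα hβ hαβ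
        have hz : α • (a : E) + β • (b : E) ∈ K := hK.conv a.2 b.2 hα hβ hαβ
        refine ⟨⟨_, hz⟩, ?_, rfl⟩
        let k : ℕ → ℕ := fun n => ⌊β * ((n : ℝ) + 1)⌋₊
        have hβ1 : β ≤ 1 := by linarith
        have hk : ∀ n, k n ≤ n + 1 := by
          intro n
          have h1 : (0 : ℝ) ≤ (n : ℝ) + 1 := by positivity
          have h2 : β * ((n : ℝ) + 1) ≤ ((n + 1 : ℕ) : ℝ) := by
            push_cast
            nlinarith
          exact Nat.floor_le_of_le h2
        let p : (n : ℕ) → Fin (n + 1) → K := fun n i => if (i : ℕ) < k n then b else a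
        have hp : ∀ n, f (av n (p n)) ≤ f x := by
          intro n
          refine (hav n (p n)).trans ?_
          rw [div_le_iff₀ (by positivity)]
          have h1 : ∀ i ∈ Finset.univ, f (p n i) ≤ f x := by
            intro i _
            show f (if (i : ℕ) < k n then b else a) ≤ f x
            split_ifs
            · exact hb
            · exact ha
          refine (Finset.sum_le_card_nsmul _ _ _ h1).trans ?_
          rw [Finset.card_univ, Fintype.card_fin, nsmul_eq_mul]
          push_cast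
          linarith
        have hval : ∀ n, (av n (p n) : E) =
            (a : E) + ((k n : ℝ) / ((n : ℝ) + 1)) • ((b : E) - a) := by
          intro n
          show ((n : ℝ) + 1)⁻¹ • ∑ i, (p n i : E) = _
          have h1 : ∀ i : Fin (n + 1), (p n i : E) = if (i : ℕ) < k n then (b : E) else a := by
            intro i
            show ((if (i : ℕ) < k n then b else a : K) : E) = _
            split_ifs <;> rfl
          simp_rw [h1]
          rw [sum_ite_fin n (k n) (hk n), smul_add, smul_smul, smul_smul,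
            inv_mul_cancel₀ (by positivity), one_smul, inv_mul_eq_div]
        have hlim : Tendsto (fun n : ℕ => (k n : ℝ) / ((n : ℝ) + 1)) atTop (𝓝 β) := by
          have h1 := (tendsto_nat_floor_mul_div_atTop (R := ℝ) hβ)
          have h2 : Tendsto (fun n : ℕ => (n : ℝ) + 1) atTop atTop :=
            tendsto_atTop_add_const_right _ _ tendsto_natCast_atTop_atTop
          exact h1.comp h2
        have hlim2 : Tendsto (fun n => av n (p n)) atTop
            (𝓝 (⟨α • (a : E) + β • (b : E), hz⟩ : K)) := by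
          rw [tendsto_subtype_rng]
          simp_rw [hval]
          have h3 : α • (a : E) + β • (b : E) = (a : E) + β • ((b : E) - a) := by
            have : α = 1 - β := by linarith
            rw [this, sub_smul, one_smul, smul_sub]
            abel
          show Tendsto _ _ (𝓝 (α • (a : E) + β • (b : E)))
          rw [h3]
          exact tendsto_const_nhds.add (hlim.smul_const _)
        have h4 := (hf.continuous.tendsto _).comp hlim2
        exact le_of_tendsto' h4 hp
      · have h1 : IsClosed {y : K | f y ≤ f x} := isClosed_le hf.continuous continuous_const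
        exact hcl.isClosedEmbedding_subtypeVal.isClosedMap _ h1
      · rintro s _ hx0 ⟨y, hy, rfl⟩
        exact ⟨mp s y, (hinv (mp s) ⟨s, rfl⟩ y).trans hy, rfl⟩
    have h1 : (y : E) ∈ Subtype.val '' {y : K | f y ≤ f x} := by
      rw [hC]; exact y.2
    obtain ⟨y', hy', hyy⟩ := h1
    have : y' = y := Subtype.ext hyy
    rwa [this] at hy'
  refine ⟨{ S := range mp
            ne := range_nonempty mp
            cmp := ?_
            nonexp := ?_
            D := D
            bdd := fun x y => hD x x.2 y y.2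
            dir := ?_
            avg := av
            avgd := ?_
            avgc := ?_
            const := ?_ }, fun n p => rfl⟩
  · rintro _ ⟨a, rfl⟩ _ ⟨b, rfl⟩
    refine ⟨a * b, ?_⟩
    funext x
    apply Subtype.ext
    show (act (a * b) ⟨x, _⟩ : E) = act a ⟨act b ⟨x, _⟩, _⟩
    rw [hmul]
  · rintro _ ⟨a, rfl⟩ x y
    exact hne a ⟨x, hK.sub x.2⟩ ⟨y, hK.sub y.2⟩
  · rintro _ ⟨a, rfl⟩ _ ⟨b, rfl⟩
    obtain ⟨c, hca, hcb⟩ := hrev a b
    exact ⟨mp c, ⟨c, rfl⟩, hdir a b c hca, hdir b a c hcb⟩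
  · intro n p q
    rw [Subtype.dist_eq, dist_eq_norm]
    show ‖((n : ℝ) + 1)⁻¹ • ∑ i, (p i : E) - ((n : ℝ) + 1)⁻¹ • ∑ i, (q i : E)‖ ≤ _
    rw [← smul_sub, ← Finset.sum_sub_distrib, norm_smul, div_eq_inv_mul, norm_inv,
      Real.norm_of_nonneg (by positivity : (0 : ℝ) ≤ (n : ℝ) + 1)]
    refine mul_le_mul_of_nonneg_left ((norm_sum_le _ _).trans (le_of_eq ?_)) (by positivity)
    exact Finset.sum_congr rfl fun i _ => by rw [Subtype.dist_eq, dist_eq_norm]
  · intro n x
    apply Subtype.ext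
    show ((n : ℝ) + 1)⁻¹ • ∑ i : Fin (n + 1), (x : E) = x
    rw [Finset.sum_const, Finset.card_univ, Fintype.card_fin, ← Nat.cast_smul_eq_nsmul ℝ,
      smul_smul]
    push_cast
    rw [inv_mul_cancel₀ (by positivity), one_smul]
  · intro f hf h1 h2 x y
    exact le_antisymm (hconst f hf h1 h2 y x) (hconst f hf h1 h2 x y)

end BGC
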