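import Pool.Agent.Work.MP_76d3fb_an.LamOp

/-! The final contradiction.

`s0 < r`.  Choose `η > 0`, `c`, `c'` with `s0 < c < c' < r - η` and `l ∈ T` with
`r - η ≤ l (dist · y)` for all `y` (`hr.ex`), and `V` with `Rep V l`.
States: pairs `(w, F)` with `w : X → ℝ`, `F : Set X` finite, `Γ w < c`.
Start: `w = 0`, `F = {x0}` (`Γ 0 ≤ s0 < c`).
Step: `l (u ↦ Γ (jn w u)) ≤ La T Γ w ≤ Γ w < c` (`le_ciSup (la_bdd ..)`), so for `V`-most `u`:
`Γ (jn w u) < c` (`Rep.ev_lt`, `good_lp'`).  The set `cv F` is totally bounded: take a finite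
`δ`-net with `δ = r - η - c'`... for `V`-most `u`, `dist u y > c'` for all `y ∈ cv F`: take a finite
`δ`-net of `cv F` (`δ` small with `c' + δ < r - η`); for every net point `y`,
`dist u y > c' + δ` for most `u` (`Rep.ev_gt`, `l (dist · y) ≥ r - η > c' + δ`).
Choose such `v`; since `Γ (jn w v) < c` there is `q` with `jn w v q < c` (`hI`).
New state `(jn w v, insert q F)`.
The recursion gives sequences `w n, v n, q n, F n` with `w (n+1) = jn (w n) (v n)`,
`w (n+1) (q n) < c` so `dist (q n) (v i) < c` for `i ≤ n`, `F (n+1) = insert (q n) (F n)`, and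
`dist (v n) y > c'` for `y ∈ cv (F n)`.  (With the sequence `q' 0 = x0`, `q' (n+1) = q n`,
`F n = q' '' {k | k ≤ n}`.)
`hcv.cl` for `q'` gives `p` with `dist p (v i) ≤ c` for all `i`, and `n`, `y ∈ cv (F n)` with
`dist p y < c' - c`; then `dist (v n) y ≤ dist (v n) p + dist p y < c'`, a contradiction. -/

namespace BGC

open Filter Topology Set

variable {X : Type*} [MetricSpace X]

theorem fin_seq (A : Sys X) [Nonempty X] (T : Set ((X → ℝ) → ℝ)) (hT : Mn A T) (r : ℝ)
    (hr : Rad T r) (cv : Set X → Set X) (hcv : Wsq cv)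
    (G0 : (X → ℝ) → ℝ) (B s0 : ℝ) (hB : A.D ≤ B) (hs : s0 < r) (Γ : (X → ℝ) → ℝ)
    (hΓ : Good A G0 B s0 Γ) (hLa : ∀ w, La T Γ w ≤ Γ w)
    (hI : ∀ (w : X → ℝ) (c : ℝ), Γ w < c → ∃ q, w q < c) : False := by
  obtain ⟨d, hd⟩ : ∃ d, d = (r - s0) / 4 := ⟨_, rfl⟩
  have hd0 : 0 < d := by rw [hd]; linarith
  have hrd : r = s0 + 4 * d := by rw [hd]; ring
  obtain ⟨c, hc⟩ : ∃ c, c = s0 + d := ⟨_, rfl⟩
  obtain ⟨c', hc'⟩ : ∃ c', c' = s0 + 2 * d := ⟨_, rfl⟩
  obtain ⟨l, hl, hly⟩ := hr.ex d hd0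
  obtain ⟨V, hV⟩ := rep_exists (hT.sub hl)
  have step : ∀ s : (X → ℝ) × Set X, Γ s.1 < c → s.2.Finite →
      ∃ p : X × X, Γ (jn s.1 p.1) < c ∧ jn s.1 p.1 p.2 < c ∧ ∀ y ∈ cv s.2, c' < dist p.1 y := by
    intro s hs1 hs2
    have hlp := good_lp' A G0 B s0 Γ hΓ s.1
    have h1 : l (fun u => Γ (jn s.1 u)) < c :=
      ((le_ciSup (la_bdd A T hT G0 B s0 hB Γ hΓ s.1) ⟨l, hl⟩).trans (hLa s.1)).trans_lt hs1
    have h2 : ∀ᶠ u in (V : Filter X), Γ (jn s.1 u) < c := hV.ev_lt hlp h1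
    obtain ⟨t, ht, hcov⟩ := Metric.totallyBounded_iff.1 (hcv.tb s.2 hs2) (d / 2) (by linarith)
    have h3 : ∀ᶠ u in (V : Filter X), ∀ y ∈ t, c' + d / 2 < dist u y := by
      rw [Filter.eventually_all_finite ht]
      intro y _
      refine hV.ev_gt (Lp.dist_left y) ?_
      have := hly y
      rw [hc']
      linarith
    obtain ⟨u, hu1, hu2⟩ := (h2.and h3).exists
    obtain ⟨q, hq⟩ := hI _ _ hu1
    refine ⟨(u, q), hu1, hq, fun y hy => ?_⟩
    obtain ⟨y', hy', hyb⟩ := Set.mem_iUnion₂.1 (hcov hy)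
    have h4 := hu2 y' hy'
    have h5 := Metric.mem_ball.1 hyb
    have h6 := dist_triangle u y y'
    simp only
    linarith
  choose! P hP1 hP2 hP3 using step
  obtain ⟨x0⟩ := (inferInstance : Nonempty X)
  obtain ⟨S, hS⟩ : ∃ S : ℕ → (X → ℝ) × Set X, S = fun n => Nat.rec ((fun _ => 0), {x0})
    (fun _ s => (jn s.1 (P s).1, insert (P s).2 s.2)) n := ⟨_, rfl⟩
  have hS0 : S 0 = ((fun _ => 0), {x0}) := by rw [hS]; rfl
  have hSs : ∀ n, S (n + 1) = (jn (S n).1 (P (S n)).1, insert (P (S n)).2 (S n).2) := by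
    intro n; rw [hS]
  have hinv : ∀ n, Γ (S n).1 < c ∧ (S n).2.Finite := by
    intro n
    induction n with
    | zero =>
      rw [hS0]
      refine ⟨?_, Set.finite_singleton _⟩
      have := hΓ.O
      rw [hc]
      simp only
      linarith
    | succ n ih =>
      rw [hSs]
      exact ⟨hP1 _ ih.1 ih.2, ih.2.insert _⟩
  obtain ⟨q', hq'⟩ : ∃ q' : ℕ → X, q' = fun n => Nat.casesOn n x0 (fun m => (P (S m)).2) :=
    ⟨_, rfl⟩
  have hq0 : q' 0 = x0 := by rw [hq']; rfl
  have hqs : ∀ n, q' (n + 1) = (P (S n)).2 := by intro n; rw [hq']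
  have hF : ∀ n, (S n).2 = q' '' {k | k ≤ n} := by
    intro n
    induction n with
    | zero =>
      rw [hS0]
      ext x
      simp only [Set.mem_singleton_iff, Set.mem_image, Set.mem_ofPred_eq, Nat.le_zero]
      constructor
      · rintro rfl; exact ⟨0, rfl, hq0⟩
      · rintro ⟨k, rfl, rfl⟩; exact hq0
    | succ n ih =>
      rw [hSs]
      simp only
      rw [ih]
      ext x
      simp only [Set.mem_insert_iff, Set.mem_image, Set.mem_ofPred_eq]
      constructor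
      · rintro (rfl | ⟨k, hk, rfl⟩)
        · exact ⟨n + 1, le_rfl, hqs n⟩
        · exact ⟨k, by omega, rfl⟩
      · rintro ⟨k, hk, rfl⟩
        rcases Nat.lt_or_ge k (n + 1) with h | h
        · exact Or.inr ⟨k, by omega, rfl⟩
        · have : k = n + 1 := by omega
          rw [this]
          exact Or.inl (hqs n)
  have hmono : ∀ n i, i < n → ∀ x, dist x (P (S i)).1 ≤ (S n).1 x := by
    intro n
    induction n with
    | zero => intro i hi; omega
    | succ n ih =>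
      intro i hi x
      rw [hSs]
      simp only [jn]
      rcases Nat.lt_or_ge i n with h | h
      · exact (ih i h x).trans (le_max_left _ _)
      · have : i = n := by omega
        rw [this]
        exact le_max_right _ _
  obtain ⟨p, hp1, hp2⟩ := hcv.cl q'
  have hpv : ∀ i, dist p (P (S i)).1 ≤ c := by
    intro i
    apply hp1
    filter_upwards [Filter.eventually_ge_atTop (i + 1)] with n hn
    obtain ⟨m, rfl⟩ : ∃ m, n = m + 1 := ⟨n - 1, by omega⟩
    have h1 := hmono (m + 1) i (by omega) (q' (m + 1))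
    have h2 := hP2 (S m) (hinv m).1 (hinv m).2
    rw [hSs, hqs] at h1
    rw [hqs]
    exact h1.trans h2.le
  obtain ⟨n, y, hy, hpy⟩ := hp2 (c' - c) (by rw [hc, hc']; linarith)
  rw [← hF n] at hy
  have h1 := hP3 (S n) (hinv n).1 (hinv n).2 y hy
  have h2 := hpv n
  have h3 := dist_triangle (P (S n)).1 p y
  rw [dist_comm (P (S n)).1 p] at h3
  linarith

end BGC
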