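import Pool.Agent.Work.MP_76d3fb_an.LamOp

/-! The largest good functional.

`Γ w := sSup {F w | F good}`. The set is nonempty (`G0` is good by `hG`) and bounded above by (U).
`Γ` is good: (M), (L), (C), (U), (G), (O) pass to suprema (`csSup_le`, `le_csSup`);
(Q): given `QD A G0 ε n b y` and `w` `Cv`; for every good `F` there is `i` with
`F (jn w ybar) ≤ R_i(F) ≤ R_i(Γ)` (all terms of the right side are monotone in the functional),
so `F (jn w ybar) ≤ max_i R_i(Γ)`; choose `i0` maximising `R_i(Γ)` (`Finite.exists_max`).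

`κ u := Γ (jn 0 u)` is constant by `A.const`: Lipschitz (`good_lp'`), convex for averages by (C)
(`A.avgd`), `κ (a u) ≤ κ u` by (M) (`jn 0 (a u) (a q) = dist (a q) (a u) ≤ dist q u`).
`κ ≤ s0`: for every `ε > 0` take the data of `hQ` and apply (Q) for `Γ` at `w = 0` (`Cv.zero`):
`κ = Γ (jn 0 ybar) ≤ (Γ (0 ∘ b i) + ε + n κ) / (n+1)` so `κ ≤ Γ 0 + ε ≤ s0 + ε`
(`Finset.card_erase_of_mem`, sum of constants).  Hence `La T Γ 0 ≤ s0` (`ciSup_le`,
`lf_le_const`), so `max Γ (La Γ)` is good (`la_good`) and `La Γ w ≤ Γ w` by definition of `Γ`. -/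

namespace BGC

open Filter Topology Set

variable {X : Type*} [MetricSpace X]

theorem exists_gam (A : Sys X) [Nonempty X] (T : Set ((X → ℝ) → ℝ)) (hT : Mn A T)
    (G0 : (X → ℝ) → ℝ) (B s0 : ℝ) (hB : A.D ≤ B) (hG : Good A G0 B s0 G0)
    (hQ : ∀ ε > 0, ∃ (n : ℕ) (b : Fin (n + 1) → X → X) (y : Fin (n + 1) → X),
      (∀ i, b i ∈ A.S1) ∧ QD A G0 ε n b y) :
    ∃ Γ : (X → ℝ) → ℝ, Good A G0 B s0 Γ ∧ ∀ w, La T Γ w ≤ Γ w := by
  obtain ⟨Γ, hΓ⟩ : ∃ Γ : (X → ℝ) → ℝ, Γ = fun w =>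
    ⨆ F : {F : (X → ℝ) → ℝ // Good A G0 B s0 F}, F.1 w := ⟨_, rfl⟩
  have hne : Nonempty {F : (X → ℝ) → ℝ // Good A G0 B s0 F} := ⟨⟨G0, hG⟩⟩
  have hbdd : ∀ w, BddAbove (range fun F : {F : (X → ℝ) → ℝ // Good A G0 B s0 F} => F.1 w) := by
    intro w
    refine ⟨max B (w (Classical.arbitrary X)), ?_⟩
    rintro _ ⟨F, rfl⟩
    exact F.2.U w _
  have hle : ∀ F, Good A G0 B s0 F → ∀ w, F w ≤ Γ w := by
    intro F hF w
    rw [hΓ]
    exact le_ciSup (hbdd w) ⟨F, hF⟩
  have hsup : ∀ w c, (∀ F, Good A G0 B s0 F → F w ≤ c) → Γ w ≤ c := by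
    intro w c h
    rw [hΓ]
    exact ciSup_le fun F => h F.1 F.2
  have hgood : Good A G0 B s0 Γ := by
    refine ⟨?_, ?_, ?_, ?_, fun w => hle G0 hG w, ?_, hsup _ _ fun F hF => hF.O⟩
    · intro a ha w w' hw
      exact hsup _ _ fun F hF => (hF.M a ha w w' hw).trans (hle F hF w)
    · intro w δ hδ
      refine hsup _ _ fun F hF => (hF.L w δ hδ).trans ?_
      have := hle F hF w
      linarith
    · intro n w ws hws
      refine hsup _ _ fun F hF => (hF.C n w ws hws).trans ?_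
      gcongr with i
      exact hle F hF _
    · intro w x
      exact hsup _ _ fun F hF => hF.U w x
    · intro ε n b y hε hb hQ0
      intro w hw
      obtain ⟨R, hR⟩ : ∃ R : Fin (n + 1) → ℝ, R = fun i => (Γ (w ∘ b i) + ε +
        ∑ j ∈ Finset.univ.erase i, Γ (jn w (y j))) / (n + 1) := ⟨_, rfl⟩
      obtain ⟨i0, hi0⟩ := Finite.exists_max R
      refine ⟨i0, ?_⟩
      have hR0 : R i0 = (Γ (w ∘ b i0) + ε +
        ∑ j ∈ Finset.univ.erase i0, Γ (jn w (y j))) / (n + 1) := by rw [hR]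
      rw [← hR0]
      refine hsup _ _ fun F hF => ?_
      obtain ⟨i, hi⟩ := hF.Q ε n b y hε hb hQ0 w hw
      refine le_trans (hi.trans ?_) (hi0 i)
      rw [hR]
      simp only
      gcongr
      · exact hle F hF _
      · exact hle F hF _
  -- the function kappa is constant
  have hlpk : Lp (fun u => Γ (jn (fun _ => 0) u)) := good_lp' A G0 B s0 Γ hgood _
  have hkap := A.const (fun u => Γ (jn (fun _ => 0) u)) hlpk (by
    intro n p
    refine hgood.C n (jn (fun _ => 0) (A.avg n p)) (fun i => jn (fun _ => 0) (p i)) fun q => ?_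
    simp only [jn_zero]
    exact A.avgd n q p) (by
    intro a ha x
    refine hgood.M a (Set.mem_insert_of_mem _ ha) _ _ fun q => ?_
    simp only [jn_zero]
    exact A.nonexp a ha q x)
  obtain ⟨κ, hκ⟩ : ∃ κ, κ = Γ (jn (fun _ => 0) (Classical.arbitrary X)) := ⟨_, rfl⟩
  have hk : ∀ u, Γ (jn (fun _ => 0) u) = κ := by
    intro u
    rw [hκ]
    exact hkap u _
  have hks : κ ≤ s0 := by
    refine le_of_forall_pos_le_add fun ε hε => ?_
    obtain ⟨n, b, y, hb, hq⟩ := hQ ε hε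
    obtain ⟨i, hi⟩ := hgood.Q ε n b y hε.le hb hq (fun _ => 0) (Cv.zero A)
    have h1 : ((fun _ => (0 : ℝ)) ∘ b i) = fun _ => 0 := rfl
    rw [h1, hk] at hi
    simp only [hk] at hi
    rw [Finset.sum_const, Finset.card_erase_of_mem (Finset.mem_univ i), Finset.card_univ,
      Fintype.card_fin, Nat.add_sub_cancel, nsmul_eq_mul] at hi
    have hn : (0 : ℝ) < n + 1 := by positivity
    rw [le_div_iff₀ hn] at hi
    have h2 := hgood.O
    nlinarith
  have hLa0 : La T Γ (fun _ => 0) ≤ s0 := by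
    have : Nonempty T := hT.ne.to_subtype
    refine ciSup_le fun l => ?_
    refine lf_le_const (hT.sub l.2) hlpk fun u => ?_
    rw [hk]
    exact hks
  have hmax := la_good A T hT G0 B s0 hB Γ hgood hLa0
  exact ⟨Γ, hgood, fun w => (le_max_right _ _).trans (hle _ hmax w)⟩

end BGC
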