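import Pool.Agent.Work.MP_76d3fb_an.LimFun

/-! The asymptotic radius of a minimal set.

`rho y := ⨆ l : T, l (dist · y)`, bounded above by `A.D` (`lf_le_const`).
It is `1`-Lipschitz, convex for `A.avg` (`A.dist_avg`, `lf_sum`, `lf_div_const`), and
`rho (a y) ≤ rho y` for `a ∈ A.S`: for `l ∈ T` write `l = st a l'` with `l' ∈ T`; then
`l (dist · (a y)) = l' (fun v => dist (a v) (a y)) ≤ l' (dist · y)`.  So `rho` is constant `= r`
by `A.const`.  `r > 0`: for `x ≠ y`, `l ∈ T`: `dist x y ≤ l (dist · x) + l (dist · y) ≤ 2 r`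
(`lf_ge_const`, `lf_add`).
`ex`: let `η > 0` and suppose for all `l ∈ T` there is `y` with `l (dist · y) < r - η`. The sets
`{l | l (dist · y) < r - η}` are open (evaluation is continuous) and cover the compact `T`
(`SX_compact A.bdd`, `hT.sub`, `hT.cl`); finite subcover `y 0, ..., y n` (nonempty since `T` is);
`ybar = A.avg n y`: for `l ∈ T`, `l (dist · ybar) ≤ (∑ j, l (dist · (y j))) / (n+1)
≤ (n r + (r - η)) / (n+1) = r - η/(n+1)`, so `rho ybar ≤ r - η/(n+1) < r`, contradiction. -/

namespace BGC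

open Filter Topology Set

variable {X : Type*} [MetricSpace X]

private noncomputable def rhoR (T : Set ((X → ℝ) → ℝ)) (y : X) : ℝ :=
  ⨆ l : T, l.1 (fun v => dist v y)

private theorem rhoR_bdd (A : Sys X) {T : Set ((X → ℝ) → ℝ)} (hT : T ⊆ SX X) (y : X) :
    BddAbove (range fun l : T => l.1 (fun v => dist v y)) := by
  refine ⟨A.D, ?_⟩
  rintro _ ⟨l, rfl⟩
  exact lf_le_const (hT l.2) (Lp.dist_left y) fun x => A.bdd x y

private theorem rhoR_le (A : Sys X) {T : Set ((X → ℝ) → ℝ)} (hT : T ⊆ SX X)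
    {l : (X → ℝ) → ℝ} (hl : l ∈ T) (y : X) : l (fun v => dist v y) ≤ rhoR T y :=
  le_ciSup (rhoR_bdd A hT y) (⟨l, hl⟩ : T)

private theorem rhoR_avg (A : Sys X) {T : Set ((X → ℝ) → ℝ)} (hT : T ⊆ SX X)
    {l : (X → ℝ) → ℝ} (hl : l ∈ T) (n : ℕ) (p : Fin (n + 1) → X) :
    l (fun v => dist v (A.avg n p)) ≤ (∑ i, l (fun v => dist v (p i))) / (n + 1) := by
  have h1 : ∀ i ∈ (Finset.univ : Finset (Fin (n + 1))), Lp (fun v => dist v (p i)) :=
    fun i _ => Lp.dist_left (p i)
  have h2 : l (fun v => dist v (A.avg n p)) ≤ l (fun v => (∑ i, dist v (p i)) / (n + 1)) := by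
    refine lf_mono (hT hl) (Lp.dist_left _) ((Lp.sum _ h1).div_const _) fun v => ?_
    rw [dist_comm]
    refine (A.dist_avg n p v).trans (le_of_eq ?_)
    congr 1
    exact Finset.sum_congr rfl fun i _ => dist_comm _ _
  rwa [lf_div_const (hT hl) (Lp.sum _ h1), lf_sum (hT hl) _ h1] at h2

theorem radius (A : Sys X) (T : Set ((X → ℝ) → ℝ)) (hT : Mn A T) (hX : ∃ x y : X, x ≠ y) :
    ∃ r, Rad T r := by
  obtain ⟨x0, y0, hxy⟩ := hX
  have hTne : Nonempty T := hT.ne.to_subtype
  have hlp : Lp (rhoR T) := by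
    refine lp_of (C := 1) fun x y => ciSup_le fun l => ?_
    have hl := hT.sub l.2
    have h1 : l.1 (fun v => dist v x) ≤ l.1 (fun v => dist v y + dist x y) := by
      refine lf_mono hl (Lp.dist_left x) ((Lp.dist_left y).add (Lp.const _)) fun v => ?_
      rw [dist_comm x y]
      exact dist_triangle v y x
    rw [lf_add hl (Lp.dist_left y) (Lp.const _), lf_const hl] at h1
    linarith [rhoR_le A hT.sub l.2 y]
  have hcv : ∀ n (p : Fin (n + 1) → X), rhoR T (A.avg n p) ≤ (∑ i, rhoR T (p i)) / (n + 1) := by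
    intro n p
    refine ciSup_le fun l => (rhoR_avg A hT.sub l.2 n p).trans ?_
    gcongr with i
    exact rhoR_le A hT.sub l.2 (p i)
  have hinv : ∀ a ∈ A.S, ∀ x, rhoR T (a x) ≤ rhoR T x := by
    intro a ha x
    refine ciSup_le fun l => ?_
    obtain ⟨l', hl', h⟩ := hT.lft a ha l.1 l.2
    rw [← h, st_apply (Lp.dist_left _)]
    refine le_trans ?_ (rhoR_le A hT.sub hl' x)
    refine lf_mono (hT.sub hl') ((Lp.dist_left (a x)).comp_ne (A.nonexp a ha))
      (Lp.dist_left x) fun v => A.nonexp a ha v x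
  have hconst : ∀ y, rhoR T y = rhoR T x0 := fun y => A.const _ hlp hcv hinv y x0
  refine ⟨rhoR T x0, ?_, ?_, ?_⟩
  · obtain ⟨l, hl⟩ := hT.ne
    have hl' := hT.sub hl
    have h1 : dist x0 y0 ≤ l (fun v => dist v x0 + dist v y0) := by
      refine lf_ge_const hl' ((Lp.dist_left x0).add (Lp.dist_left y0)) fun v => ?_
      rw [dist_comm v x0]
      exact dist_triangle x0 v y0
    rw [lf_add hl' (Lp.dist_left x0) (Lp.dist_left y0)] at h1
    have h2 := rhoR_le A hT.sub hl x0
    have h3 := rhoR_le A hT.sub hl y0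
    rw [hconst y0] at h3
    have h4 : 0 < dist x0 y0 := dist_pos.2 hxy
    linarith
  · intro l hl y
    rw [← hconst y]
    exact rhoR_le A hT.sub hl y
  · intro η hη
    by_contra hcon
    push Not at hcon
    set r := rhoR T x0 with hr
    have hcomp : IsCompact T := (SX_compact A.bdd).of_isClosed_subset hT.cl hT.sub
    have hev : ∀ y : X, Continuous (fun l : (X → ℝ) → ℝ => l (fun v => dist v y)) :=
      fun y => continuous_apply _
    obtain ⟨t, ht⟩ := hcomp.elim_finite_subcover
      (fun y : X => {l : (X → ℝ) → ℝ | l (fun v => dist v y) < r - η})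
      (fun y => isOpen_lt (hev y) continuous_const) (by
        intro l hl
        obtain ⟨y, hy⟩ := hcon l hl
        exact mem_iUnion.2 ⟨y, hy⟩)
    have htne : t.Nonempty := by
      obtain ⟨l, hl⟩ := hT.ne
      obtain ⟨y, hy⟩ := mem_iUnion.1 (ht hl)
      obtain ⟨hy', -⟩ := mem_iUnion.1 hy
      exact ⟨y, hy'⟩
    obtain ⟨k, hk⟩ : ∃ k, t.card = k + 1 :=
      ⟨t.card - 1, (Nat.sub_add_cancel (Finset.card_pos.2 htne)).symm⟩
    let e := (t.equivFinOfCardEq hk).symm
    let p : Fin (k + 1) → X := fun i => (e i).1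
    have hk0 : (0 : ℝ) < k + 1 := by positivity
    have hle : ∀ l ∈ T, l (fun v => dist v (A.avg k p)) ≤ r - η / (k + 1) := by
      intro l hl
      refine (rhoR_avg A hT.sub hl k p).trans ?_
      obtain ⟨y, hy⟩ := mem_iUnion.1 (ht hl)
      obtain ⟨hyt, hy⟩ := mem_iUnion.1 hy
      have hi : p (t.equivFinOfCardEq hk ⟨y, hyt⟩) = y := by simp [p, e]
      have hsum : ∑ i, l (fun v => dist v (p i)) ≤ ((k : ℝ) + 1) * r - η := by
        have h1 : ∑ i, (r - l (fun v => dist v (p i))) ≥
            r - l (fun v => dist v (p (t.equivFinOfCardEq hk ⟨y, hyt⟩))) := by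
          refine Finset.single_le_sum (f := fun i => r - l (fun v => dist v (p i)))
            (fun i _ => ?_) (Finset.mem_univ _)
          have := rhoR_le A hT.sub hl (p i)
          rw [hconst (p i)] at this
          exact sub_nonneg.2 this
        rw [Finset.sum_sub_distrib, hi] at h1
        simp only [Finset.sum_const, Finset.card_univ, Fintype.card_fin, nsmul_eq_mul,
          Nat.cast_add, Nat.cast_one] at h1
        have hy' : l (fun v => dist v y) < r - η := hy
        linarith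
      rw [div_le_iff₀ hk0]
      have : (r - η / (k + 1)) * (k + 1) = (k + 1) * r - η := by field_simp
      linarith
    have h1 : rhoR T (A.avg k p) ≤ r - η / (k + 1) := ciSup_le fun l => hle l.1 l.2
    rw [hconst] at h1
    have : 0 < η / (k + 1) := by positivity
    linarith

end BGC
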