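import Pool.Agent.Work.MP_76d3fb_an.GZero
import Pool.Agent.Work.MP_76d3fb_an.Gam
import Pool.Agent.Work.MP_76d3fb_an.FinSeq
import Pool.Agent.Work.MP_76d3fb_an.Radius

/-! The abstract core. -/

namespace BGC

open Filter Topology Set

variable {X : Type*} [MetricSpace X]

theorem core (A : Sys X) [Nonempty X] (hX : ∃ x y : X, x ≠ y) (cv : Set X → Set X)
    (hcv : Wsq cv)
    (H : ∀ T, Mn A T → ∀ r, Rad T r → ∃ (z : ((X → ℝ) → ℝ) → X) (B s0 : ℝ)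
      (h : ((X → ℝ) → ℝ) → (X → ℝ) → ℝ), A.D ≤ B ∧ s0 < r ∧ HFun A T z B s0 h ∧ Frg T z) :
    False := by
  obtain ⟨T, hT⟩ := exists_mn A
  obtain ⟨r, hr⟩ := radius A T hT hX
  obtain ⟨z, B, s0, h, hB, hs, hh, hz⟩ := H T hT r hr
  have hG := g0_good A T hT z B s0 h hh
  obtain ⟨Γ, hΓ, hLa⟩ := exists_gam A T hT (g0 T h) B s0 hB hG
    (fun ε hε => g0_QD A T hT z B s0 h hh hz ε hε)
  exact fin_seq A T hT r hr cv hcv (g0 T h) B s0 hB hs Γ hΓ hLa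
    (fun w c hw => g0_inf A T hT z B s0 h hh w c ((hΓ.G w).trans_lt hw))

end BGC
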