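import Pool.Agent.Work.MP_76d3fb_an.Defs

/-! Finite rank projections almost reducing a compact family of compact operators.

Single operator `k`: the image under `k` and under `k†` of the unit ball are totally bounded; let
`W₀` be the span of finite `ε/4`-nets of both.  For every finite dimensional `W ⊇ W₀` with orthogonal
projection `P` (`Submodule.starProjection`): `‖k - P k‖ ≤ ε/4` (distance of `k ξ` to `W`) and
`‖k† - P k†‖ ≤ ε/4`, i.e. `‖k - k P‖ ≤ ε/4`; so `‖k - P k P‖ ≤ ‖k - P k‖ + ‖P (k - k P)‖ ≤ ε/2`.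
(The adjoint of a compact operator is compact: `IsCompactOperator.adjoint` if available; otherwise
avoid the adjoint as follows: `k*` maps ... or use the range of `k† k`.)  Family: finite `ε/4`-net
of `C`, sum of the subspaces `W₀`; `‖P (k - k') P‖ ≤ ‖k - k'‖`. -/

namespace BGC

open Filter Topology Set

private theorem cp_range {H : Type*} [NormedAddCommGroup H] [InnerProductSpace ℂ H]
    (T : H →L[ℂ] H) (hT : IsCompactOperator T) {δ : ℝ} (hδ : 0 < δ) :
    ∃ W : Submodule ℂ H, FiniteDimensional ℂ W ∧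
      ∀ (U : Submodule ℂ H) [U.HasOrthogonalProjection], W ≤ U →
        ‖T - U.starProjection * T‖ ≤ δ := by
  have hT' : IsCompactOperator (T : H →ₗ[ℂ] H) := hT
  have hc := hT'.isCompact_closure_image_closedBall 1
  obtain ⟨t, -, htf, hcov⟩ := Metric.finite_approx_of_totallyBounded
    (hc.totallyBounded.subset subset_closure) δ hδ
  refine ⟨Submodule.span ℂ t, FiniteDimensional.span_of_finite ℂ htf, fun U _ hU => ?_⟩
  refine ContinuousLinearMap.opNorm_le_of_unit_norm hδ.le fun x hx => ?_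
  have hmem : T x ∈ (T : H →ₗ[ℂ] H) '' Metric.closedBall 0 1 :=
    ⟨x, by simp [hx], rfl⟩
  obtain ⟨y, hy, hxy⟩ := mem_iUnion₂.1 (hcov hmem)
  have hyU : y ∈ U := hU (Submodule.subset_span hy)
  change ‖T x - U.starProjection (T x)‖ ≤ δ
  rw [Submodule.starProjection_minimal]
  refine (ciInf_le ⟨0, ?_⟩ (⟨y, hyU⟩ : U)).trans ?_
  · rintro _ ⟨z, rfl⟩
    exact norm_nonneg _
  · rw [Metric.mem_ball, dist_eq_norm] at hxy
    exact hxy.le

private theorem cp_two {H : Type*} [NormedAddCommGroup H] [InnerProductSpace ℂ H]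
    [CompleteSpace H] (k : H →L[ℂ] H) (hk : IsCompactOperator k) {δ : ℝ} (hδ : 0 < δ) :
    ∃ W : Submodule ℂ H, FiniteDimensional ℂ W ∧
      ∀ (U : Submodule ℂ H) [U.HasOrthogonalProjection], W ≤ U →
        ‖k - U.starProjection * k‖ ≤ δ ∧ ‖k - k * U.starProjection‖ ≤ δ := by
  obtain ⟨W1, hW1, h1⟩ := cp_range k hk hδ
  have hT : IsCompactOperator (ContinuousLinearMap.adjoint k * k) := by
    have h := hk.clm_comp (ContinuousLinearMap.adjoint k)
    exact h
  obtain ⟨W2, hW2, h2⟩ := cp_range (ContinuousLinearMap.adjoint k * k) hT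
    (show 0 < δ ^ 2 by positivity)
  refine ⟨W1 ⊔ W2, inferInstance, fun U _ hU => ⟨h1 U (le_sup_left.trans hU), ?_⟩⟩
  have h3 := h2 U (le_sup_right.trans hU)
  refine ContinuousLinearMap.opNorm_le_bound _ hδ.le fun x => ?_
  set P := U.starProjection with hP
  set u := x - P x with hu
  have hPP : ∀ y, P (P y) = P y := by
    intro y
    exact Submodule.starProjection_eq_self_iff.2 (Submodule.starProjection_apply_mem U y)
  have hPu : P u = 0 := by rw [hu, map_sub, hPP, sub_self]
  have hnu : ‖u‖ ≤ ‖x‖ := by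
    have h0 : inner ℂ (P x) u = 0 := by
      have := Submodule.starProjection_inner_eq_zero (K := U) x (P x)
        (Submodule.starProjection_apply_mem U x)
      rw [← inner_conj_symm, this, map_zero]
    have h4 := norm_add_sq (𝕜 := ℂ) (P x) u
    rw [h0] at h4
    simp only [map_zero, mul_zero, add_zero] at h4
    have h5 : P x + u = x := by rw [hu]; abel
    rw [h5] at h4
    exact le_of_sq_le_sq (by nlinarith [sq_nonneg ‖P x‖]) (norm_nonneg _)
  have h6 : (k - k * P) x = k u := by
    rw [hu, map_sub]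
    rfl
  rw [h6]
  refine le_of_sq_le_sq ?_ (mul_nonneg hδ.le (norm_nonneg _))
  have hsymm : ∀ a b : H, inner ℂ (P a) b = inner ℂ a (P b) := fun a b =>
    Submodule.inner_starProjection_left_eq_right U a b
  have h7 : inner ℂ u ((ContinuousLinearMap.adjoint k * k - P * (ContinuousLinearMap.adjoint k * k)) u) =
      inner ℂ (k u) (k u) := by
    change inner ℂ u (ContinuousLinearMap.adjoint k (k u) - P (ContinuousLinearMap.adjoint k (k u)))
      = _
    rw [inner_sub_right, ← hsymm, hPu, inner_zero_left, sub_zero,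
      ContinuousLinearMap.adjoint_inner_right]
  have h8 : ‖k u‖ ^ 2 ≤ δ ^ 2 * ‖u‖ ^ 2 := by
    have h9 : ‖inner ℂ (k u) (k u)‖ = ‖k u‖ ^ 2 := by
      rw [inner_self_eq_norm_sq_to_K]
      simp
    rw [← h9, ← h7]
    refine (norm_inner_le_norm _ _).trans ?_
    have h10 := ((ContinuousLinearMap.adjoint k * k -
      P * (ContinuousLinearMap.adjoint k * k)).le_opNorm u).trans
      (mul_le_mul_of_nonneg_right h3 (norm_nonneg u))
    have := mul_le_mul_of_nonneg_left h10 (norm_nonneg u)
    refine this.trans (le_of_eq (by ring))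
  rw [mul_pow]
  exact h8.trans (mul_le_mul_of_nonneg_left (pow_le_pow_left₀ (norm_nonneg _) hnu 2) (sq_nonneg _))

theorem exists_proj {H : Type*} [NormedAddCommGroup H] [InnerProductSpace ℂ H] [CompleteSpace H]
    (C : Set (H →L[ℂ] H)) (hC : TotallyBounded C) (hk : ∀ k ∈ C, IsCompactOperator k)
    {ε : ℝ} (hε : 0 < ε) :
    ∃ P : H →L[ℂ] H, IsStarProjection P ∧ FiniteDimensional ℂ (LinearMap.range P.toLinearMap) ∧
      ∀ k ∈ C, ‖k - P * k * P‖ ≤ ε := by
  classical
  obtain ⟨t, hts, htf, hcov⟩ := Metric.finite_approx_of_totallyBounded hC (ε / 4) (by positivity)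
  have hW : ∀ k : H →L[ℂ] H, ∃ W : Submodule ℂ H, FiniteDimensional ℂ W ∧ (k ∈ C →
      ∀ (U : Submodule ℂ H) [U.HasOrthogonalProjection], W ≤ U →
        ‖k - U.starProjection * k‖ ≤ ε / 4 ∧ ‖k - k * U.starProjection‖ ≤ ε / 4) := by
    intro k
    by_cases h : k ∈ C
    · obtain ⟨W, h1, h2⟩ := cp_two k (hk k h) (show 0 < ε / 4 by positivity)
      exact ⟨W, h1, fun _ => h2⟩
    · exact ⟨⊥, inferInstance, fun h' => (h h').elim⟩
  choose W hWf hW using hW
  set U : Submodule ℂ H := htf.toFinset.sup W with hU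
  have hUf : FiniteDimensional ℂ U := Submodule.finiteDimensional_finset_sup _ _
  refine ⟨U.starProjection, isStarProjection_starProjection, ?_, ?_⟩
  · have h1 : LinearMap.range U.starProjection.toLinearMap = U := Submodule.range_starProjection U
    rw [h1]
    exact hUf
  · intro k hkC
    obtain ⟨k', hk', hkk⟩ := mem_iUnion₂.1 (hcov hkC)
    rw [Metric.mem_ball, dist_eq_norm] at hkk
    have hle : W k' ≤ U := Finset.le_sup (f := W) (htf.mem_toFinset.2 hk')
    obtain ⟨h1, h2⟩ := hW k' (hts hk') U hle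
    set P := U.starProjection with hP
    have hP1 : ‖P‖ ≤ 1 := Submodule.starProjection_norm_le U
    have h3 : ‖P * (k' - k' * P)‖ ≤ ε / 4 := by
      refine (norm_mul_le _ _).trans ?_
      calc ‖P‖ * ‖k' - k' * P‖ ≤ 1 * (ε / 4) :=
            mul_le_mul hP1 h2 (norm_nonneg _) zero_le_one
        _ = ε / 4 := one_mul _
    have h4 : ‖P * (k' - k) * P‖ ≤ ε / 4 := by
      have h5 : ‖k' - k‖ ≤ ε / 4 := by rw [norm_sub_rev]; exact hkk.le
      calc ‖P * (k' - k) * P‖ ≤ ‖P * (k' - k)‖ * ‖P‖ := norm_mul_le _ _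
        _ ≤ (‖P‖ * ‖k' - k‖) * ‖P‖ := mul_le_mul_of_nonneg_right (norm_mul_le _ _) (norm_nonneg _)
        _ ≤ (1 * (ε / 4)) * 1 := by
          refine mul_le_mul (mul_le_mul hP1 h5 (norm_nonneg _) zero_le_one) hP1 (norm_nonneg _) ?_
          positivity
        _ = ε / 4 := by ring
    have h6 : k - P * k * P = (k - k') + (k' - P * k') + P * (k' - k' * P) + P * (k' - k) * P := by
      simp only [mul_sub, sub_mul, mul_assoc]
      abel
    rw [h6]
    calc _ ≤ ‖k - k'‖ + ‖k' - P * k'‖ + ‖P * (k' - k' * P)‖ + ‖P * (k' - k) * P‖ := by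
          refine (norm_add_le _ _).trans (add_le_add_left ((norm_add_le _ _).trans
            (add_le_add_left (norm_add_le _ _) _)) _)
      _ ≤ ε / 4 + ε / 4 + ε / 4 + ε / 4 := by linarith
      _ = ε := by ring

end BGC
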