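import Mathlib

/-!
# MP_76d3fb_an: weak fixed point property for left reversible semigroups. Definitions

Overview: /team-store/blueprint_76d3fb.md
-/

namespace BGC

open Filter Topology Set

section metric

variable {X : Type*} [MetricSpace X]

/-- Lipschitz functions. -/
def Lp (f : X → ℝ) : Prop := ∃ C : ℝ, ∀ x y, |f x - f y| ≤ C * dist x y

open Classical in
/-- Evaluation at a point on Lipschitz functions, zero on the others. -/
noncomputable def ev (x : X) : (X → ℝ) → ℝ := fun f => if Lp f then f x else 0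

/-- Limit functionals on Lipschitz functions. -/
def SX (X : Type*) [MetricSpace X] : Set ((X → ℝ) → ℝ) :=
  closure (range (ev : X → (X → ℝ) → ℝ))

open Classical in
/-- Push forward of a limit functional. -/
noncomputable def st (a : X → X) (l : (X → ℝ) → ℝ) : (X → ℝ) → ℝ :=
  fun f => if Lp f then l (f ∘ a) else 0

/-- The ultrafilter `V` represents `l`. -/
def Rep (V : Ultrafilter X) (l : (X → ℝ) → ℝ) : Prop :=
  ∀ f, Lp f → Tendsto f (V : Filter X) (𝓝 (l f))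

/-- Iterated functional of a function of `m` points. -/
noncomputable def it (l : (X → ℝ) → ℝ) : (m : ℕ) → ((Fin m → X) → ℝ) → ℝ
  | 0, G => G (fun i => i.elim0)
  | (m + 1), G => l (fun v => it l m (fun p => G (Fin.cons v p)))

/-- Iterated event: for `V`-most `p 0`, for `V`-most `p 1`, ... the property holds. -/
def Ev (V : Ultrafilter X) : (m : ℕ) → ((Fin m → X) → Prop) → Prop
  | 0, P => P (fun i => i.elim0)
  | (m + 1), P => ∀ᶠ v in (V : Filter X), Ev V m (fun p => P (Fin.cons v p))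

/-- The constraint `w` joined with the distance to `u`. -/
def jn (w : X → ℝ) (u : X) : X → ℝ := fun q => max (w q) (dist q u)

/-- A semigroup of nonexpansive maps of a bounded metric space with averages, such that the ranges
are directed and the only invariant convex Lipschitz functions are the constants. -/
structure Sys (X : Type*) [MetricSpace X] where
  S : Set (X → X)
  ne : S.Nonempty
  cmp : ∀ a ∈ S, ∀ b ∈ S, a ∘ b ∈ S
  nonexp : ∀ a ∈ S, ∀ x y, dist (a x) (a y) ≤ dist x y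
  D : ℝ
  bdd : ∀ x y : X, dist x y ≤ D
  dir : ∀ a ∈ S, ∀ b ∈ S, ∃ c ∈ S, range c ⊆ closure (range a) ∧ range c ⊆ closure (range b)
  avg : (n : ℕ) → (Fin (n + 1) → X) → X
  avgd : ∀ n p q, dist (avg n p) (avg n q) ≤ (∑ i, dist (p i) (q i)) / (n + 1)
  avgc : ∀ n x, avg n (fun _ => x) = x
  const : ∀ f : X → ℝ, Lp f → (∀ n p, f (avg n p) ≤ (∑ i, f (p i)) / (n + 1)) →
    (∀ a ∈ S, ∀ x, f (a x) ≤ f x) → ∀ x y, f x = f y

/-- The maps of the semigroup and the identity. -/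
def Sys.S1 (A : Sys X) : Set (X → X) := insert id A.S

/-- Lift-closed sets of limit functionals. -/
def Lft (A : Sys X) (T : Set ((X → ℝ) → ℝ)) : Prop :=
  ∀ a ∈ A.S, ∀ l ∈ T, ∃ l' ∈ T, st a l' = l

/-- Minimal closed nonempty lift-closed sets. -/
structure Mn (A : Sys X) (T : Set ((X → ℝ) → ℝ)) : Prop where
  sub : T ⊆ SX X
  cl : IsClosed T
  ne : T.Nonempty
  lft : Lft A T
  min : ∀ T' : Set ((X → ℝ) → ℝ), T' ⊆ T → IsClosed T' → T'.Nonempty → Lft A T' → T' = T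

/-- Constraint functions which are convex for the averages. -/
def Cv (A : Sys X) (w : X → ℝ) : Prop :=
  ∀ n (p : Fin (n + 1) → X), w (A.avg n p) ≤ (∑ i, w (p i)) / (n + 1)

/-- The asymptotic radius `r` of the minimal set `T`. -/
structure Rad (T : Set ((X → ℝ) → ℝ)) (r : ℝ) : Prop where
  pos : 0 < r
  le : ∀ l ∈ T, ∀ y, l (fun v => dist v y) ≤ r
  ex : ∀ η > 0, ∃ l ∈ T, ∀ y, r - η ≤ l (fun v => dist v y)

/-- The properties of the basic functionals `h l`. -/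
structure HFun (A : Sys X) (T : Set ((X → ℝ) → ℝ)) (z : ((X → ℝ) → ℝ) → X) (B s0 : ℝ)
    (h : ((X → ℝ) → ℝ) → (X → ℝ) → ℝ) : Prop where
  M : ∀ a ∈ A.S1, ∀ l ∈ T, st a l ∈ T → ∀ w w' : X → ℝ, (∀ q, w' (a q) ≤ w q) →
    h (st a l) w' ≤ h l w
  L : ∀ l ∈ T, ∀ (w : X → ℝ) (δ : ℝ), 0 ≤ δ → h l (fun q => w q + δ) ≤ h l w + δ
  C : ∀ l ∈ T, ∀ (n : ℕ) (w : X → ℝ) (ws : Fin (n + 1) → X → ℝ),
    (∀ q : Fin (n + 1) → X, w (A.avg n q) ≤ (∑ i, ws i (q i)) / (n + 1)) →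
    h l w ≤ (∑ i, h l (ws i)) / (n + 1)
  U : ∀ l ∈ T, ∀ (w : X → ℝ) (x : X), h l w ≤ max B (w x)
  I : ∀ l ∈ T, ∀ (w : X → ℝ) (c : ℝ), h l w < c → ∃ q, w q < c
  Z : ∀ l ∈ T, ∀ w : X → ℝ, h l (jn w (z l)) ≤ h l w
  O : ∀ l ∈ T, h l (fun _ => 0) ≤ s0

/-- Norm fragmentation of the weak limits `z l`. -/
def Frg (T : Set ((X → ℝ) → ℝ)) (z : ((X → ℝ) → ℝ) → X) : Prop :=
  ∀ ε > 0, ∃ O : Set ((X → ℝ) → ℝ), IsOpen O ∧ (O ∩ T).Nonempty ∧
    ∃ y : X, ∀ l ∈ O ∩ T, dist (z l) y ≤ ε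

/-- Supremum of the basic functionals. -/
noncomputable def g0 (T : Set ((X → ℝ) → ℝ)) (h : ((X → ℝ) → ℝ) → (X → ℝ) → ℝ)
    (w : X → ℝ) : ℝ := ⨆ l : T, h l.1 w

/-- The operator of one more move. -/
noncomputable def La (T : Set ((X → ℝ) → ℝ)) (F : (X → ℝ) → ℝ) (w : X → ℝ) : ℝ :=
  ⨆ l : T, l.1 (fun u => F (jn w u))

/-- The quasi-inequality with data `ε n b y`. -/
def QD (A : Sys X) (F : (X → ℝ) → ℝ) (ε : ℝ) (n : ℕ) (b : Fin (n + 1) → X → X)
    (y : Fin (n + 1) → X) : Prop :=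
  ∀ w, Cv A w → ∃ i, F (jn w (A.avg n y)) ≤
    (F (w ∘ b i) + ε + ∑ j ∈ Finset.univ.erase i, F (jn w (y j))) / (n + 1)

/-- Good functionals. -/
structure Good (A : Sys X) (G0 : (X → ℝ) → ℝ) (B s0 : ℝ) (F : (X → ℝ) → ℝ) : Prop where
  M : ∀ a ∈ A.S1, ∀ w w' : X → ℝ, (∀ q, w' (a q) ≤ w q) → F w' ≤ F w
  L : ∀ (w : X → ℝ) (δ : ℝ), 0 ≤ δ → F (fun q => w q + δ) ≤ F w + δ
  C : ∀ (n : ℕ) (w : X → ℝ) (ws : Fin (n + 1) → X → ℝ),
    (∀ q : Fin (n + 1) → X, w (A.avg n q) ≤ (∑ i, ws i (q i)) / (n + 1)) →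
    F w ≤ (∑ i, F (ws i)) / (n + 1)
  U : ∀ (w : X → ℝ) (x : X), F w ≤ max B (w x)
  G : ∀ w, G0 w ≤ F w
  Q : ∀ (ε : ℝ) (n : ℕ) (b : Fin (n + 1) → X → X) (y : Fin (n + 1) → X), 0 ≤ ε →
    (∀ i, b i ∈ A.S1) → QD A G0 ε n b y → QD A F ε n b y
  O : F (fun _ => 0) ≤ s0

/-- Weak sequential data: `cv F` plays the role of the convex hull of the finite set `F`. -/
structure Wsq (cv : Set X → Set X) : Prop where
  tb : ∀ F : Set X, F.Finite → TotallyBounded (cv F)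
  cl : ∀ q : ℕ → X, ∃ p : X, (∀ v c, (∀ᶠ n in atTop, dist (q n) v ≤ c) → dist p v ≤ c) ∧
    ∀ ε > 0, ∃ n : ℕ, ∃ y ∈ cv (q '' {k | k ≤ n}), dist p y < ε

/-- The sample property: `z` is a point such that, for most samples `p`, every point which is
`(1 / lam i)`-close to all sample points is close to `z`. -/
def Smp {m : ℕ} (lam : Fin m → ℝ) (V : Ultrafilter X) (z : X) : Prop :=
  ∀ ε > 0, Ev V m (fun p => ∀ q, dist q z ≤ (⨆ i, lam i * dist q (p i)) + ε)

/-- Value of the inner game. -/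
noncomputable def Phi {m : ℕ} (lam : Fin m → ℝ) (w : X → ℝ) (p : Fin m → X) : ℝ :=
  ⨅ q, max (⨆ i, lam i * dist q (p i)) (w q)

end metric

section banach

variable {E : Type*} [NormedAddCommGroup E] [NormedSpace ℂ E]

/-- Weak fixed point property for a semigroup `S` with a topology. -/
def WFPFor (E : Type*) [NormedAddCommGroup E] [NormedSpace ℂ E] (S : Type*) [Semigroup S]
    [TopologicalSpace S] : Prop :=
  ∀ K : Set E, K.Nonempty → Convex ℝ K → IsCompact (toWeakSpace ℂ E '' K) →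
    ∀ act : S → K → K, (∀ s t x, act (s * t) x = act s (act t x)) →
      (∀ s x y, dist (act s x) (act s y) ≤ dist x y) → (∀ x, Continuous fun s => act s x) →
      ∃ x, ∀ s, act s x = x

/-- Weak limits on a set `K`: `z` is the weak limit of the limit functional `l`. -/
def IsWL (K : Set E) (l : (K → ℝ) → ℝ) (z : K) : Prop :=
  ∀ f : StrongDual ℂ E, (f z).re = l (fun x : K => (f x).re)

/-- The ultrafilter `V` on `K` converges weakly to `z`. -/
def WCv (K : Set E) (V : Ultrafilter K) (z : K) : Prop :=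
  ∀ f : StrongDual ℂ E, Tendsto (fun x : K => f x) (V : Filter K) (𝓝 (f z))

/-- The space `E` has the sample property with data `m, lam`. -/
def HasSmp (E : Type*) [NormedAddCommGroup E] [NormedSpace ℂ E] {m : ℕ} (lam : Fin m → ℝ) :
    Prop :=
  ∀ (K : Set E) (V : Ultrafilter K) (z : K), WCv K V z → Smp lam V z

end banach

/-- One Cantor-Bendixson derivative. -/
def cbd {Ω : Type*} [TopologicalSpace Ω] (A : Set Ω) : Set Ω := {t | t ∈ A ∧ AccPt t (𝓟 A)}

end BGC
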