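import Pool.Agent.Work.MP_76d3fb_an.MinSet

/-! Finitely many maps reach every functional of a minimal set from an open subset.

Proof. For a finite `P ⊆ A.S` define (recursion on `n`) `D P 0 = T \ O` and
`D P (n+1) = D P n ∩ ⋂ a ∈ P, st a '' D P n`. All are closed subsets of `T` (compactness of images),
decreasing in `n` and in `P`.  If all `D P n` were nonempty, `inter_lift` applies to the family
`{D P n | P n}` (directed: `D (P ∪ P') (max n n')`; for `a ∈ A.S`:
`D (insert a P) (n+1) ⊆ st a '' D (insert a P) n ⊆ st a '' D P n`), so the intersection is a closed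
nonempty lift-closed subset of `T \ O`, contradicting minimality (`O ∩ T` nonempty).
So `D P n = ∅` for some `P, n`.  By induction on `n` there is a finite set `W n ⊆ A.S1` of maps such
that every `l ∈ T` not in `D P n` is `st b l'` with `b ∈ W n`, `l' ∈ O ∩ T`:
`W 0 = {id}` (`st_id`), `W (n+1) = W n ∪ {a ∘ b | a ∈ P, b ∈ W n}`: if `l ∉ D P (n+1)` and
`l ∈ D P n` then `l ∉ st a '' D P n` for some `a ∈ P`; lift `l = st a l1`, `l1 ∈ T`, `l1 ∉ D P n`, so
`l1 = st b l'` and `l = st (a ∘ b) l'` (`st_comp`). Finally enumerate the finite nonempty set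
`W n` by `Fin (k + 1)` (it is nonempty; `Finset.equivFin` or a list). -/

namespace BGC

open Filter Topology Set

variable {X : Type*} [MetricSpace X]

private def fcD (T O : Set ((X → ℝ) → ℝ)) (P : Set (X → X)) : ℕ → Set ((X → ℝ) → ℝ)
  | 0 => T \ O
  | n + 1 => fcD T O P n ∩ ⋂ a ∈ P, st a '' fcD T O P n

private theorem fcD_sub (T O : Set ((X → ℝ) → ℝ)) (P : Set (X → X)) (n : ℕ) :
    fcD T O P n ⊆ T \ O := by
  induction n with
  | zero => exact subset_rfl
  | succ n ih => exact inter_subset_left.trans ih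

private theorem fcD_anti (T O : Set ((X → ℝ) → ℝ)) (P : Set (X → X)) {m n : ℕ} (h : m ≤ n) :
    fcD T O P n ⊆ fcD T O P m := by
  induction n, h using Nat.le_induction with
  | base => exact subset_rfl
  | succ n _ ih => exact inter_subset_left.trans ih

private theorem fcD_mono (T O : Set ((X → ℝ) → ℝ)) {P P' : Set (X → X)} (h : P ⊆ P') (n : ℕ) :
    fcD T O P' n ⊆ fcD T O P n := by
  induction n with
  | zero => exact subset_rfl
  | succ n ih =>
    refine inter_subset_inter ih ?_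
    refine (biInter_subset_biInter_left h).trans ?_
    exact iInter₂_mono fun a _ => image_mono ih

private theorem fcD_cl (A : Sys X) {T O : Set ((X → ℝ) → ℝ)} (hT : T ⊆ SX X)
    (hTc : IsClosed T) (hO : IsOpen O) (P : Set (X → X)) (n : ℕ) : IsClosed (fcD T O P n) := by
  induction n with
  | zero => exact hTc.sdiff hO
  | succ n ih =>
    refine ih.inter (isClosed_biInter fun a _ => ?_)
    have hc : IsCompact (fcD T O P n) := (SX_compact A.bdd).of_isClosed_subset ih
      (((fcD_sub T O P n).trans diff_subset).trans hT)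
    exact (hc.image (st_continuous a)).isClosed

private theorem fcW (A : Sys X) {T O : Set ((X → ℝ) → ℝ)} (hT : T ⊆ SX X) (hL : Lft A T)
    (P : Finset (X → X)) (hP : ∀ a ∈ P, a ∈ A.S) (n : ℕ) :
    ∃ W : Finset (X → X), (∀ b ∈ W, b ∈ A.S1) ∧
      ∀ l ∈ T, l ∉ fcD T O (P : Set (X → X)) n → ∃ b ∈ W, ∃ l' ∈ O ∩ T, st b l' = l := by
  classical
  induction n with
  | zero =>
    refine ⟨{id}, ?_, ?_⟩
    · intro b hb
      rw [Finset.mem_singleton] at hb
      exact Or.inl hb
    · intro l hl hl'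
      refine ⟨id, Finset.mem_singleton_self _, l, ⟨?_, hl⟩, st_id (hT hl)⟩
      by_contra h
      exact hl' ⟨hl, h⟩
  | succ n ih =>
    obtain ⟨W, hW, hW'⟩ := ih
    refine ⟨W ∪ (P ×ˢ W).image (fun q => q.1 ∘ q.2), ?_, ?_⟩
    · intro b hb
      rcases Finset.mem_union.1 hb with hb | hb
      · exact hW b hb
      · obtain ⟨q, hq, rfl⟩ := Finset.mem_image.1 hb
        rw [Finset.mem_product] at hq
        exact A.comp1 (Or.inr (hP _ hq.1)) (hW _ hq.2)
    · intro l hl hl'
      by_cases h : l ∈ fcD T O (P : Set (X → X)) n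
      · have h2 : ¬ ∀ a ∈ P, l ∈ st a '' fcD T O (P : Set (X → X)) n := by
          intro h3
          exact hl' ⟨h, mem_iInter₂.2 fun a ha => h3 a ha⟩
        push Not at h2
        obtain ⟨a, ha, h3⟩ := h2
        obtain ⟨l1, hl1, rfl⟩ := hL a (hP a ha) l hl
        have h4 : l1 ∉ fcD T O (P : Set (X → X)) n := fun h5 => h3 ⟨l1, h5, rfl⟩
        obtain ⟨b, hb, l', hl'', rfl⟩ := hW' l1 hl1 h4
        refine ⟨a ∘ b, Finset.mem_union_right _ (Finset.mem_image.2
          ⟨(a, b), Finset.mem_product.2 ⟨ha, hb⟩, rfl⟩), l', hl'', ?_⟩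
        exact st_comp (A.nonexp a (hP a ha)) l'
      · obtain ⟨b, hb, l', hl'', h2⟩ := hW' l hl h
        exact ⟨b, Finset.mem_union_left _ hb, l', hl'', h2⟩

theorem fc (A : Sys X) (T : Set ((X → ℝ) → ℝ)) (hT : Mn A T) (O : Set ((X → ℝ) → ℝ))
    (hO : IsOpen O) (hne : (O ∩ T).Nonempty) :
    ∃ (n : ℕ) (b : Fin (n + 1) → X → X), (∀ i, b i ∈ A.S1) ∧
      ∀ l ∈ T, ∃ i, ∃ l' ∈ O ∩ T, st (b i) l' = l := by
  classical
  have hex : ∃ (P : Finset (X → X)) (n : ℕ), (∀ a ∈ P, a ∈ A.S) ∧
      fcD T O (P : Set (X → X)) n = ∅ := by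
    by_contra hcon
    push Not at hcon
    have key := inter_lift A
      {U | ∃ (P : Finset (X → X)) (n : ℕ), (∀ a ∈ P, a ∈ A.S) ∧ U = fcD T O (P : Set (X → X)) n}
      ⟨_, ∅, 0, by simp, rfl⟩ (by
        rintro _ ⟨P, n, hP, rfl⟩
        exact ((fcD_sub T O _ n).trans diff_subset).trans hT.sub) (by
        rintro _ ⟨P, n, hP, rfl⟩
        exact fcD_cl A hT.sub hT.cl hO _ n) (by
        rintro _ ⟨P, n, hP, rfl⟩
        exact hcon P n hP) (by
        rintro _ ⟨P, n, hP, rfl⟩ _ ⟨P', n', hP', rfl⟩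
        refine ⟨_, ⟨P ∪ P', max n n', ?_, rfl⟩, ?_, ?_⟩
        · intro a ha
          rcases Finset.mem_union.1 ha with h | h
          · exact hP a h
          · exact hP' a h
        · exact (fcD_anti T O _ (le_max_left _ _)).trans
            (fcD_mono T O (by rw [Finset.coe_union]; exact subset_union_left) n)
        · exact (fcD_anti T O _ (le_max_right _ _)).trans
            (fcD_mono T O (by rw [Finset.coe_union]; exact subset_union_right) n')) (by
        rintro a ha _ ⟨P, n, hP, rfl⟩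
        refine ⟨_, ⟨insert a P, n + 1, ?_, rfl⟩, ?_⟩
        · intro b hb
          rcases Finset.mem_insert.1 hb with rfl | h
          · exact ha
          · exact hP b h
        · refine inter_subset_right.trans ?_
          refine (biInter_subset_of_mem (show a ∈ ((insert a P : Finset (X → X)) : Set (X → X))
            from Finset.mem_coe.2 (Finset.mem_insert_self a P))).trans ?_
          exact image_mono (fcD_mono T O (by rw [Finset.coe_insert]; exact subset_insert _ _) n))
    obtain ⟨h1, h2, h3⟩ := key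
    have hsub : ⋂₀ {U | ∃ (P : Finset (X → X)) (n : ℕ), (∀ a ∈ P, a ∈ A.S) ∧
        U = fcD T O (P : Set (X → X)) n} ⊆ T \ O :=
      sInter_subset_of_mem ⟨∅, 0, by simp, rfl⟩
    have h4 := hT.min _ (hsub.trans diff_subset) h1 h2 h3
    obtain ⟨l, hlO, hlT⟩ := hne
    rw [← h4] at hlT
    exact (hsub hlT).2 hlO
  obtain ⟨P, n, hP, hemp⟩ := hex
  obtain ⟨W, hW, hW'⟩ := fcW A (O := O) hT.sub hT.lft P hP n
  have hW'' : ∀ l ∈ T, ∃ b ∈ W, ∃ l' ∈ O ∩ T, st b l' = l := by
    intro l hl
    exact hW' l hl (by rw [hemp]; exact notMem_empty l)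
  obtain ⟨l0, hl0⟩ := hT.ne
  obtain ⟨b0, hb0, -⟩ := hW'' l0 hl0
  obtain ⟨k, hk⟩ : ∃ k, W.card = k + 1 :=
    ⟨W.card - 1, (Nat.sub_add_cancel (Finset.card_pos.2 ⟨b0, hb0⟩)).symm⟩
  refine ⟨k, fun i => ((W.equivFinOfCardEq hk).symm i).1, fun i => hW _
    ((W.equivFinOfCardEq hk).symm i).2, fun l hl => ?_⟩
  obtain ⟨b, hb, l', hl', h⟩ := hW'' l hl
  refine ⟨W.equivFinOfCardEq hk ⟨b, hb⟩, l', hl', ?_⟩
  simpa using h

end BGC
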