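import Pool.Agent.Work.MP_76d3fb_an.FC

/-! Properties of `g0 T h`, the supremum of the basic functionals.

`g0_good`: `g0` is bounded above by (U): `h l w ≤ max B (w x)` (`le_ciSup`, `ciSup_le`; `T` is
nonempty).
(M): for `l ∈ T` lift `l = st a l'` (`lft1`), `h l w' ≤ h l' w ≤ g0 w`.
(L), (C), (U), (O): from those of `h l`, `ciSup_le`.  (G), (Q): trivial.

`g0_QD`: given `ε > 0`, `Frg` gives `O` open meeting `T` and `y0` with `dist (z l) y0 ≤ ε` on
`O ∩ T`; `fc` gives `n, b`.  Put `y i = b i y0`.  Let `w` be `Cv`.  For `l ∈ T` take `i` and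
`l' ∈ O ∩ T` with `st (b i) l' = l`.  Then
* `h l (jn w (avg y)) ≤ (∑ j, h l (jn w (y j))) / (n+1)` by (C):
  `max (w (avg q)) (dist (avg q) (avg y)) ≤ (∑ j, max (w (q j)) (dist (q j) (y j))) / (n+1)`
  (`A.avgd` and `Cv`);
* `h l (jn w (y i)) ≤ h l' (jn (w ∘ b i) (z l')) + ε`... precisely:
  `h l (jn w (y i)) = h (st (b i) l') (jn w (y i)) ≤ h l' (fun q => jn (w ∘ b i) (z l') q + ε)` by (M)
  since `jn w (b i y0) (b i q) = max (w (b i q)) (dist (b i q) (b i y0))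
  ≤ max (w (b i q)) (dist q (z l')) + ε`; then (L), then (Z):
  `≤ h l' (jn (w ∘ b i) (z l')) + ε ≤ h l' (w ∘ b i) + ε ≤ g0 (w ∘ b i) + ε`;
* `h l (jn w (y j)) ≤ g0 (jn w (y j))`.
So `h l (jn w (avg y)) ≤ R i` where `R i` is the right side of `QD`; let `i0` maximise `R`
(finitely many `i`), and take the supremum over `l ∈ T`. -/

namespace BGC

open Filter Topology Set

variable {X : Type*} [MetricSpace X]

private theorem g0_le {A : Sys X} {T : Set ((X → ℝ) → ℝ)} (hT : Mn A T)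
    {h : ((X → ℝ) → ℝ) → (X → ℝ) → ℝ} {w : X → ℝ} {c : ℝ} (H : ∀ l ∈ T, h l w ≤ c) :
    g0 T h w ≤ c := by
  have : Nonempty T := hT.ne.to_subtype
  exact ciSup_le fun l => H l.1 l.2

private theorem le_g0 {A : Sys X} [Nonempty X] {T : Set ((X → ℝ) → ℝ)}
    {z : ((X → ℝ) → ℝ) → X} {B s0 : ℝ} {h : ((X → ℝ) → ℝ) → (X → ℝ) → ℝ}
    (hh : HFun A T z B s0 h) (w : X → ℝ) {l : (X → ℝ) → ℝ} (hl : l ∈ T) :
    h l w ≤ g0 T h w := by
  refine le_ciSup (f := fun l : T => h l.1 w) ?_ ⟨l, hl⟩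
  refine ⟨max B (w (Classical.arbitrary X)), ?_⟩
  rintro _ ⟨l, rfl⟩
  exact hh.U l.1 l.2 w _

theorem g0_good (A : Sys X) [Nonempty X] (T : Set ((X → ℝ) → ℝ)) (hT : Mn A T)
    (z : ((X → ℝ) → ℝ) → X) (B s0 : ℝ) (h : ((X → ℝ) → ℝ) → (X → ℝ) → ℝ)
    (hh : HFun A T z B s0 h) : Good A (g0 T h) B s0 (g0 T h) := by
  refine ⟨?_, ?_, ?_, ?_, fun w => le_rfl, fun ε n b y _ _ hQ => hQ, ?_⟩
  · intro a ha w w' hw
    refine g0_le hT fun l hl => ?_
    obtain ⟨l', hl', hll⟩ := lft1 hT.sub hT.lft ha hl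
    have h1 := hh.M a ha l' hl' (by rw [hll]; exact hl) w w' hw
    rw [hll] at h1
    exact h1.trans (le_g0 hh w hl')
  · intro w δ hδ
    refine g0_le hT fun l hl => (hh.L l hl w δ hδ).trans ?_
    have := le_g0 hh w hl
    linarith
  · intro n w ws hws
    refine g0_le hT fun l hl => (hh.C l hl n w ws hws).trans ?_
    gcongr with i
    exact le_g0 hh _ hl
  · intro w x
    exact g0_le hT fun l hl => hh.U l hl w x
  · exact g0_le hT fun l hl => hh.O l hl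

theorem g0_QD (A : Sys X) [Nonempty X] (T : Set ((X → ℝ) → ℝ)) (hT : Mn A T)
    (z : ((X → ℝ) → ℝ) → X) (B s0 : ℝ) (h : ((X → ℝ) → ℝ) → (X → ℝ) → ℝ)
    (hh : HFun A T z B s0 h) (hz : Frg T z) (ε : ℝ) (hε : 0 < ε) :
    ∃ (n : ℕ) (b : Fin (n + 1) → X → X) (y : Fin (n + 1) → X), (∀ i, b i ∈ A.S1) ∧
      QD A (g0 T h) ε n b y := by
  obtain ⟨O, hO, hne, y0, hy0⟩ := hz ε hε
  obtain ⟨n, b, hb, hfc⟩ := fc A T hT O hO hne
  refine ⟨n, b, fun i => b i y0, hb, ?_⟩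
  intro w hw
  have hn : (0 : ℝ) < n + 1 := by positivity
  obtain ⟨y, hy⟩ : ∃ y : Fin (n + 1) → X, y = fun i => b i y0 := ⟨_, rfl⟩
  have hyi : ∀ i, y i = b i y0 := by intro i; rw [hy]
  rw [← hy]
  obtain ⟨R, hR⟩ : ∃ R : Fin (n + 1) → ℝ, R = fun i => (g0 T h (w ∘ b i) + ε +
    ∑ j ∈ Finset.univ.erase i, g0 T h (jn w (y j))) / (n + 1) := ⟨_, rfl⟩
  obtain ⟨i0, hi0⟩ := Finite.exists_max R
  refine ⟨i0, ?_⟩
  have hR0 : R i0 = (g0 T h (w ∘ b i0) + ε +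
    ∑ j ∈ Finset.univ.erase i0, g0 T h (jn w (y j))) / (n + 1) := by rw [hR]
  rw [← hR0]
  refine g0_le hT fun l hl => ?_
  obtain ⟨i, l', hl', hll⟩ := hfc l hl
  refine le_trans ?_ (hi0 i)
  rw [hR]
  have h1 : h l (jn w (A.avg n y)) ≤ (∑ j, h l (jn w (y j))) / (n + 1) := by
    refine hh.C l hl n (jn w (A.avg n y)) (fun j => jn w (y j)) fun q => ?_
    refine max_le ((hw n q).trans ?_) ((A.avgd n q y).trans ?_)
    · gcongr with j
      exact le_max_left _ _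
    · gcongr with j
      exact le_max_right _ _
  refine h1.trans ?_
  simp only
  rw [← Finset.add_sum_erase _ _ (Finset.mem_univ i)]
  have h2 : h l (jn w (y i)) ≤ g0 T h (w ∘ b i) + ε := by
    have h3 := hh.M (b i) (hb i) l' hl'.2 (by rw [hll]; exact hl)
      (fun q => jn (w ∘ b i) (z l') q + ε) (jn w (y i)) (by
        intro q
        rw [hyi]
        simp only [jn, Function.comp]
        refine max_le ?_ ?_
        · have := le_max_left (w (b i q)) (dist q (z l'))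
          linarith
        · have h4 := A.nonexp1 (hb i) q y0
          have h5 := dist_triangle q (z l') y0
          have h6 := hy0 l' hl'
          have h7 := le_max_right (w (b i q)) (dist q (z l'))
          linarith)
    rw [hll] at h3
    have h4 := hh.L l' hl'.2 (jn (w ∘ b i) (z l')) ε hε.le
    have h5 := hh.Z l' hl'.2 (w ∘ b i)
    have h6 := le_g0 hh (w ∘ b i) hl'.2
    linarith
  have h3 : ∑ j ∈ Finset.univ.erase i, h l (jn w (y j)) ≤
      ∑ j ∈ Finset.univ.erase i, g0 T h (jn w (y j)) := by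
    exact Finset.sum_le_sum fun j _ => le_g0 hh _ hl
  gcongr

theorem g0_inf (A : Sys X) [Nonempty X] (T : Set ((X → ℝ) → ℝ)) (hT : Mn A T)
    (z : ((X → ℝ) → ℝ) → X) (B s0 : ℝ) (h : ((X → ℝ) → ℝ) → (X → ℝ) → ℝ)
    (hh : HFun A T z B s0 h) (w : X → ℝ) (c : ℝ) (hw : g0 T h w < c) : ∃ q, w q < c := by
  obtain ⟨l, hl⟩ := hT.ne
  exact hh.I l hl w c ((le_g0 hh w hl).trans_lt hw)

end BGC
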