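import Pool.Agent.Work.MP_76d3fb_an.Iter

/-! The functional `h l w = it l m (Phi lam w)` built from the sample property.

Let `L p q := ⨆ i, lam i * dist q (p i)` (finite supremum, `m > 0` because of `σ`; nonnegative).
`Phi lam w p = ⨅ q, max (L p q) (w q)`: bounded below by `0`, `≤ max (L p q) (w q)` for all `q`
(`ciInf_le`), and `Λ`-Lipschitz in `p` with `Λ = ∑ i, lam i` (sup metric): `phi_lp`.
(M) `it_st`, `Phi w' (a ∘ p) ≤ max (L (a ∘ p) (a q)) (w' (a q)) ≤ max (L p q) (w q)` for all `q`,
    so `Phi w' (a ∘ p) ≤ Phi w p`; `it_mono_ev` with `δ = 0` (`rep_exists`, `Ev.of_forall`).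
(L) `Phi (w + δ) ≤ Phi w + δ`.
(C) `Phi w p ≤ max (L p (avg q)) (w (avg q)) ≤ (∑ i, max (L p (q i)) (ws i (q i))) / (n+1)` for all
    `q : Fin (n+1) → X`; take infima over `q 0, ..., q n` (for `ε > 0` choose `q i` with value
    `≤ Phi (ws i) p + ε`), so `Phi w p ≤ (∑ i, Phi (ws i) p) / (n+1)`; `it_mono_ev`, `it_avg`.
(U) `Phi w p ≤ max (L p x) (w x) ≤ max (Λ * A.D) (w x)`, `it_const`.
(I) `it_lt_exists` and `exists_lt_of_ciInf_lt`.
(Z) for `ε > 0`, `V` with `Rep V l`: `Smp` says that for `V`-most samples `p`, for all `q`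
    `dist q (z l) ≤ L p q + ε`, so `max (L p q) (max (w q) (dist q (z l))) ≤ max (L p q) (w q) + ε`,
    hence `Phi (jn w z) p ≤ Phi w p + ε`; `it_mono_ev` with `δ = ε`; let `ε → 0`.
(O) for `ε > 0`, `Ev.pair`: for most `p` all `dist (p i) (p j) ≤ r + ε`. Take
    `q = A.avg N (p ∘ σ)`: `dist q (p i) ≤ (∑ j, dist (p (σ j)) (p i)) / (N+1)
    ≤ (N + 1 - #{j | σ j = i}) / (N+1) * (r + ε)` (the terms with `σ j = i` vanish), so
    `L p q ≤ θ (r + ε)` and `Phi 0 p ≤ θ (r + ε)`; `it_mono_ev` against a constant. -/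

namespace BGC

open Filter Topology Set

variable {X : Type*} [MetricSpace X]

/-- the weighted radius. -/
private noncomputable def LL {m : ℕ} (lam : Fin m → ℝ) (p : Fin m → X) (q : X) : ℝ :=
  ⨆ i, lam i * dist q (p i)

private theorem le_LL {m : ℕ} (lam : Fin m → ℝ) (p : Fin m → X) (q : X) (i : Fin m) :
    lam i * dist q (p i) ≤ LL lam p q :=
  le_ciSup (f := fun i => lam i * dist q (p i)) (Set.finite_range _).bddAbove i

private theorem LL_le {m : ℕ} [Nonempty (Fin m)] {lam : Fin m → ℝ} {p : Fin m → X} {q : X} {c : ℝ}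
    (h : ∀ i, lam i * dist q (p i) ≤ c) : LL lam p q ≤ c := ciSup_le h

private theorem LL_nonneg {m : ℕ} [Nonempty (Fin m)] {lam : Fin m → ℝ} (hlam : ∀ i, 0 ≤ lam i)
    (p : Fin m → X) (q : X) : 0 ≤ LL lam p q :=
  (mul_nonneg (hlam (Classical.arbitrary _)) dist_nonneg).trans (le_LL lam p q _)

private theorem phi_bdd {m : ℕ} [Nonempty (Fin m)] {lam : Fin m → ℝ} (hlam : ∀ i, 0 ≤ lam i)
    (w : X → ℝ) (p : Fin m → X) : BddBelow (range fun q => max (LL lam p q) (w q)) := by
  refine ⟨0, ?_⟩
  rintro _ ⟨q, rfl⟩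
  exact (LL_nonneg hlam p q).trans (le_max_left _ _)

private theorem phi_le {m : ℕ} [Nonempty (Fin m)] {lam : Fin m → ℝ} (hlam : ∀ i, 0 ≤ lam i)
    (w : X → ℝ) (p : Fin m → X) (q : X) : Phi lam w p ≤ max (LL lam p q) (w q) :=
  ciInf_le (phi_bdd hlam w p) q

private theorem le_phi {m : ℕ} [Nonempty X] {lam : Fin m → ℝ}
    {w : X → ℝ} {p : Fin m → X} {c : ℝ} (h : ∀ q, c ≤ max (LL lam p q) (w q)) :
    c ≤ Phi lam w p := le_ciInf h

private theorem phi_lt {m : ℕ} [Nonempty X] {lam : Fin m → ℝ}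
    {w : X → ℝ} {p : Fin m → X} {c : ℝ} (h : Phi lam w p < c) :
    ∃ q, max (LL lam p q) (w q) < c := exists_lt_of_ciInf_lt h

private theorem lam_le {m : ℕ} {lam : Fin m → ℝ} (hlam : ∀ i, 0 ≤ lam i) (i : Fin m) :
    lam i ≤ ∑ j, lam j := Finset.single_le_sum (fun j _ => hlam j) (Finset.mem_univ i)

private theorem phi_lp {m : ℕ} [Nonempty (Fin m)] [Nonempty X] {lam : Fin m → ℝ}
    (hlam : ∀ i, 0 ≤ lam i) (w : X → ℝ) : Lp (Phi lam w) := by
  refine lp_of (C := ∑ i, lam i) fun p p' => ?_
  rw [← sub_le_iff_le_add]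
  refine le_phi fun q => ?_
  rw [sub_le_iff_le_add]
  refine (phi_le hlam w p q).trans ?_
  have hS : 0 ≤ (∑ i, lam i) * dist p p' :=
    mul_nonneg (Finset.sum_nonneg fun i _ => hlam i) dist_nonneg
  refine max_le ?_ ?_
  · refine LL_le fun i => ?_
    have h1 := dist_triangle q (p' i) (p i)
    have h2 : dist (p' i) (p i) ≤ dist p p' := by
      rw [dist_comm]; exact dist_le_pi_dist p p' i
    have h3 := le_LL lam p' q i
    have h4 : lam i * dist q (p i) ≤ lam i * dist q (p' i) + lam i * dist p p' := by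
      rw [← mul_add]
      exact mul_le_mul_of_nonneg_left (h1.trans (by linarith)) (hlam i)
    have h5 : lam i * dist p p' ≤ (∑ i, lam i) * dist p p' :=
      mul_le_mul_of_nonneg_right (lam_le hlam i) dist_nonneg
    have h6 := le_max_left (LL lam p' q) (w q)
    linarith
  · have := le_max_right (LL lam p' q) (w q)
    linarith

private theorem phi_avg {A : Sys X} {m : ℕ} [Nonempty (Fin m)] [Nonempty X] {lam : Fin m → ℝ}
    (hlam : ∀ i, 0 ≤ lam i) (n : ℕ) (w : X → ℝ) (ws : Fin (n + 1) → X → ℝ)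
    (hws : ∀ q : Fin (n + 1) → X, w (A.avg n q) ≤ (∑ i, ws i (q i)) / (n + 1))
    (p : Fin m → X) : Phi lam w p ≤ (∑ i, Phi lam (ws i) p) / (n + 1) := by
  have hn : (0 : ℝ) < n + 1 := by positivity
  refine le_of_forall_pos_le_add fun ε hε => ?_
  have hex : ∀ i, ∃ q, max (LL lam p q) (ws i q) < Phi lam (ws i) p + ε := fun i =>
    phi_lt (by linarith)
  choose q hq using hex
  refine (phi_le hlam w p (A.avg n q)).trans ?_
  have h1 : (∑ i, (Phi lam (ws i) p + ε)) / (n + 1) = (∑ i, Phi lam (ws i) p) / (n + 1) + ε := by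
    rw [Finset.sum_add_distrib, Finset.sum_const, Finset.card_univ, Fintype.card_fin,
      nsmul_eq_mul]
    push_cast
    field_simp
  rw [← h1]
  refine max_le (LL_le fun k => ?_) ((hws q).trans ?_)
  · have h2 := mul_le_mul_of_nonneg_left (A.dist_avg n q (p k)) (hlam k)
    refine h2.trans ?_
    rw [← mul_div_assoc, Finset.mul_sum]
    gcongr with i
    exact ((le_LL lam p (q i) k).trans (le_max_left _ _)).trans (hq i).le
  · gcongr with i
    exact (le_max_right _ _).trans (hq i).le

theorem hfun_of_smp (A : Sys X) [Nonempty X] {m : ℕ} (lam : Fin m → ℝ) (hlam : ∀ i, 0 ≤ lam i)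
    (N : ℕ) (σ : Fin (N + 1) → Fin m) (θ : ℝ)
    (hσ : ∀ i, lam i * (1 - ((Finset.univ.filter fun j => σ j = i).card : ℝ) / (N + 1)) ≤ θ)
    (T : Set ((X → ℝ) → ℝ)) (hT : T ⊆ SX X) (r : ℝ) (hr : Rad T r)
    (z : ((X → ℝ) → ℝ) → X) (hz : ∀ l ∈ T, ∀ V, Rep V l → Smp lam V (z l)) :
    HFun A T z ((1 + ∑ i, lam i) * A.D) (θ * r) (fun l w => it l m (Phi lam w)) := by
  have hfin : Nonempty (Fin m) := ⟨σ 0⟩
  have hD := A.D_nonneg
  have hmono : ∀ l ∈ T, ∀ (G G' : (Fin m → X) → ℝ), Lp G → Lp G' → ∀ δ : ℝ,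
      (∀ p, G p ≤ G' p + δ) → it l m G ≤ it l m G' + δ := by
    intro l hl G G' hG hG' δ h
    obtain ⟨V, hV⟩ := rep_exists (hT hl)
    exact it_mono_ev (hT hl) hV hG hG' δ (Ev.of_forall h)
  refine ⟨?_, ?_, ?_, ?_, ?_, ?_, ?_⟩
  · intro a ha l hl _ w w' hw
    have hne : ∀ p p' : Fin m → X, dist (a ∘ p) (a ∘ p') ≤ dist p p' := by
      intro p p'
      rw [dist_pi_le_iff dist_nonneg]
      intro i
      exact (A.nonexp1 ha _ _).trans (dist_le_pi_dist p p' i)
    rw [it_st (hT hl) (A.nonexp1 ha) (phi_lp hlam w')]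
    have h1 := hmono l hl (fun p => Phi lam w' (a ∘ p)) (Phi lam w)
      ((phi_lp hlam w').comp_ne (a := fun p => a ∘ p) hne) (phi_lp hlam w) 0 (by
        intro p
        rw [add_zero]
        refine le_phi fun q => (phi_le hlam w' (a ∘ p) (a q)).trans ?_
        refine max_le_max (LL_le fun i => ?_) (hw q)
        exact (mul_le_mul_of_nonneg_left (A.nonexp1 ha q (p i)) (hlam i)).trans (le_LL lam p q i))
    rw [add_zero] at h1
    exact h1
  · intro l hl w δ hδ
    refine hmono l hl _ _ (phi_lp hlam _) (phi_lp hlam w) δ fun p => ?_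
    rw [← sub_le_iff_le_add]
    refine le_phi fun q => ?_
    rw [sub_le_iff_le_add]
    refine (phi_le hlam _ p q).trans (max_le ?_ ?_)
    · have := le_max_left (LL lam p q) (w q)
      linarith
    · have := le_max_right (LL lam p q) (w q)
      linarith
  · intro l hl n w ws hws
    rw [← it_avg (hT hl) (fun i => phi_lp hlam (ws i))]
    have h1 := hmono l hl (Phi lam w) (fun p => (∑ i, Phi lam (ws i) p) / (n + 1))
      (phi_lp hlam w) ((Lp.sum _ fun i _ => phi_lp hlam (ws i)).div_const _) 0 (by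
        intro p
        rw [add_zero]
        exact phi_avg hlam n w ws hws p)
    rw [add_zero] at h1
    exact h1
  · intro l hl w x
    have h1 := hmono l hl (Phi lam w) (fun _ => max ((1 + ∑ i, lam i) * A.D) (w x))
      (phi_lp hlam w) (Lp.const _) 0 (by
        intro p
        rw [add_zero]
        refine (phi_le hlam w p x).trans (max_le_max (LL_le fun i => ?_) le_rfl)
        have h2 : lam i * dist x (p i) ≤ (∑ i, lam i) * A.D :=
          mul_le_mul (lam_le hlam i) (A.bdd _ _) dist_nonneg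
            (Finset.sum_nonneg fun i _ => hlam i)
        linarith)
    rw [it_const (hT hl), add_zero] at h1
    exact h1
  · intro l hl w c hc
    obtain ⟨p, hp⟩ := it_lt_exists (hT hl) (phi_lp hlam w) hc
    obtain ⟨q, hq⟩ := phi_lt hp
    exact ⟨q, (le_max_right _ _).trans_lt hq⟩
  · intro l hl w
    refine le_of_forall_pos_le_add fun ε hε => ?_
    obtain ⟨V, hV⟩ := rep_exists (hT hl)
    refine it_mono_ev (hT hl) hV (phi_lp hlam _) (phi_lp hlam w) ε ?_
    refine (hz l hl V hV ε hε).mono fun p hp => ?_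
    rw [← sub_le_iff_le_add]
    refine le_phi fun q => ?_
    rw [sub_le_iff_le_add]
    refine (phi_le hlam _ p q).trans (max_le ?_ (max_le ?_ ?_))
    · have := le_max_left (LL lam p q) (w q)
      linarith
    · have := le_max_right (LL lam p q) (w q)
      linarith
    · have h1 : dist q (z l) ≤ LL lam p q + ε := hp q
      have := le_max_left (LL lam p q) (w q)
      linarith
  · intro l hl
    refine le_of_forall_pos_le_add fun ε' hε' => ?_
    have hcardle : ∀ i, ((Finset.univ.filter fun j => σ j = i).card : ℝ) ≤ N + 1 := by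
      intro i
      have h1 : (Finset.univ.filter fun j => σ j = i).card ≤ N + 1 := by
        have := Finset.card_le_univ (Finset.univ.filter fun j => σ j = i)
        rwa [Fintype.card_fin] at this
      exact_mod_cast h1
    have hN : (0 : ℝ) < N + 1 := by positivity
    have hθ : 0 ≤ θ := by
      refine le_trans ?_ (hσ (σ 0))
      refine mul_nonneg (hlam _) ?_
      have := (div_le_one hN).2 (hcardle (σ 0))
      linarith
    obtain ⟨ε, hε, hεε⟩ : ∃ ε > 0, θ * ε ≤ ε' := by
      refine ⟨ε' / (θ + 1), by positivity, ?_⟩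
      rw [← mul_div_assoc, div_le_iff₀ (by linarith)]
      nlinarith
    obtain ⟨V, hV⟩ := rep_exists (hT hl)
    have hpair := Ev.pair hV hr.pos.le (hr.le l hl) hε m
    have h1 := it_mono_ev (hT hl) hV (phi_lp hlam (fun _ => 0)) (Lp.const (θ * r)) (θ * ε)
      (hpair.mono fun p hp => by
        have hb : ∀ i, lam i * dist (A.avg N (p ∘ σ)) (p i) ≤ θ * (r + ε) := by
          intro i
          have h2 := A.dist_avg N (p ∘ σ) (p i)
          have h3 : ∑ j, dist ((p ∘ σ) j) (p i) ≤
              (N + 1 - ((Finset.univ.filter fun j => σ j = i).card : ℝ)) * (r + ε) := by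
            have h4 : ∀ j ∈ (Finset.univ : Finset (Fin (N + 1))), dist ((p ∘ σ) j) (p i) ≤
                (r + ε) - (if σ j = i then (r + ε) else 0) := by
              intro j _
              by_cases hj : σ j = i
              · simp [hj]
              · simp only [hj, if_false, sub_zero]
                exact hp _ _
            refine (Finset.sum_le_sum h4).trans (le_of_eq ?_)
            rw [Finset.sum_sub_distrib, Finset.sum_const, Finset.card_univ, Fintype.card_fin,
              ← Finset.sum_filter, Finset.sum_const, nsmul_eq_mul, nsmul_eq_mul]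
            push_cast
            ring
          calc lam i * dist (A.avg N (p ∘ σ)) (p i)
              ≤ lam i * ((∑ j, dist ((p ∘ σ) j) (p i)) / (N + 1)) :=
                mul_le_mul_of_nonneg_left h2 (hlam i)
            _ ≤ lam i * (((N + 1 - ((Finset.univ.filter fun j => σ j = i).card : ℝ)) *
                (r + ε)) / (N + 1)) := by
                apply mul_le_mul_of_nonneg_left _ (hlam i)
                gcongr
            _ = (lam i * (1 - ((Finset.univ.filter fun j => σ j = i).card : ℝ) / (N + 1))) *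
                (r + ε) := by
                field_simp
            _ ≤ θ * (r + ε) := by
                apply mul_le_mul_of_nonneg_right (hσ i)
                linarith [hr.pos]
        refine (phi_le hlam _ p (A.avg N (p ∘ σ))).trans (max_le ?_ ?_)
        · refine (LL_le hb).trans (le_of_eq ?_)
          ring
        · have := mul_nonneg hθ (add_nonneg hr.pos.le hε.le)
          linarith)
    rw [it_const (hT hl)] at h1
    linarith

end BGC
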