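import Pool.Agent.Work.MP_76d3fb_an.LimFun

/-! Iterated functionals and iterated events. Everything by induction on `m`.

`Fin m → X` carries the sup metric; `dist (Fin.cons v p) (Fin.cons v' p) = dist v v'` and
`dist (Fin.cons v p) (Fin.cons v p') = dist p p'`.
Key lemma `it_mono_ev`: for `m + 1`, `h : ∀ᶠ v in V, Ev V m (fun p => G (cons v p) ≤ G' (cons v p) + δ)`
so for `V`-most `v`, `it l m (G (cons v ·)) ≤ it l m (G' (cons v ·)) + δ`, and conclude with
`Rep.mono_ev` (`it_lp`, `lf_add`, `lf_const`).  `it_lp`: the function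
`v ↦ it l m (fun p => G (Fin.cons v p))` is Lipschitz with the constant of `G` (use the case of
`it_mono` with `δ = C * dist v v'` for `m`); so `it_lp` and monotonicity are proved together. -/

namespace BGC

open Filter Topology Set

variable {X : Type*} [MetricSpace X]

theorem Ev.mono {V : Ultrafilter X} {m : ℕ} {P Q : (Fin m → X) → Prop} (h : Ev V m P)
    (hPQ : ∀ p, P p → Q p) : Ev V m Q := by
  induction m with
  | zero => exact hPQ _ h
  | succ m ih => exact Eventually.mono h fun v hv => ih hv fun p hp => hPQ _ hp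

theorem Ev.and {V : Ultrafilter X} {m : ℕ} {P Q : (Fin m → X) → Prop} (h : Ev V m P)
    (h' : Ev V m Q) : Ev V m (fun p => P p ∧ Q p) := by
  induction m with
  | zero => exact ⟨h, h'⟩
  | succ m ih => exact (Eventually.and h h').mono fun v hv => ih hv.1 hv.2

theorem Ev.of_forall {V : Ultrafilter X} {m : ℕ} {P : (Fin m → X) → Prop} (h : ∀ p, P p) :
    Ev V m P := by
  induction m with
  | zero => exact h _
  | succ m ih => exact Eventually.of_forall fun v => ih fun p => h _

theorem Ev.all {V : Ultrafilter X} {m : ℕ} {Q : X → Prop} (h : ∀ᶠ x in (V : Filter X), Q x) :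
    Ev V m (fun p => ∀ i, Q (p i)) := by
  induction m with
  | zero => exact fun i => i.elim0
  | succ m ih =>
    refine h.mono fun v hv => Ev.mono ih fun p hp i => ?_
    refine Fin.cases ?_ (fun j => ?_) i
    · simpa using hv
    · simpa using hp j

/-- Samples have pairwise distance at most `r + ε`. -/
theorem Ev.pair {V : Ultrafilter X} {l : (X → ℝ) → ℝ} (hV : Rep V l) {r : ℝ} (hr : 0 ≤ r)
    (hl : ∀ y, l (fun v => dist v y) ≤ r) {ε : ℝ} (hε : 0 < ε) (m : ℕ) :
    Ev V m (fun p => ∀ i j, dist (p i) (p j) ≤ r + ε) := by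
  induction m with
  | zero => exact fun i => i.elim0
  | succ m ih =>
    refine Eventually.of_forall fun v => ?_
    have h1 : ∀ᶠ x in (V : Filter X), dist x v < r + ε :=
      hV.ev_lt (Lp.dist_left v) ((hl v).trans_lt (by linarith))
    refine Ev.mono (Ev.and ih (Ev.all h1)) fun p hp i j => ?_
    refine Fin.cases ?_ (fun i' => ?_) i
    · refine Fin.cases ?_ (fun j' => ?_) j
      · simp only [Fin.cons_zero, dist_self]
        linarith
      · simp only [Fin.cons_zero, Fin.cons_succ]
        rw [dist_comm]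
        exact (hp.2 j').le
    · refine Fin.cases ?_ (fun j' => ?_) j
      · simp only [Fin.cons_zero, Fin.cons_succ]
        exact (hp.2 i').le
      · simp only [Fin.cons_succ]
        exact hp.1 i' j'

private theorem iter_dist_cons {m : ℕ} (v : X) (p p' : Fin m → X) :
    dist (Fin.cons v p : Fin (m + 1) → X) (Fin.cons v p') ≤ dist p p' := by
  refine (dist_pi_le_iff dist_nonneg).2 fun i => ?_
  refine Fin.cases ?_ (fun j => ?_) i
  · simp
  · simpa using dist_le_pi_dist p p' j

private theorem iter_dist_cons' {m : ℕ} (v v' : X) (p : Fin m → X) :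
    dist (Fin.cons v p : Fin (m + 1) → X) (Fin.cons v' p) ≤ dist v v' := by
  refine (dist_pi_le_iff dist_nonneg).2 fun i => ?_
  refine Fin.cases ?_ (fun j => ?_) i
  · simp
  · simp

theorem Lp.cons {m : ℕ} {G : (Fin (m + 1) → X) → ℝ} (hG : Lp G) (v : X) :
    Lp (fun p : Fin m → X => G (Fin.cons v p)) := by
  obtain ⟨C, h0, hC⟩ := hG.exists_nonneg
  exact ⟨C, fun p p' => (hC _ _).trans (mul_le_mul_of_nonneg_left (iter_dist_cons v p p') h0)⟩

private theorem iter_lp_aux {V : Ultrafilter X} {l : (X → ℝ) → ℝ} {m : ℕ}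
    (h : ∀ (G G' : (Fin m → X) → ℝ), Lp G → Lp G' → ∀ δ : ℝ, Ev V m (fun p => G p ≤ G' p + δ) →
      it l m G ≤ it l m G' + δ) {G : (Fin (m + 1) → X) → ℝ}
    (hG : Lp G) : Lp (fun v => it l m (fun p => G (Fin.cons v p))) := by
  obtain ⟨C, h0, hC⟩ := hG.exists_nonneg
  refine lp_of (C := C) fun v v' => ?_
  refine h _ _ (hG.cons v) (hG.cons v') _ (Ev.of_forall fun p => ?_)
  have h1 := (abs_sub_le_iff.1 (hC (Fin.cons v p) (Fin.cons v' p))).1
  have h2 := mul_le_mul_of_nonneg_left (iter_dist_cons' v v' p) h0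
  linarith

private theorem iter_mono_aux {V : Ultrafilter X} {l : (X → ℝ) → ℝ} (hl : l ∈ SX X)
    (hV : Rep V l) (m : ℕ) : ∀ (G G' : (Fin m → X) → ℝ), Lp G → Lp G' → ∀ δ : ℝ,
      Ev V m (fun p => G p ≤ G' p + δ) → it l m G ≤ it l m G' + δ := by
  induction m with
  | zero => exact fun G G' _ _ δ h => h
  | succ m ih =>
    intro G G' hG hG' δ h
    have h1 : Lp (fun v => it l m (fun p => G (Fin.cons v p))) := iter_lp_aux ih hG
    have h2 : Lp (fun v => it l m (fun p => G' (Fin.cons v p))) := iter_lp_aux ih hG'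
    have h3 : l (fun v => it l m (fun p => G (Fin.cons v p))) ≤
        l (fun v => it l m (fun p => G' (Fin.cons v p)) + δ) := by
      refine hV.mono_ev h1 (h2.add (Lp.const δ)) ?_
      exact Eventually.mono h fun v hv => ih _ _ (hG.cons v) (hG'.cons v) δ hv
    rw [lf_add hl h2 (Lp.const δ), lf_const hl] at h3
    exact h3

theorem it_lp {l : (X → ℝ) → ℝ} (hl : l ∈ SX X) {m : ℕ} {G : (Fin (m + 1) → X) → ℝ}
    (hG : Lp G) : Lp (fun v => it l m (fun p => G (Fin.cons v p))) := by
  obtain ⟨V, hV⟩ := rep_exists hl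
  exact iter_lp_aux (iter_mono_aux hl hV m) hG

theorem it_mono_ev {V : Ultrafilter X} {l : (X → ℝ) → ℝ} (hl : l ∈ SX X) (hV : Rep V l) {m : ℕ}
    {G G' : (Fin m → X) → ℝ} (hG : Lp G) (hG' : Lp G') (δ : ℝ)
    (h : Ev V m (fun p => G p ≤ G' p + δ)) : it l m G ≤ it l m G' + δ :=
  iter_mono_aux hl hV m G G' hG hG' δ h

theorem it_const {l : (X → ℝ) → ℝ} (hl : l ∈ SX X) (m : ℕ) (c : ℝ) :
    it l m (fun _ => c) = c := by
  induction m with
  | zero => rfl
  | succ m ih =>
    change l (fun v => it l m (fun p => c)) = c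
    rw [ih, lf_const hl]

theorem it_avg {l : (X → ℝ) → ℝ} (hl : l ∈ SX X) {m n : ℕ} {G : Fin (n + 1) → (Fin m → X) → ℝ}
    (hG : ∀ i, Lp (G i)) :
    it l m (fun p => (∑ i, G i p) / (n + 1)) = (∑ i, it l m (G i)) / (n + 1) := by
  induction m with
  | zero => rfl
  | succ m ih =>
    change l (fun v => it l m (fun p => (∑ i, G i (Fin.cons v p)) / (n + 1))) =
      (∑ i, l (fun v => it l m (fun p => G i (Fin.cons v p)))) / (n + 1)
    have h1 : ∀ v : X, it l m (fun p => (∑ i, G i (Fin.cons v p)) / (n + 1)) =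
        (∑ i, it l m (fun p => G i (Fin.cons v p))) / (n + 1) := fun v =>
      ih (G := fun i p => G i (Fin.cons v p)) fun i => (hG i).cons v
    have h2 : ∀ i ∈ (Finset.univ : Finset (Fin (n + 1))),
        Lp (fun v => it l m (fun p => G i (Fin.cons v p))) := fun i _ => it_lp hl (hG i)
    rw [show (fun v => it l m (fun p => (∑ i, G i (Fin.cons v p)) / (n + 1))) =
      fun v => (∑ i, it l m (fun p => G i (Fin.cons v p))) / (n + 1) from funext h1,
      lf_div_const hl (Lp.sum _ h2), lf_sum hl _ h2]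

theorem it_st {l : (X → ℝ) → ℝ} (hl : l ∈ SX X) {a : X → X}
    (ha : ∀ x y, dist (a x) (a y) ≤ dist x y) {m : ℕ} {G : (Fin m → X) → ℝ} (hG : Lp G) :
    it (st a l) m G = it l m (fun p => G (a ∘ p)) := by
  induction m with
  | zero =>
    change G _ = G _
    congr 1
    funext i
    exact i.elim0
  | succ m ih =>
    change st a l (fun v => it (st a l) m (fun p => G (Fin.cons v p))) =
      l (fun v => it l m (fun p => G (a ∘ (Fin.cons v p : Fin (m + 1) → X))))
    rw [st_apply (it_lp (st_mem ha hl) hG)]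
    congr 1
    funext v
    change it (st a l) m (fun p => G (Fin.cons (a v) p)) = _
    rw [ih (hG.cons (a v))]
    congr 1
    funext p
    congr 1
    funext i
    refine Fin.cases ?_ (fun j => ?_) i
    · simp
    · simp

theorem it_lt_exists {l : (X → ℝ) → ℝ} (hl : l ∈ SX X) {m : ℕ} {G : (Fin m → X) → ℝ}
    (hG : Lp G) {c : ℝ} (h : it l m G < c) : ∃ p, G p < c := by
  by_contra hcon
  push Not at hcon
  obtain ⟨V, hV⟩ := rep_exists hl
  have h1 := it_mono_ev hl hV (Lp.const c) hG 0 (Ev.of_forall fun p => by simpa using hcon p)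
  rw [it_const hl, add_zero] at h1
  linarith

end BGC
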