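import Pool.Agent.Work.MP_76d3fb_an.LimFun

/-! The operator `La` preserves good functionals.

Let `F` be good. `u ↦ F (jn w u)` is `1`-Lipschitz: `jn w u ≤ jn w u' + dist u u'`, (M) with
`a = id` (monotone) and (L).  More generally for `b ∈ A.S1` the function
`u ↦ F (jn w u ∘ b)` is `1`-Lipschitz.  `La T F w` is a bounded supremum: by (U)
`F (jn w u) ≤ max B (jn w u x) ≤ max B (w x)` since `dist x u ≤ A.D ≤ B`.

Properties of `La T F`:
(M) `l ∈ T`, lift `l = st a l'` (`lft1`): `l (u ↦ F (jn w' u)) = l' (u ↦ F (jn w' (a u)))`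
  and `F (jn w' (a u)) ≤ F (jn w u)` by (M) for `F`, because
  `jn w' (a u) (a q) = max (w' (a q)) (dist (a q) (a u)) ≤ jn w u q`.
(L) `jn (w + δ) u ≤ jn w u + δ`.
(C) `jn w u (avg q) ≤ (∑ jn (ws i) u (q i)) / (n+1)` (`A.dist_avg`), (C) for `F`, apply `l`
  (`lf_sum`, `lf_div_const`, `lf_mono`).
(U) above.
(Q) Let `QD A G0 ε n b y`; then `QD A F ε n b y`.  Let `w` be `Cv`, `l ∈ T`, `V` with `Rep V l`
  (`rep_exists`).  For each `u`, `jn w u` is `Cv` (`Cv.jn`), so there is `i(u)` with the inequality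
  of `QD` for `jn w u`; since `V` is an ultrafilter there is `i` with `i(u) = i` for `V`-most `u`
  (`Ultrafilter.eventually_exists_iff` / finite union).  Hence (`Rep.mono_ev`, and `jn_comm`)
  `l (u ↦ F (jn (jn w ybar) u)) ≤ (l (u ↦ F (jn w u ∘ b i)) + ε + ∑_{j≠i} l (u ↦ F (jn (jn w (y j)) u))) / (n+1)`.
  Write `l = st (b i) l'`, `l' ∈ T`: `l (u ↦ F (jn w u ∘ b i)) = l' (u ↦ F (jn w (b i u) ∘ b i))
  ≤ l' (u ↦ F (jn (w ∘ b i) u)) ≤ La (w ∘ b i)` (monotone).  So the value at `l` is `≤ R i` (right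
  side of `QD` for `La T F`), `≤ max_i R i`; take the supremum over `l`.
For `max F (La F)`: (M), (L), (U), (G) clear, (C): each of the two is `≤` the average of the maxima.
(Q): for `w` take `i1` for `F`, `i2` for `La F`; the right sides are monotone in the functional, so
the index with the larger right side works.  (O): `hF.O` and `h0`. -/

namespace BGC

open Filter Topology Set

variable {X : Type*} [MetricSpace X]

private theorem id_S1 (A : Sys X) : id ∈ A.S1 := Set.mem_insert _ _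

theorem good_lp (A : Sys X) (G0 : (X → ℝ) → ℝ) (B s0 : ℝ) (F : (X → ℝ) → ℝ)
    (hF : Good A G0 B s0 F) (w : X → ℝ) (b : X → X) (hb : b ∈ A.S1) :
    Lp (fun u => F (jn w u ∘ b)) := by
  refine lp_of (C := 1) fun u u' => ?_
  rw [one_mul]
  refine le_trans (hF.M id (id_S1 A) (fun q => (jn w u' ∘ b) q + dist u u') (jn w u ∘ b) ?_)
    (hF.L _ _ dist_nonneg)
  intro q
  simp only [id, Function.comp, jn]
  refine max_le ?_ ?_
  · have := le_max_left (w (b q)) (dist (b q) u')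
    have h2 : 0 ≤ dist u u' := dist_nonneg
    linarith
  · have h1 := dist_triangle (b q) u' u
    have h2 := le_max_right (w (b q)) (dist (b q) u')
    rw [dist_comm u' u] at h1
    linarith

theorem good_lp' (A : Sys X) (G0 : (X → ℝ) → ℝ) (B s0 : ℝ) (F : (X → ℝ) → ℝ)
    (hF : Good A G0 B s0 F) (w : X → ℝ) : Lp (fun u => F (jn w u)) :=
  good_lp A G0 B s0 F hF w id (id_S1 A)

private theorem la_ub (A : Sys X) (T : Set ((X → ℝ) → ℝ)) (hT : Mn A T)
    (G0 : (X → ℝ) → ℝ) (B s0 : ℝ) (hB : A.D ≤ B) (F : (X → ℝ) → ℝ) (hF : Good A G0 B s0 F)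
    (w : X → ℝ) (x : X) (l : (X → ℝ) → ℝ) (hl : l ∈ T) :
    l (fun u => F (jn w u)) ≤ max B (w x) := by
  refine lf_le_const (hT.sub hl) (good_lp' A G0 B s0 F hF w) fun u => ?_
  refine (hF.U (jn w u) x).trans (max_le (le_max_left _ _) ?_)
  refine max_le (le_max_right _ _) ?_
  exact ((A.bdd x u).trans hB).trans (le_max_left _ _)

theorem la_bdd (A : Sys X) [Nonempty X] (T : Set ((X → ℝ) → ℝ)) (hT : Mn A T)
    (G0 : (X → ℝ) → ℝ) (B s0 : ℝ) (hB : A.D ≤ B) (F : (X → ℝ) → ℝ) (hF : Good A G0 B s0 F)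
    (w : X → ℝ) : BddAbove (range fun l : T => l.1 (fun u => F (jn w u))) := by
  refine ⟨max B (w (Classical.arbitrary X)), ?_⟩
  rintro _ ⟨l, rfl⟩
  exact la_ub A T hT G0 B s0 hB F hF w _ l.1 l.2

private theorem la_le {T : Set ((X → ℝ) → ℝ)} (hne : T.Nonempty) {F : (X → ℝ) → ℝ} {w : X → ℝ}
    {c : ℝ} (h : ∀ l ∈ T, l (fun u => F (jn w u)) ≤ c) : La T F w ≤ c := by
  have : Nonempty T := hne.to_subtype
  exact ciSup_le fun l => h l.1 l.2

private theorem le_la (A : Sys X) [Nonempty X] (T : Set ((X → ℝ) → ℝ)) (hT : Mn A T)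
    (G0 : (X → ℝ) → ℝ) (B s0 : ℝ) (hB : A.D ≤ B) (F : (X → ℝ) → ℝ) (hF : Good A G0 B s0 F)
    (w : X → ℝ) (l : (X → ℝ) → ℝ) (hl : l ∈ T) : l (fun u => F (jn w u)) ≤ La T F w :=
  le_ciSup (la_bdd A T hT G0 B s0 hB F hF w) ⟨l, hl⟩

omit [MetricSpace X] in
private theorem ev_fin {V : Ultrafilter X} {n : ℕ} {P : Fin (n + 1) → X → Prop}
    (h : ∀ᶠ x in (V : Filter X), ∃ i, P i x) : ∃ i, ∀ᶠ x in (V : Filter X), P i x := by
  have h1 : (⋃ i ∈ (Set.univ : Set (Fin (n + 1))), {x | P i x}) ∈ V := by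
    refine Filter.mem_of_superset h ?_
    rintro x ⟨i, hi⟩
    exact Set.mem_biUnion (Set.mem_univ i) hi
  obtain ⟨i, _, hi⟩ := (Ultrafilter.finite_biUnion_mem_iff Set.finite_univ).1 h1
  exact ⟨i, hi⟩

private theorem la_QD (A : Sys X) [Nonempty X] (T : Set ((X → ℝ) → ℝ)) (hT : Mn A T)
    (G0 : (X → ℝ) → ℝ) (B s0 : ℝ) (hB : A.D ≤ B) (F : (X → ℝ) → ℝ) (hF : Good A G0 B s0 F)
    (ε : ℝ) (n : ℕ) (b : Fin (n + 1) → X → X) (y : Fin (n + 1) → X)
    (hb : ∀ i, b i ∈ A.S1) (hQ : QD A F ε n b y) : QD A (La T F) ε n b y := by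
  intro w hw
  have hn : (0 : ℝ) < n + 1 := by positivity
  obtain ⟨R, hR⟩ : ∃ R : Fin (n + 1) → ℝ, R = fun i => (La T F (w ∘ b i) + ε +
    ∑ j ∈ Finset.univ.erase i, La T F (jn w (y j))) / (n + 1) := ⟨_, rfl⟩
  obtain ⟨i0, hi0⟩ := Finite.exists_max R
  refine ⟨i0, ?_⟩
  have hR0 : (La T F (w ∘ b i0) + ε + ∑ j ∈ Finset.univ.erase i0, La T F (jn w (y j))) / (n + 1)
      = R i0 := by rw [hR]
  rw [hR0]
  refine la_le hT.ne fun l hl => ?_
  obtain ⟨V, hV⟩ := rep_exists (hT.sub hl)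
  have hex : ∀ᶠ u in (V : Filter X), ∃ i, F (jn (jn w u) (A.avg n y)) ≤
      (F (jn w u ∘ b i) + ε + ∑ j ∈ Finset.univ.erase i, F (jn (jn w u) (y j))) / (n + 1) :=
    Eventually.of_forall fun u => hQ (jn w u) (hw.jn u)
  obtain ⟨i, hi⟩ := ev_fin hex
  refine le_trans ?_ (hi0 i)
  have hLb : Lp (fun u => F (jn w u ∘ b i)) := good_lp A G0 B s0 F hF w (b i) (hb i)
  have hLy : ∀ j, Lp (fun u => F (jn (jn w (y j)) u)) := fun j =>
    good_lp' A G0 B s0 F hF (jn w (y j))
  have hLs : Lp (fun u => ∑ j ∈ Finset.univ.erase i, F (jn (jn w (y j)) u)) :=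
    Lp.sum _ fun j _ => hLy j
  have hL1 : Lp (fun u => F (jn w u ∘ b i) + ε) := hLb.add (Lp.const ε)
  have h1 : l (fun u => F (jn (jn w (A.avg n y)) u)) ≤
      l (fun u => (F (jn w u ∘ b i) + ε + ∑ j ∈ Finset.univ.erase i,
        F (jn (jn w (y j)) u)) / (n + 1)) := by
    refine hV.mono_ev (good_lp' A G0 B s0 F hF _) ((hL1.add hLs).div_const _) ?_
    filter_upwards [hi] with u hu
    rw [jn_comm w (A.avg n y) u]
    have h2 : ∀ j, jn (jn w (y j)) u = jn (jn w u) (y j) := fun j => jn_comm w (y j) u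
    simp only [h2]
    exact hu
  refine h1.trans ?_
  rw [lf_div_const (hT.sub hl) (hL1.add hLs), lf_add (hT.sub hl) hL1 hLs,
    lf_add (hT.sub hl) hLb (Lp.const ε), lf_const (hT.sub hl),
    lf_sum (hT.sub hl) _ (fun j _ => hLy j), hR]
  have h3 : l (fun u => F (jn w u ∘ b i)) ≤ La T F (w ∘ b i) := by
    obtain ⟨l', hl', hll⟩ := lft1 hT.sub hT.lft (hb i) hl
    have h4 : l (fun u => F (jn w u ∘ b i)) = l' ((fun u => F (jn w u ∘ b i)) ∘ b i) := by
      rw [← hll]; exact st_apply hLb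
    rw [h4]
    refine le_trans (lf_mono (hT.sub hl') (hLb.comp_ne (A.nonexp1 (hb i)))
      (good_lp' A G0 B s0 F hF (w ∘ b i)) ?_) (le_la A T hT G0 B s0 hB F hF _ l' hl')
    intro u
    refine hF.M id (id_S1 A) _ _ ?_
    intro q
    simp only [id, Function.comp, jn]
    exact max_le_max le_rfl (A.nonexp1 (hb i) q u)
  have h5 : ∑ j ∈ Finset.univ.erase i, l (fun u => F (jn (jn w (y j)) u)) ≤
      ∑ j ∈ Finset.univ.erase i, La T F (jn w (y j)) :=
    Finset.sum_le_sum fun j _ => le_la A T hT G0 B s0 hB F hF _ l hl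
  simp only
  gcongr

theorem la_good (A : Sys X) [Nonempty X] (T : Set ((X → ℝ) → ℝ)) (hT : Mn A T)
    (G0 : (X → ℝ) → ℝ) (B s0 : ℝ) (hB : A.D ≤ B) (F : (X → ℝ) → ℝ) (hF : Good A G0 B s0 F)
    (h0 : La T F (fun _ => 0) ≤ s0) : Good A G0 B s0 (fun w => max (F w) (La T F w)) := by
  have hlp := good_lp' A G0 B s0 F hF
  have hle := le_la A T hT G0 B s0 hB F hF
  refine ⟨?_, ?_, ?_, ?_, fun w => (hF.G w).trans (le_max_left _ _), ?_, max_le hF.O h0⟩
  · intro a ha w w' hw
    refine max_le_max (hF.M a ha w w' hw) ?_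
    refine la_le hT.ne fun l hl => ?_
    obtain ⟨l', hl', hll⟩ := lft1 hT.sub hT.lft ha hl
    have h4 : l (fun u => F (jn w' u)) = l' ((fun u => F (jn w' u)) ∘ a) := by
      rw [← hll]; exact st_apply (hlp w')
    rw [h4]
    refine le_trans (lf_mono (hT.sub hl') ((hlp w').comp_ne (A.nonexp1 ha)) (hlp w) ?_)
      (hle w l' hl')
    intro u
    refine hF.M a ha _ _ fun q => ?_
    exact max_le_max (hw q) (A.nonexp1 ha q u)
  · intro w δ hδ
    refine max_le ?_ ?_
    · exact (hF.L w δ hδ).trans (by gcongr; exact le_max_left _ _)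
    · refine la_le hT.ne fun l hl => ?_
      have h1 : l (fun u => F (jn (fun q => w q + δ) u)) ≤ l (fun u => F (jn w u) + δ) := by
        refine lf_mono (hT.sub hl) (hlp _) ((hlp w).add (Lp.const δ)) fun u => ?_
        refine le_trans (hF.M id (id_S1 A) (fun q => jn w u q + δ) _ ?_) (hF.L _ _ hδ)
        intro q
        simp only [id, jn]
        refine max_le ?_ ?_
        · have := le_max_left (w q) (dist q u)
          linarith
        · have := le_max_right (w q) (dist q u)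
          linarith
      rw [lf_add (hT.sub hl) (hlp w) (Lp.const δ), lf_const (hT.sub hl)] at h1
      refine h1.trans ?_
      gcongr
      exact (hle w l hl).trans (le_max_right _ _)
  · intro n w ws hws
    have hn : (0 : ℝ) < n + 1 := by positivity
    refine max_le ?_ ?_
    · refine (hF.C n w ws hws).trans ?_
      gcongr
      exact le_max_left _ _
    · refine la_le hT.ne fun l hl => ?_
      have h1 : l (fun u => F (jn w u)) ≤ l (fun u => (∑ i, F (jn (ws i) u)) / (n + 1)) := by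
        refine lf_mono (hT.sub hl) (hlp _) ((Lp.sum _ fun i _ => hlp (ws i)).div_const _) ?_
        intro u
        refine hF.C n (jn w u) (fun i => jn (ws i) u) fun q => ?_
        refine max_le ((hws q).trans ?_) ((A.dist_avg n q u).trans ?_)
        · gcongr with i
          exact le_max_left _ _
        · gcongr with i
          exact le_max_right _ _
      rw [lf_div_const (hT.sub hl) (Lp.sum _ fun i _ => hlp (ws i)),
        lf_sum (hT.sub hl) _ (fun i _ => hlp (ws i))] at h1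
      refine h1.trans ?_
      gcongr with i
      exact (hle _ l hl).trans (le_max_right _ _)
  · intro w x
    refine max_le (hF.U w x) ?_
    exact la_le hT.ne fun l hl => la_ub A T hT G0 B s0 hB F hF w x l hl
  · intro ε n b y hε hb hQ
    have hn : (0 : ℝ) < n + 1 := by positivity
    have hQF := hF.Q ε n b y hε hb hQ
    have hQL := la_QD A T hT G0 B s0 hB F hF ε n b y hb hQF
    intro w hw
    obtain ⟨i1, h1⟩ := hQF w hw
    obtain ⟨i2, h2⟩ := hQL w hw
    obtain ⟨R, hR⟩ : ∃ R : Fin (n + 1) → ℝ, R = fun i => (max (F (w ∘ b i)) (La T F (w ∘ b i)) + ε +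
      ∑ j ∈ Finset.univ.erase i, max (F (jn w (y j))) (La T F (jn w (y j)))) / (n + 1) := ⟨_, rfl⟩
    obtain ⟨i0, hi0⟩ := Finite.exists_max R
    refine ⟨i0, ?_⟩
    have hR0 : R i0 = (max (F (w ∘ b i0)) (La T F (w ∘ b i0)) + ε +
      ∑ j ∈ Finset.univ.erase i0, max (F (jn w (y j))) (La T F (jn w (y j)))) / (n + 1) := by
      rw [hR]
    refine le_trans (max_le ?_ ?_) hR0.le
    · refine le_trans (h1.trans ?_) (hi0 i1)
      rw [hR]
      simp only
      gcongr
      · exact le_max_left _ _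
      · exact le_max_left _ _
    · refine le_trans (h2.trans ?_) (hi0 i2)
      rw [hR]
      simp only
      gcongr
      · exact le_max_right _ _
      · exact le_max_right _ _

end BGC
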