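import Pool.Agent.Work.MP_76d3fb_an.Defs

/-! Limit functionals on Lipschitz functions: basic interface. -/

namespace BGC

open Filter Topology Set

variable {X : Type*} [MetricSpace X]

theorem Lp.const (c : ℝ) : Lp (fun _ : X => c) := ⟨0, by simp⟩

theorem lp_of {f : X → ℝ} {C : ℝ} (h : ∀ x y, f x ≤ f y + C * dist x y) : Lp f := by
  refine ⟨C, fun x y => abs_sub_le_iff.2 ⟨by linarith [h x y], ?_⟩⟩
  have := h y x
  rw [dist_comm] at this
  linarith

theorem Lp.exists_nonneg {f : X → ℝ} (hf : Lp f) :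
    ∃ C : ℝ, 0 ≤ C ∧ ∀ x y, |f x - f y| ≤ C * dist x y := by
  obtain ⟨C, hC⟩ := hf
  exact ⟨|C|, abs_nonneg C, fun x y => (hC x y).trans
    (mul_le_mul_of_nonneg_right (le_abs_self C) dist_nonneg)⟩

theorem Lp.add {f g : X → ℝ} (hf : Lp f) (hg : Lp g) : Lp (fun x => f x + g x) := by
  obtain ⟨C, hC⟩ := hf
  obtain ⟨C', hC'⟩ := hg
  refine ⟨C + C', fun x y => ?_⟩
  have h : f x + g x - (f y + g y) = (f x - f y) + (g x - g y) := by ring
  rw [h, add_mul]
  exact (abs_add_le _ _).trans (add_le_add (hC x y) (hC' x y))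

theorem Lp.const_mul {f : X → ℝ} (c : ℝ) (hf : Lp f) : Lp (fun x => c * f x) := by
  obtain ⟨C, hC⟩ := hf
  refine ⟨|c| * C, fun x y => ?_⟩
  rw [← mul_sub, abs_mul, mul_assoc]
  exact mul_le_mul_of_nonneg_left (hC x y) (abs_nonneg c)

theorem Lp.neg {f : X → ℝ} (hf : Lp f) : Lp (fun x => - f x) := by
  simpa using hf.const_mul (-1)

theorem Lp.sub {f g : X → ℝ} (hf : Lp f) (hg : Lp g) : Lp (fun x => f x - g x) := by
  simpa [sub_eq_add_neg] using hf.add hg.neg

theorem Lp.div_const {f : X → ℝ} (hf : Lp f) (c : ℝ) : Lp (fun x => f x / c) := by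
  simpa [div_eq_inv_mul] using hf.const_mul c⁻¹

theorem Lp.max {f g : X → ℝ} (hf : Lp f) (hg : Lp g) : Lp (fun x => max (f x) (g x)) := by
  obtain ⟨C, h0, hC⟩ := hf.exists_nonneg
  obtain ⟨C', h0', hC'⟩ := hg.exists_nonneg
  refine ⟨Max.max C C', fun x y => ?_⟩
  refine (abs_max_sub_max_le_max _ _ _ _).trans (max_le ?_ ?_)
  · exact (hC x y).trans (mul_le_mul_of_nonneg_right (le_max_left _ _) dist_nonneg)
  · exact (hC' x y).trans (mul_le_mul_of_nonneg_right (le_max_right _ _) dist_nonneg)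

theorem Lp.sum {ι : Type*} (s : Finset ι) {f : ι → X → ℝ} (h : ∀ i ∈ s, Lp (f i)) :
    Lp (fun x => ∑ i ∈ s, f i x) := by
  classical
  induction s using Finset.induction_on with
  | empty => simpa using Lp.const 0
  | insert i s hi ih =>
    have := (h i (Finset.mem_insert_self i s)).add (ih fun j hj => h j (Finset.mem_insert_of_mem hj))
    simpa [Finset.sum_insert hi] using this

theorem Lp.dist_left (y : X) : Lp (fun x => dist x y) :=
  lp_of (C := 1) fun a b => by linarith [dist_triangle a b y]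

theorem Lp.dist_right (y : X) : Lp (fun x => dist y x) := by
  simpa [dist_comm] using Lp.dist_left y

theorem Lp.comp_ne {f : X → ℝ} (hf : Lp f) {a : X → X}
    (ha : ∀ x y, dist (a x) (a y) ≤ dist x y) : Lp (f ∘ a) := by
  obtain ⟨C, h0, hC⟩ := hf.exists_nonneg
  exact ⟨C, fun x y => (hC _ _).trans (mul_le_mul_of_nonneg_left (ha x y) h0)⟩

theorem Lp.continuous {f : X → ℝ} (hf : Lp f) : Continuous f := by
  obtain ⟨C, h0, hC⟩ := hf.exists_nonneg
  refine LipschitzWith.continuous (K := ⟨C, h0⟩) (LipschitzWith.of_dist_le_mul fun x y => ?_)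
  rw [Real.dist_eq]
  exact hC x y

theorem Lp.bounded {f : X → ℝ} (hf : Lp f) {D : ℝ} (hD : ∀ x y : X, dist x y ≤ D) :
    ∃ M : ℝ, ∀ x, |f x| ≤ M := by
  obtain ⟨C, h0, hC⟩ := hf.exists_nonneg
  rcases isEmpty_or_nonempty X with h | ⟨⟨x0⟩⟩
  · exact ⟨0, fun x => (h.false x).elim⟩
  · refine ⟨|f x0| + C * D, fun x => ?_⟩
    have h1 : |f x| ≤ |f x0| + |f x - f x0| := by
      have := abs_add_le (f x0) (f x - f x0)
      simpa using this
    exact h1.trans (add_le_add le_rfl ((hC x x0).trans (mul_le_mul_of_nonneg_left (hD x x0) h0)))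

theorem ev_of_Lp {f : X → ℝ} (hf : Lp f) (x : X) : ev x f = f x := by
  unfold ev; rw [if_pos hf]

theorem ev_of_not {f : X → ℝ} (hf : ¬ Lp f) (x : X) : ev x f = 0 := by
  unfold ev; rw [if_neg hf]

theorem ev_mem (x : X) : ev x ∈ SX X := subset_closure (mem_range_self x)

theorem isClosed_SX : IsClosed (SX X) := isClosed_closure

theorem SX_not {l : (X → ℝ) → ℝ} (hl : l ∈ SX X) {f : X → ℝ} (hf : ¬ Lp f) : l f = 0 := by
  have hc : IsClosed {l : (X → ℝ) → ℝ | l f = 0} :=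
    isClosed_eq (continuous_apply f) continuous_const
  have hsub : range (ev : X → (X → ℝ) → ℝ) ⊆ {l : (X → ℝ) → ℝ | l f = 0} := by
    rintro _ ⟨x, rfl⟩
    exact ev_of_not hf x
  exact closure_minimal hsub hc hl

theorem rep_exists {l : (X → ℝ) → ℝ} (hl : l ∈ SX X) : ∃ V : Ultrafilter X, Rep V l := by
  have h1 : ∃ᶠ y in 𝓝 l, y ∈ range (ev : X → (X → ℝ) → ℝ) := mem_closure_iff_frequently.1 hl
  have : NeBot (comap (ev : X → (X → ℝ) → ℝ) (𝓝 l)) := comap_neBot_iff_frequently.2 h1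
  refine ⟨Ultrafilter.of (comap (ev : X → (X → ℝ) → ℝ) (𝓝 l)), fun f hf => ?_⟩
  have h2 : Tendsto (ev : X → (X → ℝ) → ℝ) (Ultrafilter.of (comap ev (𝓝 l)) : Filter X) (𝓝 l) :=
    tendsto_comap.mono_left (Ultrafilter.of_le _)
  have h3 := (tendsto_pi_nhds.1 h2) f
  simpa [ev_of_Lp hf] using h3

theorem SX_compact {D : ℝ} (hD : ∀ x y : X, dist x y ≤ D) : IsCompact (SX X) := by
  have hb : ∀ f : X → ℝ, ∃ M : ℝ, ∀ x, |ev x f| ≤ M := by
    intro f
    by_cases hf : Lp f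
    · obtain ⟨M, hM⟩ := hf.bounded hD
      exact ⟨M, fun x => by rw [ev_of_Lp hf]; exact hM x⟩
    · exact ⟨0, fun x => by rw [ev_of_not hf]; simp⟩
  choose M hM using hb
  have hcomp : IsCompact (Set.pi univ (fun f : X → ℝ => Icc (-(M f)) (M f))) :=
    isCompact_univ_pi fun f => isCompact_Icc
  refine hcomp.of_isClosed_subset isClosed_SX (closure_minimal ?_ hcomp.isClosed)
  rintro _ ⟨x, rfl⟩ f -
  exact abs_le.1 (hM f x)

section ops

variable {l : (X → ℝ) → ℝ}

theorem lf_mono (hl : l ∈ SX X) {f g : X → ℝ} (hf : Lp f) (hg : Lp g) (h : ∀ x, f x ≤ g x) :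
    l f ≤ l g := by
  obtain ⟨V, hV⟩ := rep_exists hl
  exact le_of_tendsto_of_tendsto' (hV f hf) (hV g hg) h

theorem Rep.mono_ev {V : Ultrafilter X} (hV : Rep V l) {f g : X → ℝ} (hf : Lp f) (hg : Lp g)
    (h : ∀ᶠ x in (V : Filter X), f x ≤ g x) : l f ≤ l g :=
  le_of_tendsto_of_tendsto (hV f hf) (hV g hg) h

theorem Rep.le_of_ev {V : Ultrafilter X} (hV : Rep V l) {f : X → ℝ} (hf : Lp f) {c : ℝ}
    (h : ∀ᶠ x in (V : Filter X), f x ≤ c) : l f ≤ c :=
  le_of_tendsto (hV f hf) h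

theorem Rep.ge_of_ev {V : Ultrafilter X} (hV : Rep V l) {f : X → ℝ} (hf : Lp f) {c : ℝ}
    (h : ∀ᶠ x in (V : Filter X), c ≤ f x) : c ≤ l f :=
  ge_of_tendsto (hV f hf) h

theorem Rep.ev_lt {V : Ultrafilter X} (hV : Rep V l) {f : X → ℝ} (hf : Lp f) {c : ℝ}
    (h : l f < c) : ∀ᶠ x in (V : Filter X), f x < c :=
  (hV f hf).eventually (gt_mem_nhds h)

theorem Rep.ev_gt {V : Ultrafilter X} (hV : Rep V l) {f : X → ℝ} (hf : Lp f) {c : ℝ}
    (h : c < l f) : ∀ᶠ x in (V : Filter X), c < f x :=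
  (hV f hf).eventually (lt_mem_nhds h)

theorem lf_const (hl : l ∈ SX X) (c : ℝ) : l (fun _ => c) = c := by
  obtain ⟨V, hV⟩ := rep_exists hl
  exact (tendsto_nhds_unique (hV _ (Lp.const c)) tendsto_const_nhds)

theorem lf_le_const (hl : l ∈ SX X) {f : X → ℝ} (hf : Lp f) {c : ℝ} (h : ∀ x, f x ≤ c) :
    l f ≤ c := by
  obtain ⟨V, hV⟩ := rep_exists hl
  exact hV.le_of_ev hf (Eventually.of_forall h)

theorem lf_ge_const (hl : l ∈ SX X) {f : X → ℝ} (hf : Lp f) {c : ℝ} (h : ∀ x, c ≤ f x) :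
    c ≤ l f := by
  obtain ⟨V, hV⟩ := rep_exists hl
  exact hV.ge_of_ev hf (Eventually.of_forall h)

theorem lf_add (hl : l ∈ SX X) {f g : X → ℝ} (hf : Lp f) (hg : Lp g) :
    l (fun x => f x + g x) = l f + l g := by
  obtain ⟨V, hV⟩ := rep_exists hl
  exact tendsto_nhds_unique (hV _ (hf.add hg)) ((hV f hf).add (hV g hg))

theorem lf_const_mul (hl : l ∈ SX X) {f : X → ℝ} (hf : Lp f) (c : ℝ) :
    l (fun x => c * f x) = c * l f := by
  obtain ⟨V, hV⟩ := rep_exists hl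
  exact tendsto_nhds_unique (hV _ (hf.const_mul c)) ((hV f hf).const_mul c)

theorem lf_div_const (hl : l ∈ SX X) {f : X → ℝ} (hf : Lp f) (c : ℝ) :
    l (fun x => f x / c) = l f / c := by
  obtain ⟨V, hV⟩ := rep_exists hl
  exact tendsto_nhds_unique (hV _ (hf.div_const c)) ((hV f hf).div_const c)

theorem lf_sum (hl : l ∈ SX X) {ι : Type*} (s : Finset ι) {f : ι → X → ℝ}
    (hf : ∀ i ∈ s, Lp (f i)) : l (fun x => ∑ i ∈ s, f i x) = ∑ i ∈ s, l (f i) := by
  obtain ⟨V, hV⟩ := rep_exists hl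
  exact tendsto_nhds_unique (hV _ (Lp.sum s hf))
    (tendsto_finsetSum s fun i hi => hV _ (hf i hi))

theorem lf_max (hl : l ∈ SX X) {f g : X → ℝ} (hf : Lp f) (hg : Lp g) :
    l (fun x => max (f x) (g x)) = max (l f) (l g) := by
  obtain ⟨V, hV⟩ := rep_exists hl
  exact tendsto_nhds_unique (hV _ (hf.max hg)) ((hV f hf).max (hV g hg))

end ops

theorem st_apply {a : X → X} {l : (X → ℝ) → ℝ} {f : X → ℝ} (hf : Lp f) :
    st a l f = l (f ∘ a) := by
  unfold st; rw [if_pos hf]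

theorem st_not {a : X → X} {l : (X → ℝ) → ℝ} {f : X → ℝ} (hf : ¬ Lp f) :
    st a l f = 0 := by
  unfold st; rw [if_neg hf]

theorem st_continuous (a : X → X) : Continuous (st a) := by
  refine continuous_pi fun f => ?_
  by_cases hf : Lp f
  · simpa [st_apply hf] using continuous_apply (f ∘ a)
  · simpa [st_not hf] using continuous_const

theorem st_ev {a : X → X} (ha : ∀ x y, dist (a x) (a y) ≤ dist x y) (x : X) :
    st a (ev x) = ev (a x) := by
  funext f
  by_cases hf : Lp f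
  · rw [st_apply hf, ev_of_Lp hf, ev_of_Lp (hf.comp_ne ha)]; rfl
  · rw [st_not hf, ev_of_not hf]

theorem st_mem {a : X → X} (ha : ∀ x y, dist (a x) (a y) ≤ dist x y) {l : (X → ℝ) → ℝ}
    (hl : l ∈ SX X) : st a l ∈ SX X := by
  have h1 : st a '' closure (range (ev : X → (X → ℝ) → ℝ)) ⊆
      closure (st a '' range (ev : X → (X → ℝ) → ℝ)) :=
    image_closure_subset_closure_image (st_continuous a)
  refine closure_mono ?_ (h1 (mem_image_of_mem _ hl))
  rintro _ ⟨_, ⟨x, rfl⟩, rfl⟩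
  rw [st_ev ha]
  exact mem_range_self _

theorem st_id {l : (X → ℝ) → ℝ} (hl : l ∈ SX X) : st id l = l := by
  funext f
  by_cases hf : Lp f
  · rw [st_apply hf]; rfl
  · rw [st_not hf, SX_not hl hf]

theorem st_comp {a b : X → X} (ha : ∀ x y, dist (a x) (a y) ≤ dist x y) (l : (X → ℝ) → ℝ) :
    st (a ∘ b) l = st a (st b l) := by
  funext f
  by_cases hf : Lp f
  · rw [st_apply hf, st_apply hf, st_apply (hf.comp_ne ha)]; rfl
  · rw [st_not hf, st_not hf]

theorem Rep.map {V : Ultrafilter X} {l : (X → ℝ) → ℝ} (hV : Rep V l) {a : X → X}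
    (ha : ∀ x y, dist (a x) (a y) ≤ dist x y) : Rep (V.map a) (st a l) := by
  intro f hf
  rw [st_apply hf]
  exact (hV _ (hf.comp_ne ha)).comp tendsto_id

theorem ev_continuous : Continuous (ev : X → (X → ℝ) → ℝ) := by
  refine continuous_pi fun f => ?_
  by_cases hf : Lp f
  · simpa [ev_of_Lp hf] using hf.continuous
  · simpa [ev_of_not hf] using continuous_const

theorem Sys.nonexp1 (A : Sys X) {a : X → X} (ha : a ∈ A.S1) (x y : X) :
    dist (a x) (a y) ≤ dist x y := by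
  rcases ha with rfl | ha
  · exact le_rfl
  · exact A.nonexp a ha x y

theorem Sys.comp1 (A : Sys X) {a b : X → X} (ha : a ∈ A.S1) (hb : b ∈ A.S1) : a ∘ b ∈ A.S1 := by
  rcases ha with rfl | ha
  · simpa using hb
  · rcases hb with rfl | hb
    · exact Or.inr ha
    · exact Or.inr (A.cmp a ha b hb)

/-- Lifts along the maps of `S1` inside a lift-closed set of limit functionals. -/
theorem lft1 {A : Sys X} {T : Set ((X → ℝ) → ℝ)} (hsub : T ⊆ SX X) (hT : Lft A T) {a : X → X}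
    (ha : a ∈ A.S1) {l : (X → ℝ) → ℝ} (hl : l ∈ T) : ∃ l' ∈ T, st a l' = l := by
  rcases ha with rfl | ha
  · exact ⟨l, hl, st_id (hsub hl)⟩
  · exact hT a ha l hl

theorem Sys.D_nonneg (A : Sys X) [Nonempty X] : 0 ≤ A.D :=
  dist_nonneg.trans (A.bdd (Classical.arbitrary X) (Classical.arbitrary X))

theorem Sys.dist_avg (A : Sys X) (n : ℕ) (p : Fin (n + 1) → X) (x : X) :
    dist (A.avg n p) x ≤ (∑ i, dist (p i) x) / (n + 1) := by
  have h := A.avgd n p (fun _ => x)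
  rwa [A.avgc] at h

theorem jn_zero (u : X) : jn (fun _ => (0 : ℝ)) u = fun q => dist q u := by
  funext q
  simp [jn]

theorem jn_comm (w : X → ℝ) (u v : X) : jn (jn w u) v = jn (jn w v) u := by
  funext q
  simp only [jn]
  rw [max_assoc, max_comm (dist q u), ← max_assoc]

theorem Cv.jn {A : Sys X} {w : X → ℝ} (hw : Cv A w) (u : X) : Cv A (jn w u) := by
  intro n p
  have hn : (0 : ℝ) < n + 1 := by positivity
  refine max_le ((hw n p).trans ?_) ((A.dist_avg n p u).trans ?_)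
  · gcongr with i
    exact le_max_left _ _
  · gcongr with i
    exact le_max_right _ _

theorem Cv.zero (A : Sys X) : Cv A (fun _ => 0) := by
  intro n p
  simp

end BGC
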