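import Pool.Agent.Work.MP_76d3fb_an.SmpCK

/-! The weights are admissible.

`M + 1 = (N + 2)²` (so `M = (N+2)² - 1 = N² + 4 N + 3`), `σ j = j + 1` for `j < N + 1` and `σ j = 0`
otherwise: every `i ≥ 1` is taken once, `0` is taken `(N+2)² - (N+1)` times.
`i = 0`: `(N+3) (N+1)/(N+2)² = ((N+2)² - 1)/(N+2)² < 1`.
`i ≥ 1`: `d/(d-1) · (1 - 1/(N+2)²)` with `d = (N+2)(N+3) > (N+2)²`, `< 1`.
`θ` = the maximum of the two numbers. -/

namespace BGC

open Filter Topology Set

private def wsig (N : ℕ) (j : Fin (N * N + 4 * N + 3 + 1)) : Fin (N + 2) :=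
  if h : j.val < N + 1 then ⟨j.val + 1, by omega⟩ else 0

private theorem wsig_zero (N : ℕ) :
    (Finset.univ.filter fun j => wsig N j = 0).card = N * N + 3 * N + 3 := by
  have h1 : (Finset.univ.filter fun j => wsig N j = 0) =
      Finset.univ.filter fun j : Fin (N * N + 4 * N + 3 + 1) => ¬ j.val < N + 1 := by
    ext j
    simp only [Finset.mem_filter, Finset.mem_univ, true_and, wsig]
    by_cases h : j.val < N + 1
    · rw [dif_pos h]
      constructor
      · intro h2
        have h3 := congrArg Fin.val h2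
        simp only [Fin.val_zero] at h3
        omega
      · intro h2
        exact (h2 h).elim
    · rw [dif_neg h]
      exact ⟨fun _ => h, fun _ => rfl⟩
  have h2 := Finset.card_filter_add_card_filter_not
    (s := (Finset.univ : Finset (Fin (N * N + 4 * N + 3 + 1)))) (fun j => j.val < N + 1)
  have h3 : (Finset.univ.filter fun j : Fin (N * N + 4 * N + 3 + 1) => j.val < N + 1).card =
      N + 1 := by
    rw [Fin.card_filter_val_lt]
    simp
    nlinarith
  rw [h1]
  rw [h3, Finset.card_univ, Fintype.card_fin] at h2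
  omega

private theorem wsig_succ (N : ℕ) (i : Fin (N + 1)) :
    (Finset.univ.filter fun j => wsig N j = i.succ).card = 1 := by
  rw [Finset.card_eq_one]
  have hi : i.val < N * N + 4 * N + 3 + 1 := by
    have := i.2
    nlinarith
  refine ⟨⟨i.val, hi⟩, ?_⟩
  ext j
  simp only [Finset.mem_filter, Finset.mem_univ, true_and, wsig, Finset.mem_singleton]
  by_cases h : j.val < N + 1
  · rw [dif_pos h, Fin.ext_iff, Fin.ext_iff]
    simp only [Fin.val_succ]
    omega
  · rw [dif_neg h, Fin.ext_iff, Fin.ext_iff]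
    simp only [Fin.val_succ, Fin.val_zero]
    have := i.2
    omega

theorem weights (N : ℕ) : ∃ (M : ℕ) (σ : Fin (M + 1) → Fin (N + 2)) (θ : ℝ), θ < 1 ∧
    ∀ i, lamN N i * (1 - ((Finset.univ.filter fun j => σ j = i).card : ℝ) / (M + 1)) ≤ θ := by
  have hN : (0 : ℝ) ≤ N := Nat.cast_nonneg N
  have hM : (((N * N + 4 * N + 3 : ℕ) : ℝ) + 1) = ((N : ℝ) + 2) ^ 2 := by
    push_cast
    ring
  have hd : 0 < ((N : ℝ) + 2) * ((N : ℝ) + 3) - 1 := by nlinarith
  refine ⟨N * N + 4 * N + 3, wsig N,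
    max ((((N : ℝ) + 3) * ((N : ℝ) + 1)) / ((N : ℝ) + 2) ^ 2)
      ((((N : ℝ) + 2) * ((N : ℝ) + 3)) / (((N : ℝ) + 2) * ((N : ℝ) + 3) - 1) *
        (1 - 1 / ((N : ℝ) + 2) ^ 2)), ?_, ?_⟩
  · refine max_lt ?_ ?_
    · rw [div_lt_one (by positivity)]
      nlinarith
    · rw [div_mul_eq_mul_div, div_lt_one hd, mul_sub, mul_one, mul_one_div]
      have : 1 < ((N : ℝ) + 2) * ((N : ℝ) + 3) / ((N : ℝ) + 2) ^ 2 := by
        rw [one_lt_div (by positivity)]
        nlinarith
      linarith
  · intro i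
    rw [hM]
    refine Fin.cases ?_ (fun k => ?_) i
    · refine le_trans (le_of_eq ?_) (le_max_left _ _)
      rw [wsig_zero]
      simp only [lamN, Fin.cons_zero]
      push_cast
      field_simp
      ring
    · refine le_trans (le_of_eq ?_) (le_max_right _ _)
      rw [wsig_succ]
      simp only [lamN, Fin.cons_succ, Nat.cast_one]

end BGC
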