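import Pool.Agent.Work.MP_76d3fb_an.General
import Pool.Agent.Work.MP_76d3fb_an.Weights

/-! Main theorem: subspaces of `C₀(Ω, K(H))`. -/

namespace BGC

open Filter Topology Set ZeroAtInfty

theorem main_CK {E : Type*} [NormedAddCommGroup E] [NormedSpace ℂ E] {Ω : Type*}
    [TopologicalSpace Ω] (hΩ : ∃ N, cbd^[N] (univ : Set Ω) = ∅) {H : Type*}
    [NormedAddCommGroup H] [InnerProductSpace ℂ H] [CompleteSpace H]
    (J : E →ₗᵢ[ℂ] C₀(Ω, H →L[ℂ] H)) (hJ : ∀ x t, IsCompactOperator (J x t))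
    (S : Type*) [Semigroup S] [TopologicalSpace S]
    (hrev : ∀ a b : S, (closure (range (a * ·)) ∩ closure (range (b * ·))).Nonempty) :
    WFPFor E S := by
  obtain ⟨N, hN⟩ := hΩ
  obtain ⟨M, σ, θ, hθ, hσ⟩ := weights N
  exact wfp_of_smp (lamN N) (lamN_nonneg N) M σ θ hθ hσ (smp_CK N hN J hJ) S hrev

end BGC
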