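import Pool.Agent.Work.MP_76d3fb_an.LimFun

/-! Existence of minimal closed lift-closed sets.

`inter_lift`. Everything is compact (`SX_compact A.bdd`).  The intersection is closed; it is
nonempty by compactness and directedness
(`IsCompact.nonempty_sInter_of_directed_nonempty_isCompact_isClosed`).  Lift: let `l` be in the
intersection and `a ∈ A.S`.  For `T ∈ F` the set `{l' ∈ T | st a l' = l}` is closed
(`st_continuous`) and nonempty (take `T' ∈ F` with `T' ⊆ st a '' T`; `l ∈ T'`); these sets are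
directed, so they have a common point.

`exists_mn`. Start: `F = {closure (ev '' range b) | b ∈ A.S}`. It is directed by `A.dir`
(`ev '' closure (range a) ⊆ closure (ev '' range a)` by `ev_continuous`). For `a, b ∈ A.S`,
`closure (ev '' range (a ∘ b)) ⊆ st a '' closure (ev '' range b)`: the right side is compact, hence
closed, and contains `ev (a (b x)) = st a (ev (b x))` (`st_ev`). So the collection of closed
nonempty lift-closed subsets of `SX X` is nonempty.  Zorn (`zorn_superset`): a nonempty chain has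
the lower bound `⋂₀`, by `inter_lift` with `T' = T` (lift-closed means `T ⊆ st a '' T`). -/

namespace BGC

open Filter Topology Set

variable {X : Type*} [MetricSpace X]

theorem inter_lift (A : Sys X) (F : Set (Set ((X → ℝ) → ℝ))) (hne : F.Nonempty)
    (hsub : ∀ T ∈ F, T ⊆ SX X) (hcl : ∀ T ∈ F, IsClosed T) (hn : ∀ T ∈ F, T.Nonempty)
    (hdir : DirectedOn (· ⊇ ·) F) (hl : ∀ a ∈ A.S, ∀ T ∈ F, ∃ T' ∈ F, T' ⊆ st a '' T) :
    IsClosed (⋂₀ F) ∧ (⋂₀ F).Nonempty ∧ Lft A (⋂₀ F) := by
  have hcp : ∀ T ∈ F, IsCompact T := fun T hT =>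
    (SX_compact A.bdd).of_isClosed_subset (hcl T hT) (hsub T hT)
  have hFne : Nonempty F := hne.to_subtype
  refine ⟨isClosed_sInter hcl, ?_, ?_⟩
  · exact IsCompact.nonempty_sInter_of_directed_nonempty_isCompact_isClosed hdir
      (fun T hT => hn T hT) (fun T hT => hcp T hT) (fun T hT => hcl T hT)
  · intro a ha l hl'
    have key : (⋂ T : F, (T.1 ∩ {l' | st a l' = l})).Nonempty := by
      refine IsCompact.nonempty_iInter_of_directed_nonempty_isCompact_isClosed _ ?_ ?_ ?_ ?_
      · intro T T'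
        obtain ⟨U, hU, h1, h2⟩ := hdir T.1 T.2 T'.1 T'.2
        exact ⟨⟨U, hU⟩, inter_subset_inter_left _ h1, inter_subset_inter_left _ h2⟩
      · intro T
        obtain ⟨T', hT', hs⟩ := hl a ha T.1 T.2
        obtain ⟨l', h1, h2⟩ := hs (hl' T' hT')
        exact ⟨l', h1, h2⟩
      · intro T
        exact (hcp T.1 T.2).inter_right (isClosed_eq (st_continuous a) continuous_const)
      · intro T
        exact (hcl T.1 T.2).inter (isClosed_eq (st_continuous a) continuous_const)
    obtain ⟨l', hl''⟩ := key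
    rw [mem_iInter] at hl''
    obtain ⟨T0⟩ := hFne
    exact ⟨l', fun T hT => (hl'' ⟨T, hT⟩).1, (hl'' T0).2⟩

private theorem minset_start (A : Sys X) [Nonempty X] :
    ∃ T : Set ((X → ℝ) → ℝ), T ⊆ SX X ∧ IsClosed T ∧ T.Nonempty ∧ Lft A T := by
  have hcomp := SX_compact A.bdd
  have h1 : ∀ a ∈ A.S, closure (ev '' range a) ⊆ SX X := fun a _ =>
    closure_mono (image_subset_range _ _)
  have key := inter_lift A ((fun b : X → X => closure (ev '' range b)) '' A.S)
    (A.ne.image _) (by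
      rintro _ ⟨a, ha, rfl⟩
      exact h1 a ha) (by
      rintro _ ⟨a, ha, rfl⟩
      exact isClosed_closure) (by
      rintro _ ⟨a, ha, rfl⟩
      exact ((range_nonempty a).image _).closure) (by
      rintro _ ⟨a, ha, rfl⟩ _ ⟨b, hb, rfl⟩
      obtain ⟨c, hc, hca, hcb⟩ := A.dir a ha b hb
      have hcl : ∀ d : X → X, range c ⊆ closure (range d) →
          closure (ev '' range c) ⊆ closure (ev '' range d) := by
        intro d hd
        refine closure_minimal ?_ isClosed_closure
        exact (image_mono hd).trans (image_closure_subset_closure_image ev_continuous)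
      exact ⟨_, ⟨c, hc, rfl⟩, hcl a hca, hcl b hcb⟩) (by
      rintro a ha _ ⟨b, hb, rfl⟩
      refine ⟨_, ⟨a ∘ b, A.cmp a ha b hb, rfl⟩, ?_⟩
      have hc : IsCompact (closure (ev '' range b)) :=
        hcomp.of_isClosed_subset isClosed_closure (h1 b hb)
      refine closure_minimal ?_ (hc.image (st_continuous a)).isClosed
      rintro _ ⟨_, ⟨x, rfl⟩, rfl⟩
      refine ⟨ev (b x), subset_closure ⟨b x, mem_range_self x, rfl⟩, ?_⟩
      exact st_ev (A.nonexp a ha) (b x))
  obtain ⟨h2, h3, h4⟩ := key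
  obtain ⟨a, ha⟩ := A.ne
  exact ⟨_, (sInter_subset_of_mem (mem_image_of_mem _ ha)).trans (h1 a ha), h2, h3, h4⟩

theorem exists_mn (A : Sys X) [Nonempty X] : ∃ T, Mn A T := by
  obtain ⟨T0, h0⟩ := minset_start A
  have hz : ∀ c ⊆ {T : Set ((X → ℝ) → ℝ) | T ⊆ SX X ∧ IsClosed T ∧ T.Nonempty ∧ Lft A T},
      IsChain (· ⊆ ·) c → c.Nonempty → ∃ lb ∈ {T : Set ((X → ℝ) → ℝ) | T ⊆ SX X ∧
        IsClosed T ∧ T.Nonempty ∧ Lft A T}, ∀ s ∈ c, lb ⊆ s := by
    intro c hc hchain hne
    have key := inter_lift A c hne (fun T hT => (hc hT).1) (fun T hT => (hc hT).2.1)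
      (fun T hT => (hc hT).2.2.1) (by
        intro T hT T' hT'
        rcases hchain.total hT hT' with h | h
        · exact ⟨T, hT, subset_rfl, h⟩
        · exact ⟨T', hT', h, subset_rfl⟩) (by
        intro a ha T hT
        refine ⟨T, hT, fun l hl => ?_⟩
        obtain ⟨l', h1, h2⟩ := (hc hT).2.2.2 a ha l hl
        exact ⟨l', h1, h2⟩)
    obtain ⟨h2, h3, h4⟩ := key
    obtain ⟨T1, hT1⟩ := hne
    exact ⟨⋂₀ c, ⟨(sInter_subset_of_mem hT1).trans (hc hT1).1, h2, h3, h4⟩,
      fun s hs => sInter_subset_of_mem hs⟩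
  obtain ⟨T, -, hT⟩ := zorn_superset_nonempty _ hz T0 h0
  obtain ⟨h1, h2, h3, h4⟩ := hT.1
  refine ⟨T, h1, h2, h3, h4, fun T' hsub hcl hne hl => ?_⟩
  exact Subset.antisymm hsub (hT.2 ⟨hsub.trans h1, hcl, hne, hl⟩ hsub)

end BGC
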