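import Pool.Agent.Work.MP_76d3fb_an.Defs

/-! Samples on scattered spaces of finite rank.

`cbd_closed`: `cbd A` is closed if `A` is: the points `t ∈ A` with `¬ AccPt t (𝓟 A)` have an open
`U ∋ t` with `U ∩ A = {t}`, so `cbd A = A \ ⋃ U`; hence all `cbd^[j] univ` are closed.
`fin_of`: if `A` is compact, `F` closed, `A ∩ cbd F = ∅` then `A ∩ F` is finite (it is compact and
every point of it is isolated in `F`).
`scat_aux`: for every `j` and every compact `A` with `A ∩ cbd^[j] univ = ∅`,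
`Ev V j (fun p => ∀ t ∈ A, ∃ i, G (p i) t < ε)`.  `j = 0`: `A = ∅`. `j + 1`
(`Function.iterate_succ_apply'`: `cbd^[j+1] univ = cbd (cbd^[j] univ)`): `A ∩ cbd^[j] univ` is
finite; for `V`-most `v`, `G v < ε` on it (`hlim`); then `A' = A ∩ {t | ε ≤ G v t}` is compact with
`A' ∩ cbd^[j] univ = ∅`; induction for `A'`.
`scat`: for every `v` put `A = {t | ε ≤ G v t}`, compact, `A ∩ cbd^[N] univ = ∅`. -/

namespace BGC

open Filter Topology Set

theorem cbd_closed {Ω : Type*} [TopologicalSpace Ω] {A : Set Ω} (hA : IsClosed A) :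
    IsClosed (cbd A) := by
  refine isClosed_of_closure_subset fun t ht => ?_
  have htA : t ∈ A := hA.closure_subset_iff.2 (fun x hx => hx.1) ht
  refine ⟨htA, accPt_iff_nhds.2 fun U hU => ?_⟩
  obtain ⟨s, hsU, hs⟩ := mem_closure_iff_nhds.1 ht (interior U) (interior_mem_nhds.2 hU)
  by_cases hst : s = t
  · rw [hst] at hs
    exact accPt_iff_nhds.1 hs.2 U hU
  · exact ⟨s, ⟨interior_subset hsU, hs.1⟩, hst⟩

theorem cbd_iter_closed {Ω : Type*} [TopologicalSpace Ω] (j : ℕ) :
    IsClosed (cbd^[j] (univ : Set Ω)) := by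
  induction j with
  | zero => exact isClosed_univ
  | succ j ih =>
    rw [Function.iterate_succ_apply']
    exact cbd_closed ih

theorem fin_of_cbd {Ω : Type*} [TopologicalSpace Ω] {A F : Set Ω} (hA : IsCompact A)
    (hF : IsClosed F) (h : A ∩ cbd F = ∅) : (A ∩ F).Finite := by
  have hU : ∀ t : Ω, ∃ U : Set Ω, t ∈ A ∩ F → U ∈ 𝓝 t ∧ ∀ y ∈ U ∩ F, y = t := by
    intro t
    by_cases ht : t ∈ A ∩ F
    · have h1 : ¬ AccPt t (𝓟 F) := by
        intro h2
        have : t ∈ A ∩ cbd F := ⟨ht.1, ht.2, h2⟩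
        rw [h] at this
        exact this
      rw [accPt_iff_nhds] at h1
      push Not at h1
      obtain ⟨U, hU, hy⟩ := h1
      exact ⟨U, fun _ => ⟨hU, hy⟩⟩
    · exact ⟨univ, fun h2 => (ht h2).elim⟩
  choose U hU using hU
  obtain ⟨s, hs, hcov⟩ := (hA.inter_right hF).elim_nhds_subcover U fun t ht => (hU t ht).1
  refine s.finite_toSet.subset fun t ht => ?_
  obtain ⟨x, hx, htx⟩ := mem_iUnion₂.1 (hcov ht)
  have := (hU x (hs x hx)).2 t ⟨htx, ht.2⟩
  rw [this]
  exact hx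

private theorem scat_aux {Ω : Type*} [TopologicalSpace Ω] {X : Type*} [MetricSpace X]
    (V : Ultrafilter X) (G : X → Ω → ℝ)
    (hGc : ∀ v, Continuous (G v)) (ε : ℝ) (hε : 0 < ε)
    (hlim : ∀ t, Tendsto (fun v => G v t) (V : Filter X) (𝓝 0)) (j : ℕ) :
    ∀ A : Set Ω, IsCompact A → A ∩ cbd^[j] (univ : Set Ω) = ∅ →
      Ev V j (fun p => ∀ t ∈ A, ∃ i, G (p i) t < ε) := by
  induction j with
  | zero =>
    intro A _ hA t ht
    have : t ∈ A ∩ cbd^[0] (univ : Set Ω) := ⟨ht, mem_univ t⟩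
    rw [hA] at this
    exact this.elim
  | succ j ih =>
    intro A hAc hA
    rw [Function.iterate_succ_apply'] at hA
    have hfin := fin_of_cbd hAc (cbd_iter_closed j) hA
    have h1 : ∀ᶠ v in (V : Filter X), ∀ t ∈ A ∩ cbd^[j] (univ : Set Ω), G v t < ε := by
      refine (eventually_all_finite hfin).2 fun t _ => ?_
      exact (hlim t).eventually (gt_mem_nhds hε)
    refine h1.mono fun v hv => ?_
    have hcl : IsClosed {t | ε ≤ G v t} := isClosed_le continuous_const (hGc v)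
    have h2 := ih (A ∩ {t | ε ≤ G v t}) (hAc.inter_right hcl) (by
      ext t
      simp only [mem_inter_iff, mem_setOf_eq, mem_empty_iff_false, iff_false]
      rintro ⟨⟨h3, h4⟩, h5⟩
      exact absurd (hv t ⟨h3, h5⟩) (not_lt.2 h4))
    have h3 : ∀ (m : ℕ) (P Q : (Fin m → X) → Prop), (∀ p, P p → Q p) → Ev V m P → Ev V m Q := by
      intro m
      induction m with
      | zero => exact fun P Q h h' => h _ h'
      | succ m ihm =>
        exact fun P Q h h' => Eventually.mono h' fun v hv => ihm _ _ (fun p hp => h _ hp) hv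
    refine h3 _ _ _ (fun p hp t ht => ?_) h2
    by_cases h4 : ε ≤ G v t
    · obtain ⟨i, hi⟩ := hp t ⟨ht, h4⟩
      exact ⟨i.succ, by simpa using hi⟩
    · exact ⟨0, by simpa using not_le.1 h4⟩

theorem scat {Ω : Type*} [TopologicalSpace Ω] {X : Type*} [MetricSpace X] (N : ℕ)
    (hN : cbd^[N] (univ : Set Ω) = ∅) (V : Ultrafilter X) (G : X → Ω → ℝ)
    (hGc : ∀ v, Continuous (G v)) (ε : ℝ) (hε : 0 < ε) (hG0 : ∀ v, IsCompact {t | ε ≤ G v t})
    (hlim : ∀ t, Tendsto (fun v => G v t) (V : Filter X) (𝓝 0)) :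
    Ev V (N + 1) (fun p => ∀ t, ∃ i, G (p i) t < ε) := by
  refine Eventually.of_forall fun v => ?_
  have h2 := scat_aux V G hGc ε hε hlim N {t | ε ≤ G v t} (hG0 v) (by rw [hN, inter_empty])
  have h3 : ∀ (m : ℕ) (P Q : (Fin m → X) → Prop), (∀ p, P p → Q p) → Ev V m P → Ev V m Q := by
    intro m
    induction m with
    | zero => exact fun P Q h h' => h _ h'
    | succ m ihm =>
      exact fun P Q h h' => Eventually.mono h' fun v hv => ihm _ _ (fun p hp => h _ hp) hv
  refine h3 _ _ _ (fun p hp t => ?_) h2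
  by_cases h4 : ε ≤ G v t
  · obtain ⟨i, hi⟩ := hp t h4
    exact ⟨i.succ, by simpa using hi⟩
  · exact ⟨0, by simpa using not_le.1 h4⟩

end BGC
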