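import Pool.Agent.Work.MP_76d3fb_an.Main
import Pool.Agent.Work.MP_76d3fb_an.Stmt

/-! Weak fpp for left reversible semigroups for subspaces of `C₀(Ω, K(H))`. -/

namespace BGC.Old

open Filter Topology Set ZeroAtInfty BGC BGC.Stmt

/-- Every complex Banach space isometric to a subspace of `C₀(Ω, K(H))`, `Ω` of finite
Cantor-Bendixson rank, has weak fpp for every left reversible semitopological semigroup. -/
theorem result.{u, v, w, x} (E : Type u) [NormedAddCommGroup E] [NormedSpace ℂ E] [CompleteSpace E]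
    (Ω : Type v) [TopologicalSpace Ω] (hΩ : ∃ n : ℕ, cbDeriv^[n] (univ : Set Ω) = ∅)
    (H : Type w) [NormedAddCommGroup H] [InnerProductSpace ℂ H] [CompleteSpace H]
    (J : E →ₗᵢ[ℂ] C₀(Ω, H →L[ℂ] H)) (hJ : ∀ a t, IsCompactOperator (J a t)) :
    WeakFPPLeftReversible.{x} E := by
  intro S _ _ _ hrev K hne hc hw act hmul _ hcont hnon
  exact main_CK hΩ J hJ S hrev K hne hc hw act hmul hnon hcont

end BGC.Old
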