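import Pool.Agent.Work.MP_76d3fb_an.Iter
import Pool.Agent.Work.MP_76d3fb_an.Block
import Pool.Agent.Work.MP_76d3fb_an.CpOp
import Pool.Agent.Work.MP_76d3fb_an.Scat

/-! The sample property for subspaces of `C₀(Ω, K(H))`, `Ω` of finite Cantor-Bendixson rank.

`V` converges weakly to `z`, `ε > 0`, `δ = ε / 2` (or smaller).
`Ev V (N+2)`: fix the first sample `v` (any), `k0 t = J v t - J z t`.  The set
`C = {k0 t | t} ` is totally bounded (continuous and zero at infinity: outside a compact set the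
values are `δ`-close to `0`), so `exists_proj` gives a finite rank projection `P` with
`‖k0 t - P k0(t) P‖ ≤ δ` for all `t`.
`G x t = ‖P * (J x t - J z t) * P‖` is continuous, `{δ ≤ G x t}` is compact (closed, inside
`{δ ≤ ‖J x t - J z t‖}`), and `G x t → 0` along `V` for every `t`: the map
`x ↦ P * J x t * P` is continuous linear from `E` to the operators, with finite dimensional range
(operators `P a P`), so weak convergence gives norm convergence (compose with the coordinates of
a basis of the range: each coordinate is a functional on `E`, `WCv`).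
`scat` gives `Ev V (N+1)` for the remaining samples `p : Fin (N+1) → K`:
`∀ t, ∃ i, G (p i) t < δ`.
For such `p`, `q : K` and `t` let `c = ⨆ i, lam i * dist q (Fin.cons v p i)`, so
`‖J q t - J v t‖ ≤ dist q v ≤ c / (N+3) =: β` and
`‖J q t - J (p i) t‖ ≤ c / lam (i+1) =: α`.  `x = J q t - J z t`, `w = J q t - J v t`,
`a = J q t - J (p i) t`:
`x = (P a P + (w - P w P)) + P (J (p i) t - J z t) P + (k0 t - P k0(t) P)`, so by `block_norm`
`‖x‖ ≤ c + 2 δ`.  (`(c - α)(c - β) = c² · 1/((N+2)(N+3)) · (N+2)/(N+3) = (c/(N+3))²`.)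
`dist q z = ‖J q - J z‖ ≤ c + 2 δ` (norm of `C₀` is the supremum). -/

namespace BGC

open Filter Topology Set ZeroAtInfty

/-- The weights: the first sample has weight `N + 3`, the others `d / (d - 1)`,
`d = (N + 2) (N + 3)`. -/
noncomputable def lamN (N : ℕ) : Fin (N + 2) → ℝ :=
  Fin.cons ((N : ℝ) + 3)
    (fun _ => (((N : ℝ) + 2) * ((N : ℝ) + 3)) / (((N : ℝ) + 2) * ((N : ℝ) + 3) - 1))

theorem lamN_nonneg (N : ℕ) (i : Fin (N + 2)) : 0 ≤ lamN N i := by
  have hN : (0 : ℝ) ≤ N := Nat.cast_nonneg N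
  have hd : 0 < ((N : ℝ) + 2) * ((N : ℝ) + 3) - 1 := by nlinarith
  refine Fin.cases ?_ (fun k => ?_) i
  · simp only [lamN, Fin.cons_zero]
    positivity
  · simp only [lamN, Fin.cons_succ]
    exact div_nonneg (by positivity) hd.le

/-- Outside a compact set a function vanishing at infinity is small. -/
theorem c0_small {Ω : Type*} [TopologicalSpace Ω] {B : Type*} [NormedAddCommGroup B]
    (f : C₀(Ω, B)) {ε : ℝ} (hε : 0 < ε) : ∃ C : Set Ω, IsCompact C ∧ ∀ t, t ∉ C → ‖f t‖ < ε := by
  have h1 : ∀ᶠ t in cocompact Ω, ‖f t‖ < ε := by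
    have h2 := (ZeroAtInftyContinuousMapClass.zero_at_infty f).norm
    rw [norm_zero] at h2
    exact h2.eventually (gt_mem_nhds hε)
  obtain ⟨C, hC, hCs⟩ := mem_cocompact.1 h1
  exact ⟨C, hC, fun t ht => hCs ht⟩

/-- Totally bounded range of a function vanishing at infinity. -/
theorem tb_range {Ω : Type*} [TopologicalSpace Ω] {B : Type*} [NormedAddCommGroup B]
    (f : C₀(Ω, B)) : TotallyBounded (range f) := by
  rw [Metric.totallyBounded_iff]
  intro ε hε
  obtain ⟨C, hC, hCs⟩ := c0_small f hε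
  obtain ⟨t, ht, hcov⟩ := Metric.totallyBounded_iff.1
    (hC.image (map_continuous f)).totallyBounded ε hε
  refine ⟨insert 0 t, ht.insert 0, ?_⟩
  rintro _ ⟨x, rfl⟩
  by_cases hx : x ∈ C
  · obtain ⟨y, hy, hxy⟩ := mem_iUnion₂.1 (hcov (mem_image_of_mem f hx))
    exact mem_iUnion₂.2 ⟨y, mem_insert_of_mem _ hy, hxy⟩
  · refine mem_iUnion₂.2 ⟨0, mem_insert _ _, ?_⟩
    rw [mem_ball_zero_iff]
    exact hCs x hx

private theorem c0_le_norm {Ω : Type*} [TopologicalSpace Ω] {B : Type*} [NormedAddCommGroup B]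
    (f : C₀(Ω, B)) (t : Ω) : ‖f t‖ ≤ ‖f‖ := by
  have := f.toBCF.norm_coe_le_norm t
  exact this

private theorem c0_norm_le {Ω : Type*} [TopologicalSpace Ω] {B : Type*} [NormedAddCommGroup B]
    (f : C₀(Ω, B)) {C : ℝ} (hC : 0 ≤ C) (h : ∀ t, ‖f t‖ ≤ C) : ‖f‖ ≤ C :=
  (BoundedContinuousFunction.norm_le (f := f.toBCF) hC).2 h

/-- Coordinates of the compression by a finite rank projection. -/
theorem compress_coord {H : Type*} [NormedAddCommGroup H] [InnerProductSpace ℂ H]
    [CompleteSpace H] (P : H →L[ℂ] H) (hPs : IsStarProjection P)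
    (hP : FiniteDimensional ℂ (LinearMap.range P.toLinearMap)) :
    ∃ (n : ℕ) (b : Fin n → H), ∀ T : H →L[ℂ] H,
      ‖P * T * P‖ ≤ ∑ j, ∑ i, ‖inner ℂ (b i) (T (b j))‖ := by
  set R := LinearMap.range P.toLinearMap with hR
  have hsym : ∀ u v : H, inner ℂ (P u) v = inner ℂ u (P v) := hPs.isSelfAdjoint.isSymmetric
  have hid : ∀ u : H, P (P u) = P u := by
    intro u
    have h2 : (P * P) u = P u := by rw [hPs.isIdempotentElem.eq]
    simpa using h2
  have hfix : ∀ u ∈ R, P u = u := by
    rintro _ ⟨u, rfl⟩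
    exact hid u
  have hmem : ∀ u, P u ∈ R := fun u => ⟨u, rfl⟩
  have hPn : ∀ u, ‖P u‖ ≤ ‖u‖ := by
    intro u
    by_cases h0 : ‖P u‖ = 0
    · rw [h0]; exact norm_nonneg _
    have h1 : ‖inner ℂ (P u) (P u)‖ = ‖P u‖ ^ 2 := by
      rw [inner_self_eq_norm_sq_to_K]; simp
    rw [hsym u (P u), hid] at h1
    have h2 := norm_inner_le_norm (𝕜 := ℂ) u (P u)
    rw [h1, pow_two] at h2
    exact le_of_mul_le_mul_right h2 (lt_of_le_of_ne (norm_nonneg _) (Ne.symm h0))
  let b := stdOrthonormalBasis ℂ R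
  have hexp : ∀ v : H, v ∈ R → v = ∑ j, inner ℂ (b j : H) v • (b j : H) := by
    intro v hv
    have h1 := b.sum_repr' ⟨v, hv⟩
    have h2 := congrArg (Subtype.val) h1
    rw [Submodule.coe_sum] at h2
    simp only [Submodule.coe_smul, Submodule.coe_inner] at h2
    exact h2.symm
  refine ⟨_, fun j => (b j : H), fun T => ?_⟩
  refine ContinuousLinearMap.opNorm_le_bound _
    (Finset.sum_nonneg fun j _ => Finset.sum_nonneg fun i _ => norm_nonneg _) fun x => ?_
  have hbn : ∀ j, ‖(b j : H)‖ = 1 := fun j => b.orthonormal.1 j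
  change ‖P (T (P x))‖ ≤ _
  have e1 : P (T (P x)) = ∑ j, inner ℂ (b j : H) (P x) • P (T (b j : H)) := by
    conv_lhs => rw [hexp (P x) (hmem x)]
    rw [map_sum, map_sum]
    simp only [map_smul]
  rw [e1, Finset.sum_mul]
  refine (norm_sum_le _ _).trans (Finset.sum_le_sum fun j _ => ?_)
  rw [norm_smul]
  have e2 : ‖inner ℂ (b j : H) (P x)‖ ≤ ‖x‖ := by
    refine (norm_inner_le_norm _ _).trans ?_
    rw [hbn, one_mul]
    exact hPn x
  have e3 : ‖P (T (b j : H))‖ ≤ ∑ i, ‖inner ℂ (b i : H) (T (b j : H))‖ := by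
    rw [hexp (P (T (b j : H))) (hmem _)]
    refine (norm_sum_le _ _).trans (Finset.sum_le_sum fun i _ => ?_)
    rw [norm_smul, hbn, mul_one, ← hsym, hfix _ (b i).2]
  rw [mul_comm]
  exact mul_le_mul e3 e2 (norm_nonneg _) (Finset.sum_nonneg fun i _ => norm_nonneg _)

/-- Weak convergence implies norm convergence after compression by a finite rank projection. -/
theorem compress {E : Type*} [NormedAddCommGroup E] [NormedSpace ℂ E] {Ω : Type*}
    [TopologicalSpace Ω] {H : Type*} [NormedAddCommGroup H] [InnerProductSpace ℂ H]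
    [CompleteSpace H] (J : E →ₗᵢ[ℂ] C₀(Ω, H →L[ℂ] H)) (P : H →L[ℂ] H) (hPs : IsStarProjection P)
    (hP : FiniteDimensional ℂ (LinearMap.range P.toLinearMap)) {K : Set E} (V : Ultrafilter K)
    (z : K) (hV : WCv K V z) (t : Ω) :
    Tendsto (fun x : K => ‖P * (J x t - J z t) * P‖) (V : Filter K) (𝓝 0) := by
  obtain ⟨n, b, hb⟩ := compress_coord P hPs hP
  refine squeeze_zero (fun x => norm_nonneg _) (fun x => hb _) ?_
  have hfun : ∀ u v : H, ∃ f : StrongDual ℂ E, ∀ x : E, f x = inner ℂ u (J x t v) := by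
    intro u v
    refine ⟨LinearMap.mkContinuous
      { toFun := fun x => inner ℂ u (J x t v)
        map_add' := fun x y => by
          rw [map_add]
          change inner ℂ u ((J x t + J y t) v) = _
          rw [add_apply, inner_add_right]
        map_smul' := fun c x => by
          rw [map_smul]
          change inner ℂ u ((c • J x t) v) = _
          rw [smul_apply, inner_smul_right]
          rfl } (‖u‖ * ‖v‖) (fun x => ?_), fun x => rfl⟩
    change ‖inner ℂ u (J x t v)‖ ≤ _
    calc ‖inner ℂ u (J x t v)‖ ≤ ‖u‖ * ‖J x t v‖ := norm_inner_le_norm _ _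
      _ ≤ ‖u‖ * (‖J x‖ * ‖v‖) := by
        refine mul_le_mul_of_nonneg_left ?_ (norm_nonneg _)
        exact ((J x t).le_opNorm v).trans
          (mul_le_mul_of_nonneg_right (c0_le_norm (J x) t) (norm_nonneg _))
      _ = ‖u‖ * ‖v‖ * ‖x‖ := by rw [J.norm_map]; ring
  have h0 : (0 : ℝ) = ∑ j : Fin n, ∑ i : Fin n, (0 : ℝ) := by simp
  rw [h0]
  refine tendsto_finsetSum _ fun j _ => tendsto_finsetSum _ fun i _ => ?_
  obtain ⟨f, hf⟩ := hfun (b i) (b j)
  have h1 := ((hV f).sub_const (f z)).norm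
  rw [sub_self, norm_zero] at h1
  refine h1.congr fun x => ?_
  rw [hf, hf, sub_apply, inner_sub_right]

theorem smp_CK {E : Type*} [NormedAddCommGroup E] [NormedSpace ℂ E] {Ω : Type*}
    [TopologicalSpace Ω] (N : ℕ) (hN : cbd^[N] (univ : Set Ω) = ∅) {H : Type*}
    [NormedAddCommGroup H] [InnerProductSpace ℂ H] [CompleteSpace H]
    (J : E →ₗᵢ[ℂ] C₀(Ω, H →L[ℂ] H)) (hJ : ∀ x t, IsCompactOperator (J x t)) :
    HasSmp E (lamN N) := by
  intro K V z hV ε hε
  change ∀ᶠ v in (V : Filter K), Ev V (N + 1) (fun p => ∀ q : K, dist q z ≤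
    (⨆ i, lamN N i * dist q ((Fin.cons v p : Fin (N + 2) → K) i)) + ε)
  refine Eventually.of_forall fun v => ?_
  have hδ : 0 < ε / 2 := by positivity
  set δ := ε / 2 with hδdef
  obtain ⟨P, hPs, hPf, hPk⟩ := exists_proj (range (J (v : E) - J (z : E))) (tb_range _) (by
    rintro _ ⟨t, rfl⟩
    exact (hJ v t).sub (hJ z t)) hδ
  have hP1 : ‖P‖ ≤ 1 := by
    refine ContinuousLinearMap.opNorm_le_bound _ zero_le_one fun u => ?_
    rw [one_mul]
    have hsym : ∀ u v : H, inner ℂ (P u) v = inner ℂ u (P v) := hPs.isSelfAdjoint.isSymmetric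
    have hid : P (P u) = P u := by
      have h2 : (P * P) u = P u := by rw [hPs.isIdempotentElem.eq]
      simpa using h2
    by_cases h0 : ‖P u‖ = 0
    · rw [h0]; exact norm_nonneg _
    have h1 : ‖inner ℂ (P u) (P u)‖ = ‖P u‖ ^ 2 := by
      rw [inner_self_eq_norm_sq_to_K]; simp
    rw [hsym u (P u), hid] at h1
    have h2 := norm_inner_le_norm (𝕜 := ℂ) u (P u)
    rw [h1, pow_two] at h2
    exact le_of_mul_le_mul_right h2 (lt_of_le_of_ne (norm_nonneg _) (Ne.symm h0))
  have hcont : ∀ x : K, Continuous fun t => ‖P * (J x t - J z t) * P‖ := by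
    intro x
    have h1 : Continuous fun t => J x t - J z t :=
      (map_continuous (J (x : E))).sub (map_continuous (J (z : E)))
    exact ((continuous_const.mul h1).mul continuous_const).norm
  have hscat := scat N hN V (fun (x : K) t => ‖P * (J x t - J z t) * P‖) hcont δ hδ (by
    intro x
    obtain ⟨C, hC, hCs⟩ := c0_small (J (x : E) - J (z : E)) hδ
    refine hC.of_isClosed_subset (isClosed_le continuous_const (hcont x)) fun t ht => ?_
    by_contra hcon
    have h1 : ‖J x t - J z t‖ < δ := hCs t hcon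
    have h2 : ‖P * (J x t - J z t) * P‖ ≤ ‖J x t - J z t‖ := by
      calc ‖P * (J x t - J z t) * P‖ ≤ ‖P * (J x t - J z t)‖ * ‖P‖ := norm_mul_le _ _
        _ ≤ (‖P‖ * ‖J x t - J z t‖) * ‖P‖ :=
          mul_le_mul_of_nonneg_right (norm_mul_le _ _) (norm_nonneg _)
        _ ≤ (1 * ‖J x t - J z t‖) * 1 := by
          refine mul_le_mul (mul_le_mul_of_nonneg_right hP1 (norm_nonneg _)) hP1
            (norm_nonneg _) ?_
          positivity
        _ = _ := by ring
    have h3 : δ ≤ ‖P * (J x t - J z t) * P‖ := ht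
    linarith) (fun t => compress J P hPs hPf V z hV t)
  refine Ev.mono hscat fun p hp q => ?_
  have hNr : (0 : ℝ) ≤ N := Nat.cast_nonneg N
  set d : ℝ := ((N : ℝ) + 2) * ((N : ℝ) + 3) with hd
  have hd1 : 1 < d := by rw [hd]; nlinarith
  set c : ℝ := ⨆ i, lamN N i * dist q ((Fin.cons v p : Fin (N + 2) → K) i) with hc
  have hbdd : BddAbove (range fun i => lamN N i * dist q ((Fin.cons v p : Fin (N + 2) → K) i)) :=
    (finite_range _).bddAbove
  have hc0 : ((N : ℝ) + 3) * dist q v ≤ c := by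
    have h1 : lamN N 0 * dist q ((Fin.cons v p : Fin (N + 2) → K) 0) ≤ c := le_ciSup hbdd 0
    have h2 : lamN N 0 = (N : ℝ) + 3 := by simp [lamN]
    rw [h2, Fin.cons_zero] at h1
    exact h1
  have hci : ∀ i : Fin (N + 1), d / (d - 1) * dist q (p i) ≤ c := by
    intro i
    have h1 : lamN N i.succ * dist q ((Fin.cons v p : Fin (N + 2) → K) i.succ) ≤ c :=
      le_ciSup hbdd i.succ
    have h2 : lamN N i.succ = d / (d - 1) := by simp [lamN, hd]
    rw [h2, Fin.cons_succ] at h1
    exact h1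
  have hcnn : 0 ≤ c := le_trans (mul_nonneg (by positivity) dist_nonneg) hc0
  have hdist : dist q z = ‖J (q : E) - J (z : E)‖ := by
    rw [← map_sub, J.norm_map, ← dist_eq_norm]
    rfl
  rw [hdist]
  refine c0_norm_le _ (by positivity) fun t => ?_
  change ‖J q t - J z t‖ ≤ c + ε
  obtain ⟨i, hi⟩ := hp t
  have ha : ‖J q t - J (p i) t‖ ≤ c * (d - 1) / d := by
    have h1 : ‖J q t - J (p i) t‖ ≤ dist q (p i) := by
      have h2 := c0_le_norm (J (q : E) - J (p i : E)) t
      rw [← map_sub, J.norm_map, ← dist_eq_norm, map_sub] at h2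
      exact h2
    have h3 := hci i
    rw [div_mul_eq_mul_div, div_le_iff₀ (by linarith)] at h3
    rw [le_div_iff₀ (by linarith)]
    nlinarith
  have hw : ‖J q t - J v t‖ ≤ c / (N + 3) := by
    have h1 : ‖J q t - J v t‖ ≤ dist q v := by
      have h2 := c0_le_norm (J (q : E) - J (v : E)) t
      rw [← map_sub, J.norm_map, ← dist_eq_norm, map_sub] at h2
      exact h2
    rw [le_div_iff₀ (by positivity)]
    nlinarith
  have hblock := block_norm P hPs (J q t - J (p i) t) (J q t - J v t) (c * (d - 1) / d)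
    (c / (N + 3)) c (by positivity) (by
      rw [div_le_iff₀ (by linarith)]
      nlinarith) (by
      rw [div_le_iff₀ (by positivity)]
      nlinarith) ha hw (by
      rw [hd]
      have h1 : c - c * (((N : ℝ) + 2) * ((N : ℝ) + 3) - 1) / (((N : ℝ) + 2) * ((N : ℝ) + 3)) =
          c / (((N : ℝ) + 2) * ((N : ℝ) + 3)) := by
        field_simp
        ring
      have h2 : c - c / ((N : ℝ) + 3) = c * ((N : ℝ) + 2) / ((N : ℝ) + 3) := by
        field_simp
        ring
      rw [h1, h2]
      apply le_of_eq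
      field_simp)
  have hk0 := hPk (J v t - J z t) ⟨t, rfl⟩
  have hsplit : J q t - J z t = (P * (J q t - J (p i) t) * P +
      ((J q t - J v t) - P * (J q t - J v t) * P)) + P * (J (p i) t - J z t) * P +
      ((J v t - J z t) - P * (J v t - J z t) * P) := by
    simp only [mul_sub, sub_mul]
    abel
  rw [hsplit]
  calc _ ≤ ‖P * (J q t - J (p i) t) * P + ((J q t - J v t) - P * (J q t - J v t) * P)‖ +
        ‖P * (J (p i) t - J z t) * P‖ + ‖(J v t - J z t) - P * (J v t - J z t) * P‖ := by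
        refine (norm_add_le _ _).trans ?_
        gcongr
        exact norm_add_le _ _
    _ ≤ c + δ + δ := by
        have := hi.le
        linarith
    _ = c + ε := by rw [hδdef]; ring

end BGC
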