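import Pool.Agent.Work.MP_76d3fb_an.LimFun

/-! Weak limits.

`exists_wl`: take `V` with `Rep V l`; the push forward of `V` to `WeakSpace ℂ E` contains the
compact set `toWeakSpace ℂ E '' K`, so converges weakly to some `z ∈ K`; for every functional `f`,
`f x → f z` along `V` (evaluation is weakly continuous), and `x ↦ (f x).re` is Lipschitz on `K`, so
its limit is `l (re f)`.
`wcv_of_rep`: real parts: `(f x).re → l (re f) = (f z).re`. Imaginary parts: the real part of
`(-I) • f`.
`exists_cluster`: the push forward of a free ultrafilter on `ℕ` to the weak space converges.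
`wsq_K`: `cv F` = points of `K` in the convex hull of `F`.  Finite sets have compact convex hull
(`Set.Finite.isCompact_convexHull`), so `cv F` is totally bounded (subtype:
`totallyBounded` via `isUniformInducing_val` / preimage).  For a sequence `q` take `p, V` from
`exists_cluster`. If `dist (q n) v ≤ c` eventually then `‖p - v‖ ≤ c`: choose `f` with `‖f‖ ≤ 1`,
`f (p - v) = ‖p - v‖` (`exists_dual_vector''`) and pass to the limit.  `p` is in the weak closure of
`range q`, so in the weak closure of the convex hull of `range q`, which is the norm closure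
(`Convex.toWeakSpace_closure`); a point `y` of the convex hull of `range q` is in the convex hull of
`q '' {k ≤ n}` for some `n` (the convex hull of an increasing union:
`convexHull_eq_union_convexHull_finite_subsets` or `mem_convexHull_iff_exists_fintype`..). -/

namespace BGC

open Filter Topology Set

variable {E : Type*} [NormedAddCommGroup E] [NormedSpace ℂ E]

/-- The points of `K` in the convex hull of `F`. -/
def cvK (K : Set E) (F : Set K) : Set K := {x : K | (x : E) ∈ convexHull ℝ (Subtype.val '' F)}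

theorem Lp.re (K : Set E) (f : StrongDual ℂ E) : Lp (fun x : K => (f x).re) := by
  refine ⟨‖f‖, fun x y => ?_⟩
  rw [← Complex.sub_re, ← map_sub, Subtype.dist_eq, dist_eq_norm]
  exact (Complex.abs_re_le_norm _).trans (f.le_opNorm _)

private theorem exists_wlim {K : Set E} (hK : IsCompact (toWeakSpace ℂ E '' K)) {ι : Type*}
    (q : ι → K) (V : Ultrafilter ι) :
    ∃ p : K, ∀ f : StrongDual ℂ E, Tendsto (fun n => f (q n)) (V : Filter ι) (𝓝 (f p)) := by
  obtain ⟨_, ⟨p, hp, rfl⟩, hlim⟩ := isCompact_iff_ultrafilter_le_nhds.1 hK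
    (V.map fun n => toWeakSpace ℂ E (q n : E)) (by
      rw [le_principal_iff]
      exact Filter.mem_map.2 (Eventually.of_forall fun n => ⟨_, (q n).2, rfl⟩))
  refine ⟨⟨p, hp⟩, fun f => ?_⟩
  have hc : Continuous fun w : WeakSpace ℂ E => f ((toWeakSpace ℂ E).symm w) :=
    WeakBilin.eval_continuous (topDualPairing ℂ E).flip f
  have h1 : Tendsto (fun n => toWeakSpace ℂ E (q n : E)) (V : Filter ι)
      (𝓝 (toWeakSpace ℂ E p)) := hlim
  have h2 := (hc.tendsto _).comp h1
  simpa [Function.comp_def] using h2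

theorem exists_wl {K : Set E} (hK : IsCompact (toWeakSpace ℂ E '' K)) {l : (K → ℝ) → ℝ}
    (hl : l ∈ SX K) : ∃ z : K, IsWL K l z := by
  obtain ⟨V, hV⟩ := rep_exists hl
  obtain ⟨z, hz⟩ := exists_wlim hK id V
  refine ⟨z, fun f => ?_⟩
  have h1 := (Complex.continuous_re.tendsto _).comp (hz f)
  exact tendsto_nhds_unique h1 (hV _ (Lp.re K f))

theorem wcv_of_rep {K : Set E} {l : (K → ℝ) → ℝ} {z : K} (hz : IsWL K l z) {V : Ultrafilter K}
    (hV : Rep V l) : WCv K V z := by
  intro f
  have h1 : ∀ g : StrongDual ℂ E,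
      Tendsto (fun x : K => (g x).re) (V : Filter K) (𝓝 ((g z).re)) := by
    intro g
    rw [hz g]
    exact hV _ (Lp.re K g)
  have h2 := h1 f
  have h3 := h1 ((-Complex.I) • f)
  have h4 : ∀ x : E, (((-Complex.I) • f) x).re = (f x).im := by
    intro x
    simp [Complex.mul_re]
  simp_rw [h4] at h3
  have h5 : Tendsto (fun x : K => ((f x).re : ℂ) + ((f x).im : ℂ) * Complex.I) (V : Filter K)
      (𝓝 (((f z).re : ℂ) + ((f z).im : ℂ) * Complex.I)) :=
    ((Complex.continuous_ofReal.tendsto _).comp h2).add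
      (((Complex.continuous_ofReal.tendsto _).comp h3).mul_const _)
  simpa [Complex.re_add_im] using h5

theorem exists_cluster {K : Set E} (hK : IsCompact (toWeakSpace ℂ E '' K)) (q : ℕ → K) :
    ∃ (p : K) (V : Ultrafilter ℕ), (V : Filter ℕ) ≤ atTop ∧
      ∀ f : StrongDual ℂ E, Tendsto (fun n => f (q n)) (V : Filter ℕ) (𝓝 (f p)) := by
  obtain ⟨p, hp⟩ := exists_wlim hK q (Ultrafilter.of atTop)
  exact ⟨p, _, Ultrafilter.of_le _, hp⟩

/-- A weak cluster point is close to the convex hulls of the initial segments. -/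
theorem cluster_hull {K : Set E} (hc : Convex ℝ K) (q : ℕ → K) (p : K) (V : Ultrafilter ℕ)
    (hp : ∀ f : StrongDual ℂ E, Tendsto (fun n => f (q n)) (V : Filter ℕ) (𝓝 (f p)))
    {ε : ℝ} (hε : 0 < ε) : ∃ n : ℕ, ∃ y ∈ cvK K (q '' {k | k ≤ n}), dist p y < ε := by
  let H : ℕ → Set E := fun n => convexHull ℝ (Subtype.val '' (q '' {k | k ≤ n}))
  have hmono : Monotone H := by
    intro a b hab
    refine convexHull_mono (image_mono (image_mono ?_))
    intro k hk
    exact le_trans hk hab
  have hconv : Convex ℝ (⋃ n, H n) :=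
    (directed_of_isDirected_le hmono).convex_iUnion fun n => convex_convexHull ℝ _
  have hmem : (p : E) ∈ closure (⋃ n, H n) := by
    by_contra hcon
    obtain ⟨f, u, hfu, hup⟩ := RCLike.geometric_hahn_banach_closed_point (𝕜 := ℂ)
      hconv.closure isClosed_closure hcon
    have h1 : ∀ n, (f (q n)).re ≤ u := by
      intro n
      refine (hfu _ (subset_closure (mem_iUnion.2 ⟨n, ?_⟩))).le
      exact subset_convexHull ℝ _ ⟨q n, ⟨n, le_refl n, rfl⟩, rfl⟩
    have h2 : (f p).re ≤ u :=
      le_of_tendsto' ((Complex.continuous_re.tendsto _).comp (hp f)) h1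
    exact absurd hup (not_lt.2 h2)
  obtain ⟨y, hy, hpy⟩ := Metric.mem_closure_iff.1 hmem ε hε
  obtain ⟨n, hn⟩ := mem_iUnion.1 hy
  have hyK : y ∈ K := by
    refine convexHull_min ?_ hc hn
    rintro _ ⟨x, -, rfl⟩
    exact x.2
  exact ⟨n, ⟨y, hyK⟩, hn, hpy⟩

theorem cvK_tb (K : Set E) (F : Set K) (hF : F.Finite) : TotallyBounded (cvK K F) := by
  have h1 : IsCompact (convexHull ℝ (Subtype.val '' F)) :=
    (hF.image _).isCompact_convexHull ℝ
  exact totallyBounded_preimage isUniformEmbedding_subtype_val.isUniformInducing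
    h1.totallyBounded

theorem wsq_K {K : Set E} (hc : Convex ℝ K) (hK : IsCompact (toWeakSpace ℂ E '' K)) :
    Wsq (cvK K) := by
  refine ⟨cvK_tb K, fun q => ?_⟩
  obtain ⟨p, V, hV, hp⟩ := exists_cluster hK q
  refine ⟨p, fun v c hvc => ?_, fun ε hε => cluster_hull hc q p V hp hε⟩
  obtain ⟨f, hf1, hf2⟩ := exists_dual_vector'' ℂ ((p : E) - v)
  have h1 : Tendsto (fun n => ‖f (q n) - f v‖) (V : Filter ℕ) (𝓝 ‖f p - f v‖) :=
    ((hp f).sub_const _).norm
  have h2 : ‖f p - f v‖ = dist p v := by
    rw [← map_sub, hf2, Subtype.dist_eq, dist_eq_norm]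
    simp
  rw [h2] at h1
  refine le_of_tendsto h1 ?_
  filter_upwards [hV hvc] with n hn
  refine le_trans ?_ hn
  rw [← map_sub, Subtype.dist_eq, dist_eq_norm]
  calc ‖f ((q n : E) - v)‖ ≤ ‖f‖ * ‖(q n : E) - v‖ := f.le_opNorm _
    _ ≤ 1 * ‖(q n : E) - v‖ := by gcongr
    _ = _ := one_mul _

end BGC
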